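import Mathlib

set_option autoImplicit false

/-! # Duality for the assignment problem (Egerváry), with forbidden pairs, in integers -/

namespace Pool.Agent.Helper50.VC

open Finset

/-- Duality for the assignment problem: if there is an allowed bijection, then there are an allowed
bijection `μ` and integer potentials `u, v` with `u l + v r ≤ w l r` for all allowed pairs and
equality on the pairs of `μ`. -/
theorem assignment_duality {α β : Type*} [Fintype α] [Fintype β]
    (E : α → β → Prop) (w : α → β → ℕ) (μ₀ : α ≃ β) (hμ₀ : ∀ a, E a (μ₀ a)) :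
    ∃ (u : α → ℤ) (v : β → ℤ) (μ : α ≃ β), (∀ a, E a (μ a)) ∧
      (∀ a b, E a b → u a + v b ≤ w a b) ∧ ∀ a, u a + v (μ a) = w a (μ a) := by
  classical
  let Feas : (α → ℤ) × (β → ℤ) → Prop := fun p => ∀ a b, E a b → p.1 a + p.2 b ≤ w a b
  let obj : (α → ℤ) × (β → ℤ) → ℤ := fun p => ∑ a, p.1 a + ∑ b, p.2 b
  have hobj : ∀ p, obj p = ∑ a, (p.1 a + p.2 (μ₀ a)) := by
    intro p
    simp only [obj]
    rw [Finset.sum_add_distrib, Equiv.sum_comp μ₀ p.2]
  -- a feasible pair of maximal objective
  obtain ⟨p, hp, hmax⟩ : ∃ p, Feas p ∧ ∀ q, Feas q → obj q ≤ obj p := by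
    have hbdd : ∀ q, Feas q → obj q ≤ ∑ a, (w a (μ₀ a) : ℤ) := by
      intro q hq
      rw [hobj]
      exact Finset.sum_le_sum fun a _ => hq a _ (hμ₀ a)
    have hne : ∃ z : ℤ, ∃ q, Feas q ∧ obj q = z :=
      ⟨_, (fun _ => 0, fun _ => 0), fun a b _ => by simp, rfl⟩
    obtain ⟨z, ⟨q, hq, hz⟩, hz2⟩ := Int.exists_greatest_of_bdd
      (P := fun z => ∃ q, Feas q ∧ obj q = z)
      ⟨∑ a, (w a (μ₀ a) : ℤ), by rintro z ⟨q, hq, rfl⟩; exact hbdd q hq⟩ hne
    exact ⟨q, hq, fun q' hq' => by rw [hz]; exact hz2 _ ⟨q', hq', rfl⟩⟩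
  -- the tight pairs
  let N : α → Finset β := fun a => Finset.univ.filter fun b => E a b ∧ p.1 a + p.2 b = w a b
  have hall : ∀ A : Finset α, A.card ≤ (A.biUnion N).card := by
    intro A
    by_contra hlt
    push Not at hlt
    let q : (α → ℤ) × (β → ℤ) := (fun a => p.1 a + if a ∈ A then 1 else 0,
      fun b => p.2 b - if b ∈ A.biUnion N then 1 else 0)
    have hq : Feas q := by
      intro a b hab
      have h1 := hp a b hab
      by_cases ha : a ∈ A
      · by_cases hb : b ∈ A.biUnion N
        · simp only [q, ha, hb, if_true]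
          linarith
        · have hnt : p.1 a + p.2 b ≠ w a b := by
            intro h
            exact hb (Finset.mem_biUnion.2 ⟨a, ha, by simp [N, hab, h]⟩)
          have h2 : p.1 a + p.2 b < w a b := lt_of_le_of_ne h1 hnt
          simp only [q, ha, hb, if_true, if_false]
          linarith
      · by_cases hb : b ∈ A.biUnion N
        · simp only [q, ha, hb, if_true, if_false]
          linarith
        · simp only [q, ha, hb, if_false]
          linarith
    have h3 := hmax q hq
    have h4 : obj q = obj p + A.card - (A.biUnion N).card := by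
      simp only [obj, q]
      rw [Finset.sum_add_distrib, Finset.sum_sub_distrib]
      simp only [Finset.sum_ite_mem, Finset.univ_inter, Finset.sum_const, nsmul_eq_mul, mul_one]
      ring
    have h5 : ((A.biUnion N).card : ℤ) < A.card := by exact_mod_cast hlt
    linarith
  obtain ⟨f, hf, hfN⟩ := (Finset.all_card_le_biUnion_card_iff_exists_injective N).1 hall
  have hbij : Function.Bijective f := by
    rw [Fintype.bijective_iff_injective_and_card]
    exact ⟨hf, Fintype.card_congr μ₀⟩
  refine ⟨p.1, p.2, Equiv.ofBijective f hbij, fun a => ?_, hp, fun a => ?_⟩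
  · have := hfN a
    simp only [N, Finset.mem_filter] at this
    exact this.2.1
  · have := hfN a
    simp only [N, Finset.mem_filter] at this
    exact this.2.2

end Pool.Agent.Helper50.VC
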