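import Pool.Agent.Helper50.VC.Order
import Pool.Agent.Helper50.VC.Assign

set_option autoImplicit false

/-! # Decomposition of monomials into chains -/

namespace Pool.Agent.Helper50.VC

open Finset Var

variable {m t n : ℕ}

/-- The allowed pairs of the assignment problem. -/
def Allowed (m t n r s : ℕ) : Fin (r + s) ⊕ Var m t n → Var m t n ⊕ (Fin r ⊕ Fin s) → Prop
  | Sum.inl e, Sum.inl c => (e : ℕ) ≤ col c
  | Sum.inl _, Sum.inr _ => True
  | Sum.inr c, Sum.inl c' => c = c' ∨ Arc c c'
  | Sum.inr c, Sum.inr (Sum.inl _) => isY c = true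
  | Sum.inr c, Sum.inr (Sum.inr _) => isY c = false

section good

variable {r s : ℕ} (μ : Fin (r + s) ⊕ Var m t n ≃ Var m t n ⊕ (Fin r ⊕ Fin s))
  (hμ : ∀ a, Allowed m t n r s a (μ a))

include hμ

theorem good_part1 (D : Finset (Var m t n)) (hDF : ∀ c ∈ D, μ (Sum.inr c) ≠ Sum.inl c)
    (hD : VChain D) (x : ℕ) (hx : ∀ c ∈ D, col c < x) : D.card ≤ x := by
  classical
  let Xo : Finset (Var m t n) := Finset.univ.filter fun c => ∃ d ∈ D, Arc c d
  let Es : Finset (Fin (r + s)) := Finset.univ.filter fun e => (e : ℕ) < x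
  have hdisj : Disjoint D Xo := by
    rw [Finset.disjoint_left]
    intro c hc hc'
    simp only [Xo, Finset.mem_filter, Finset.mem_univ, true_and] at hc'
    obtain ⟨d, hd, hcd⟩ := hc'
    exact hD c hc d hd hcd
  have hmaps : ∀ c ∈ D ∪ Xo, μ.symm (Sum.inl c) ∈ Es.disjSum Xo := by
    intro c hc
    have hE := hμ (μ.symm (Sum.inl c))
    rw [Equiv.apply_symm_apply] at hE
    rcases ha : μ.symm (Sum.inl c) with e | c'
    · rw [ha] at hE
      rw [Finset.inl_mem_disjSum]
      simp only [Es, Finset.mem_filter, Finset.mem_univ, true_and]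
      have h1 : (e : ℕ) ≤ col c := hE
      rw [Finset.mem_union] at hc
      rcases hc with hc | hc
      · exact lt_of_le_of_lt h1 (hx c hc)
      · simp only [Xo, Finset.mem_filter, Finset.mem_univ, true_and] at hc
        obtain ⟨d, hd, hcd⟩ := hc
        exact lt_of_le_of_lt (h1.trans hcd.col_le) (hx d hd)
    · rw [ha] at hE
      rw [Finset.inr_mem_disjSum]
      have h1 : c' = c ∨ Arc c' c := hE
      have h2 : μ (Sum.inr c') = Sum.inl c := by rw [← ha, Equiv.apply_symm_apply]
      rw [Finset.mem_union] at hc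
      rcases h1 with h1 | h1
      · subst h1
        rcases hc with hc | hc
        · exact absurd h2 (hDF _ hc)
        · exact hc
      · simp only [Xo, Finset.mem_filter, Finset.mem_univ, true_and] at hc ⊢
        rcases hc with hc | hc
        · exact ⟨c, hc, h1⟩
        · obtain ⟨d, hd, hcd⟩ := hc
          exact ⟨d, hd, h1.trans hcd⟩
  have hcard := Finset.card_le_card_of_injOn (fun c => μ.symm (Sum.inl c)) hmaps
    (fun c _ c' _ h => Sum.inl_injective (μ.symm.injective h))
  rw [Finset.card_union_of_disjoint hdisj, Finset.card_disjSum] at hcard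
  have hEs : Es.card ≤ x := by
    have := Finset.card_le_card_of_injOn (s := Es) (t := Finset.range x) (fun e => (e : ℕ))
      (fun e he => by simpa [Es] using he) (fun e _ e' _ h => Fin.ext h)
    simpa using this
  omega

theorem good_part2 (D : Finset (Var m t n)) (hDF : ∀ c ∈ D, μ (Sum.inr c) ≠ Sum.inl c)
    (hD : VChain D) (b : Bool) (hb : ∀ c ∈ D, isY c = b) (S : Finset (Fin r ⊕ Fin s))
    (hS : ∀ c T, isY c = b → Allowed m t n r s (Sum.inr c) (Sum.inr T) → T ∈ S) :
    D.card ≤ S.card := by
  classical
  let Yi : Finset (Var m t n) := Finset.univ.filter fun c => ∃ d ∈ D, Arc d c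
  have hdisj : Disjoint D Yi := by
    rw [Finset.disjoint_left]
    intro c hc hc'
    simp only [Yi, Finset.mem_filter, Finset.mem_univ, true_and] at hc'
    obtain ⟨d, hd, hcd⟩ := hc'
    exact hD d hd c hc hcd
  have hmaps : ∀ c ∈ D ∪ Yi, μ (Sum.inr c) ∈ Yi.disjSum S := by
    intro c hc
    have hE := hμ (Sum.inr c)
    have hcb : isY c = b := by
      rw [Finset.mem_union] at hc
      rcases hc with hc | hc
      · exact hb c hc
      · simp only [Yi, Finset.mem_filter, Finset.mem_univ, true_and] at hc
        obtain ⟨d, hd, hcd⟩ := hc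
        rw [← hcd.isY_eq]
        exact hb d hd
    rcases ha : μ (Sum.inr c) with c' | T
    · rw [ha] at hE
      rw [Finset.inl_mem_disjSum]
      have h1 : c = c' ∨ Arc c c' := hE
      rw [Finset.mem_union] at hc
      rcases h1 with h1 | h1
      · subst h1
        rcases hc with hc | hc
        · exact absurd ha (hDF _ hc)
        · exact hc
      · simp only [Yi, Finset.mem_filter, Finset.mem_univ, true_and] at hc ⊢
        rcases hc with hc | hc
        · exact ⟨c, hc, h1⟩
        · obtain ⟨d, hd, hcd⟩ := hc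
          exact ⟨d, hd, hcd.trans h1⟩
    · rw [ha] at hE
      rw [Finset.inr_mem_disjSum]
      exact hS c T hcb hE
  have hcard := Finset.card_le_card_of_injOn (fun c => μ (Sum.inr c)) hmaps
    (fun c _ c' _ h => Sum.inr_injective (μ.injective h))
  rw [Finset.card_union_of_disjoint hdisj, Finset.card_disjSum] at hcard
  omega

theorem good_of_assignment (F : Finset (Var m t n))
    (hF : ∀ c ∈ F, μ (Sum.inr c) ≠ Sum.inl c) : Good r s F := by
  classical
  refine ⟨fun D hDF hD x hx => good_part1 μ hμ D (fun c hc => hF c (hDF hc)) hD x hx,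
    fun D hDF hD hy => ?_, fun D hDF hD hy => ?_⟩
  · have := good_part2 μ hμ D (fun c hc => hF c (hDF hc)) hD true hy
      ((Finset.univ : Finset (Fin r)).map Function.Embedding.inl) ?_
    · simpa using this
    · intro c T hc hT
      rcases T with T | T
      · simp
      · have h1 : isY c = false := hT
        rw [hc] at h1
        exact absurd h1 (by simp)
  · have := good_part2 μ hμ D (fun c hc => hF c (hDF hc)) hD false hy
      ((Finset.univ : Finset (Fin s)).map Function.Embedding.inr) ?_
    · simpa using this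
    · intro c T hc hT
      rcases T with T | T
      · have h1 : isY c = true := hT
        rw [hc] at h1
        exact absurd h1 (by simp)
      · simp

end good

theorem sum_ind (B z : ℤ) (h1 : -B ≤ z) (h2 : z ≤ B) :
    ∑ θ ∈ Finset.Ioc (-B) B, (if θ ≤ z then (1 : ℤ) else 0) = z + B := by
  rw [Finset.sum_boole]
  have h3 : (Finset.Ioc (-B) B).filter (fun θ => θ ≤ z) = Finset.Ioc (-B) z := by
    ext θ
    simp only [Finset.mem_filter, Finset.mem_Ioc]
    constructor
    · rintro ⟨⟨h, _⟩, h'⟩
      exact ⟨h, h'⟩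
    · rintro ⟨h, h'⟩
      exact ⟨⟨h, h'.trans h2⟩, h'⟩
  rw [h3, Int.card_Ioc]
  have : (0 : ℤ) ≤ z - -B := by linarith
  rw [Int.toNat_of_nonneg this]
  ring

/-- Every monomial decomposes into chains of large total value. -/
theorem exists_decomposition (r s : ℕ) (A : Var m t n → ℕ) (k : ℕ)
    (h : ∀ F : Finset (Var m t n), Good r s F → k ≤ ∑ c ∈ Fᶜ, A c) :
    ∃ (Θ : Finset ℤ) (D : ℤ → Finset (Var m t n)), (∀ θ ∈ Θ, VChain (D θ)) ∧
      (∀ c, (Θ.filter fun θ => c ∈ D θ).card ≤ A c) ∧ k ≤ ∑ θ ∈ Θ, val r s (D θ) := by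
  classical
  let w : Fin (r + s) ⊕ Var m t n → Var m t n ⊕ (Fin r ⊕ Fin s) → ℕ := fun a b =>
    match a, b with
    | Sum.inr c, Sum.inl c' => if c = c' then A c else 0
    | _, _ => 0
  let μ₀ : Fin (r + s) ⊕ Var m t n ≃ Var m t n ⊕ (Fin r ⊕ Fin s) :=
    (Equiv.sumComm _ _).trans (Equiv.sumCongr (Equiv.refl _) finSumFinEquiv.symm)
  have hμ₀ : ∀ a, Allowed m t n r s a (μ₀ a) := by
    rintro (e | c)
    · simp [μ₀, Allowed]
    · simp [μ₀, Allowed]
  obtain ⟨u, v, μ, hμ, hfeas, htight⟩ := assignment_duality (Allowed m t n r s) w μ₀ hμ₀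
  -- the optimal value
  let F : Finset (Var m t n) := Finset.univ.filter fun c => μ (Sum.inr c) ≠ Sum.inl c
  have hgood : Good r s F := good_of_assignment μ hμ F (fun c hc => by simpa [F] using hc)
  have hk := h F hgood
  have hopt : ∑ a, u a + ∑ b, v b = ∑ c ∈ Fᶜ, (A c : ℤ) := by
    have h1 : ∑ a, u a + ∑ b, v b = ∑ a, (u a + v (μ a)) := by
      rw [Finset.sum_add_distrib, Equiv.sum_comp μ v]
    rw [h1, Finset.sum_congr rfl fun a _ => htight a, Fintype.sum_sum_type]
    have h2 : ∀ e : Fin (r + s), w (Sum.inl e) (μ (Sum.inl e)) = 0 := by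
      intro e
      rfl
    have h3 : ∀ c : Var m t n, ((w (Sum.inr c) (μ (Sum.inr c)) : ℕ) : ℤ) =
        if c ∈ Fᶜ then (A c : ℤ) else 0 := by
      intro c
      rcases hc : μ (Sum.inr c) with c' | T
      · by_cases hcc : c = c'
        · subst hcc
          simp [w, F, hc]
        · have : c ∉ Fᶜ := by
            simp only [F, Finset.mem_compl, Finset.mem_filter, Finset.mem_univ, true_and, hc,
              not_not]
            intro h
            exact hcc (Sum.inl_injective h).symm
          simp [w, hcc, this]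
      · have : c ∉ Fᶜ := by
          simp only [F, Finset.mem_compl, Finset.mem_filter, Finset.mem_univ, true_and, hc,
            not_not]
          intro h
          cases h
        simp [w, this]
    simp only [h2, h3, Nat.cast_zero, Finset.sum_const_zero, zero_add]
    rw [← Finset.sum_filter]
    congr 1
    ext c
    simp
  -- bounds for the potentials
  obtain ⟨B, hB⟩ : ∃ B : ℤ, (∀ a, |u a| ≤ B) ∧ ∀ b, |v b| ≤ B := by
    refine ⟨∑ a, |u a| + ∑ b, |v b|, fun a => ?_, fun b => ?_⟩
    · have h1 : |u a| ≤ ∑ a, |u a| :=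
        Finset.single_le_sum (f := fun a => |u a|) (fun _ _ => abs_nonneg _) (Finset.mem_univ a)
      have h2 : 0 ≤ ∑ b, |v b| := Finset.sum_nonneg fun _ _ => abs_nonneg _
      linarith
    · have h1 : |v b| ≤ ∑ b, |v b| :=
        Finset.single_le_sum (f := fun a => |v a|) (fun _ _ => abs_nonneg _) (Finset.mem_univ b)
      have h2 : 0 ≤ ∑ b, |u b| := Finset.sum_nonneg fun _ _ => abs_nonneg _
      linarith
  have hBu : ∀ a, -B ≤ -u a ∧ -u a ≤ B := fun a => by
    have := abs_le.1 (hB.1 a)
    constructor <;> linarith [this.1, this.2]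
  have hBv : ∀ b, -B ≤ v b ∧ v b ≤ B := fun b => abs_le.1 (hB.2 b)
  -- the facts
  have f1 : ∀ e T, v (Sum.inr T) ≤ -u (Sum.inl e) := by
    intro e T
    have h1 := hfeas (Sum.inl e) (Sum.inr T) trivial
    have h2 : w (Sum.inl e) (Sum.inr T) = 0 := rfl
    rw [h2] at h1
    push_cast at h1
    linarith
  have f2 : ∀ (e : Fin (r + s)) c, (e : ℕ) ≤ col c → v (Sum.inl c) ≤ -u (Sum.inl e) := by
    intro e c hec
    have h1 := hfeas (Sum.inl e) (Sum.inl c) hec
    have h2 : w (Sum.inl e) (Sum.inl c) = 0 := rfl
    rw [h2] at h1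
    push_cast at h1
    linarith
  have f3 : ∀ c T, isY c = true → v (Sum.inr (Sum.inl T)) ≤ -u (Sum.inr c) := by
    intro c T hc
    have h1 := hfeas (Sum.inr c) (Sum.inr (Sum.inl T)) hc
    have h2 : w (Sum.inr c) (Sum.inr (Sum.inl T)) = 0 := rfl
    rw [h2] at h1
    push_cast at h1
    linarith
  have f3' : ∀ c T, isY c = false → v (Sum.inr (Sum.inr T)) ≤ -u (Sum.inr c) := by
    intro c T hc
    have h1 := hfeas (Sum.inr c) (Sum.inr (Sum.inr T)) hc
    have h2 : w (Sum.inr c) (Sum.inr (Sum.inr T)) = 0 := rfl
    rw [h2] at h1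
    push_cast at h1
    linarith
  have f4 : ∀ c c', Arc c c' → v (Sum.inl c') ≤ -u (Sum.inr c) := by
    intro c c' hcc
    have h1 := hfeas (Sum.inr c) (Sum.inl c') (Or.inr hcc)
    have h2 : w (Sum.inr c) (Sum.inl c') = 0 := by
      have : c ≠ c' := by
        rintro rfl
        exact Arc.irrefl hcc
      simp [w, this]
    rw [h2] at h1
    push_cast at h1
    linarith
  have f5 : ∀ c, v (Sum.inl c) + u (Sum.inr c) ≤ A c := by
    intro c
    have h1 := hfeas (Sum.inr c) (Sum.inl c) (Or.inl rfl)
    have h2 : w (Sum.inr c) (Sum.inl c) = A c := by simp [w]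
    rw [h2] at h1
    linarith
  let D : ℤ → Finset (Var m t n) := fun θ =>
    Finset.univ.filter fun c => -u (Sum.inr c) < θ ∧ θ ≤ v (Sum.inl c)
  have hDmem : ∀ θ c, c ∈ D θ ↔ -u (Sum.inr c) < θ ∧ θ ≤ v (Sum.inl c) := by
    intro θ c
    simp [D]
  refine ⟨Finset.Ioc (-B) B, D, ?_, ?_, ?_⟩
  · intro θ _ c hc c' hc' harc
    rw [hDmem] at hc hc'
    have := f4 c c' harc
    linarith [hc.1, hc'.2]
  · intro c
    have h1 : ((Finset.Ioc (-B) B).filter fun θ => c ∈ D θ) ⊆
        Finset.Ioc (-u (Sum.inr c)) (v (Sum.inl c)) := by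
      intro θ hθ
      rw [Finset.mem_filter, hDmem] at hθ
      rw [Finset.mem_Ioc]
      exact hθ.2
    refine (Finset.card_le_card h1).trans ?_
    rw [Int.card_Ioc]
    have := f5 c
    omega
  · -- the value
    have hV : ∑ a, u a + ∑ b, v b = ∑ θ ∈ Finset.Ioc (-B) B,
        (∑ c, ((if θ ≤ v (Sum.inl c) then (1 : ℤ) else 0) -
          (if θ ≤ -u (Sum.inr c) then (1 : ℤ) else 0)) +
        ∑ T, (if θ ≤ v (Sum.inr T) then (1 : ℤ) else 0) -
        ∑ e, (if θ ≤ -u (Sum.inl e) then (1 : ℤ) else 0)) := by
      rw [Finset.sum_sub_distrib, Finset.sum_add_distrib, Finset.sum_comm (t := Finset.univ),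
        Finset.sum_comm (t := Finset.univ), Finset.sum_comm (t := Finset.univ)]
      have e1 : ∀ c, ∑ θ ∈ Finset.Ioc (-B) B, ((if θ ≤ v (Sum.inl c) then (1 : ℤ) else 0) -
          (if θ ≤ -u (Sum.inr c) then (1 : ℤ) else 0)) = v (Sum.inl c) + u (Sum.inr c) := by
        intro c
        rw [Finset.sum_sub_distrib, sum_ind _ _ (hBv _).1 (hBv _).2,
          sum_ind _ _ (hBu _).1 (hBu _).2]
        ring
      have e2 : ∀ T, ∑ θ ∈ Finset.Ioc (-B) B, (if θ ≤ v (Sum.inr T) then (1 : ℤ) else 0)
          = v (Sum.inr T) + B := fun T => sum_ind _ _ (hBv _).1 (hBv _).2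
      have e3 : ∀ e, ∑ θ ∈ Finset.Ioc (-B) B, (if θ ≤ -u (Sum.inl e) then (1 : ℤ) else 0)
          = -u (Sum.inl e) + B := fun T => sum_ind _ _ (hBu _).1 (hBu _).2
      rw [Finset.sum_congr rfl fun c _ => e1 c, Finset.sum_congr rfl fun T _ => e2 T,
        Finset.sum_congr rfl fun e _ => e3 e]
      rw [Fintype.sum_sum_type (f := u), Fintype.sum_sum_type (f := v)]
      simp only [Finset.sum_add_distrib, Finset.sum_neg_distrib, Finset.sum_const,
        Finset.card_univ, Fintype.card_sum, Fintype.card_fin, nsmul_eq_mul]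
      push_cast
      ring
    have hθ : ∀ θ ∈ Finset.Ioc (-B) B,
        (∑ c, ((if θ ≤ v (Sum.inl c) then (1 : ℤ) else 0) -
          (if θ ≤ -u (Sum.inr c) then (1 : ℤ) else 0)) +
        ∑ T, (if θ ≤ v (Sum.inr T) then (1 : ℤ) else 0) -
        ∑ e, (if θ ≤ -u (Sum.inl e) then (1 : ℤ) else 0)) ≤ ((val r s (D θ) : ℕ) : ℤ) := by
      intro θ _
      have g1 : ∑ c, ((if θ ≤ v (Sum.inl c) then (1 : ℤ) else 0) -
          (if θ ≤ -u (Sum.inr c) then (1 : ℤ) else 0)) ≤ (D θ).card := by
        have : ((D θ).card : ℤ) = ∑ c, (if c ∈ D θ then (1 : ℤ) else 0) := by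
          rw [Finset.sum_boole]
          congr 2
          ext c
          simp
        rw [this]
        refine Finset.sum_le_sum fun c _ => ?_
        by_cases h1 : θ ≤ v (Sum.inl c)
        · by_cases h2 : θ ≤ -u (Sum.inr c)
          · rw [if_pos h1, if_pos h2]
            split_ifs <;> norm_num
          · rw [if_pos h1, if_neg h2, if_pos ((hDmem θ c).2 ⟨not_le.1 h2, h1⟩)]
            norm_num
        · rw [if_neg h1]
          split_ifs <;> norm_num
      have g2 : (D θ).card = ((D θ).filter fun c => isY c = true).card +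
          ((D θ).filter fun c => isY c = false).card := by
        rw [← Finset.card_filter_add_card_filter_not (s := D θ) (p := fun c => isY c = true)]
        congr 2
        ext c
        simp
      by_cases hT : ∃ T, θ ≤ v (Sum.inr T)
      · obtain ⟨T₀, hT₀⟩ := hT
        have g3 : ∑ e : Fin (r + s), (if θ ≤ -u (Sum.inl e) then (1 : ℤ) else 0) = r + s := by
          rw [Finset.sum_congr rfl fun e _ => if_pos (hT₀.trans (f1 e T₀))]
          simp
        have g4 : (((D θ).filter fun c => isY c = true).card : ℤ) +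
            ∑ T : Fin r, (if θ ≤ v (Sum.inr (Sum.inl T)) then (1 : ℤ) else 0) - r ≤
            ((((D θ).filter fun c => isY c = true).card - r : ℕ) : ℤ) := by
          by_cases hex : ∃ T : Fin r, θ ≤ v (Sum.inr (Sum.inl T))
          · obtain ⟨T, hT⟩ := hex
            have : (D θ).filter (fun c => isY c = true) = ∅ := by
              rw [Finset.filter_eq_empty_iff]
              intro c hc hyc
              rw [hDmem] at hc
              have := f3 c T hyc
              linarith [hc.1]
            rw [this]
            have h5 : ∑ T : Fin r, (if θ ≤ v (Sum.inr (Sum.inl T)) then (1 : ℤ) else 0) ≤ r := by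
              rw [Finset.sum_boole]
              have := Finset.card_le_univ
                ((Finset.univ : Finset (Fin r)).filter fun T => θ ≤ v (Sum.inr (Sum.inl T)))
              rw [Fintype.card_fin] at this
              exact_mod_cast this
            simp only [Finset.card_empty, Nat.cast_zero, zero_add]
            have h6 : (0 : ℤ) ≤ ((0 - r : ℕ) : ℤ) := Int.natCast_nonneg _
            linarith
          · push Not at hex
            rw [Finset.sum_eq_zero fun T _ => if_neg (not_le.2 (hex T))]
            omega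
        have g5 : (((D θ).filter fun c => isY c = false).card : ℤ) +
            ∑ T : Fin s, (if θ ≤ v (Sum.inr (Sum.inr T)) then (1 : ℤ) else 0) - s ≤
            ((((D θ).filter fun c => isY c = false).card - s : ℕ) : ℤ) := by
          by_cases hex : ∃ T : Fin s, θ ≤ v (Sum.inr (Sum.inr T))
          · obtain ⟨T, hT⟩ := hex
            have : (D θ).filter (fun c => isY c = false) = ∅ := by
              rw [Finset.filter_eq_empty_iff]
              intro c hc hyc
              rw [hDmem] at hc
              have := f3' c T hyc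
              linarith [hc.1]
            rw [this]
            have h5 : ∑ T : Fin s, (if θ ≤ v (Sum.inr (Sum.inr T)) then (1 : ℤ) else 0) ≤ s := by
              rw [Finset.sum_boole]
              have := Finset.card_le_univ
                ((Finset.univ : Finset (Fin s)).filter fun T => θ ≤ v (Sum.inr (Sum.inr T)))
              rw [Fintype.card_fin] at this
              exact_mod_cast this
            simp only [Finset.card_empty, Nat.cast_zero, zero_add]
            have h6 : (0 : ℤ) ≤ ((0 - s : ℕ) : ℤ) := Int.natCast_nonneg _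
            linarith
          · push Not at hex
            rw [Finset.sum_eq_zero fun T _ => if_neg (not_le.2 (hex T))]
            omega
        rw [Fintype.sum_sum_type, g3]
        have g6 : ((D θ).card : ℤ) = (((D θ).filter fun c => isY c = true).card : ℤ) +
            (((D θ).filter fun c => isY c = false).card : ℤ) := by exact_mod_cast g2
        have g7 : ((((D θ).filter fun c => isY c = true).card - r : ℕ) : ℤ) +
            ((((D θ).filter fun c => isY c = false).card - s : ℕ) : ℤ) ≤
            ((val r s (D θ) : ℕ) : ℤ) := by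
          unfold val
          exact_mod_cast le_max_left _ _
        linarith
      · push Not at hT
        rw [Finset.sum_eq_zero fun T _ => if_neg (not_le.2 (hT T)), add_zero]
        set x := (D θ).sup fun c => col c + 1 with hx
        have g3 : (min x (r + s) : ℕ) ≤
            ∑ e : Fin (r + s), (if θ ≤ -u (Sum.inl e) then (1 : ℤ) else 0) := by
          rcases (D θ).eq_empty_or_nonempty with hD | hD
          · rw [hx, hD]
            simp only [Finset.sup_empty, bot_eq_zero', Nat.zero_min, Nat.cast_zero]
            exact Finset.sum_nonneg fun _ _ => by split_ifs <;> norm_num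
          · obtain ⟨d, hd, hdx⟩ := Finset.exists_mem_eq_sup (D θ) hD fun c => col c + 1
            rw [Finset.sum_boole]
            have h5 : ((Finset.range (min x (r + s))).card) ≤
                ((Finset.univ : Finset (Fin (r + s))).filter
                  fun e => θ ≤ -u (Sum.inl e)).card := by
              refine Finset.card_le_card_of_surjOn (fun e : Fin (r + s) => (e : ℕ)) ?_
              intro i hi
              rw [Finset.mem_coe, Finset.mem_range, lt_min_iff] at hi
              refine ⟨⟨i, hi.2⟩, ?_, rfl⟩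
              rw [Finset.mem_coe, Finset.mem_filter]
              refine ⟨Finset.mem_univ _, ?_⟩
              have h6 : i ≤ col d := by
                have := hi.1
                rw [hx, hdx] at this
                omega
              exact ((hDmem θ d).1 hd).2.trans (f2 ⟨i, hi.2⟩ d h6)
            rw [Finset.card_range] at h5
            exact_mod_cast h5
        have g8 : ((((D θ).filter fun c => isY c = true).card - r) +
            (((D θ).filter fun c => isY c = false).card - s)) ≤ val r s (D θ) := by
          unfold val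
          exact le_max_left _ _
        have g9 : (D θ).card - x ≤ val r s (D θ) := by
          unfold val
          exact le_max_right _ _
        have g10 : ((D θ).card : ℤ) - (min x (r + s) : ℕ) ≤ ((val r s (D θ) : ℕ) : ℤ) := by
          omega
        linarith
    have hfin : ((k : ℕ) : ℤ) ≤ ∑ θ ∈ Finset.Ioc (-B) B, ((val r s (D θ) : ℕ) : ℤ) := by
      calc ((k : ℕ) : ℤ) ≤ ∑ c ∈ Fᶜ, (A c : ℤ) := by exact_mod_cast hk
        _ = _ := hopt.symm
        _ = _ := hV
        _ ≤ _ := Finset.sum_le_sum hθ
    exact_mod_cast hfin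

end Pool.Agent.Helper50.VC
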