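import Mathlib

set_option autoImplicit false

/-! # Varieties of complexes: definitions

`Var m t n` is the set of the indeterminates `y i j` (`i < m`, `j < t`) and `z j k`
(`j < t`, `k < n`); `complexIdeal K m t n r s` is the ideal
`I_{r+1}(Y) + I_{s+1}(Z) + I_1(YZ)` of `K[Y, Z]`. -/

namespace Pool.Agent.Helper50.VC

open MvPolynomial

/-- The indeterminates: the entries `y i j` of the `m × t` matrix `Y` and the entries `z j k` of the
`t × n` matrix `Z`. -/
inductive Var (m t n : ℕ) : Type
  | y (i : Fin m) (j : Fin t) : Var m t n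
  | z (j : Fin t) (k : Fin n) : Var m t n
  deriving DecidableEq

/-- The generic `m × t` matrix `Y`. -/
noncomputable def matY (K : Type*) [CommRing K] (m t n : ℕ) :
    Matrix (Fin m) (Fin t) (MvPolynomial (Var m t n) K) :=
  Matrix.of fun i j => X (Var.y i j)

/-- The generic `t × n` matrix `Z`. -/
noncomputable def matZ (K : Type*) [CommRing K] (m t n : ℕ) :
    Matrix (Fin t) (Fin n) (MvPolynomial (Var m t n) K) :=
  Matrix.of fun j k => X (Var.z j k)

/-- The ideal `I_k(A)` generated by the `k × k` minors of the `a × b` matrix `A`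
(rows `f 0 < f 1 < ⋯`, columns `g 0 < g 1 < ⋯`). -/
def minorsIdeal {R : Type*} [CommRing R] {a b : ℕ} (k : ℕ) (A : Matrix (Fin a) (Fin b) R) :
    Ideal R :=
  Ideal.span {x | ∃ (f : Fin k ↪o Fin a) (g : Fin k ↪o Fin b), x = (A.submatrix f g).det}

/-- The ideal `𝔭_{r,s} = I_{r+1}(Y) + I_{s+1}(Z) + I_1(YZ)` of the variety of complexes. -/
noncomputable def complexIdeal (K : Type*) [CommRing K] (m t n r s : ℕ) :
    Ideal (MvPolynomial (Var m t n) K) :=
  minorsIdeal (r + 1) (matY K m t n) ⊔ minorsIdeal (s + 1) (matZ K m t n) ⊔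
    minorsIdeal 1 (matY K m t n * matZ K m t n)

/-- The `k`-th symbolic power `P^(k) = P^k R_P ∩ R` of the prime ideal `P` of `R`. -/
noncomputable def symbolicPower {R : Type*} [CommRing R] (P : Ideal R) [P.IsPrime] (k : ℕ) :
    Ideal R :=
  ((P ^ k).map (algebraMap R (Localization.AtPrime P))).comap
    (algebraMap R (Localization.AtPrime P))

section symb

variable {R : Type*} [CommRing R] (P : Ideal R) [P.IsPrime]

theorem mem_symbolicPower {k : ℕ} {f : R} :
    f ∈ symbolicPower P k ↔ ∃ s, s ∉ P ∧ s * f ∈ P ^ k := by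
  unfold symbolicPower
  rw [Ideal.mem_comap, IsLocalization.algebraMap_mem_map_algebraMap_iff P.primeCompl]
  constructor
  · rintro ⟨s, hs, h⟩
    exact ⟨s, hs, h⟩
  · rintro ⟨s, hs, h⟩
    exact ⟨s, hs, h⟩

theorem symbolicPower_anti {i j : ℕ} (h : i ≤ j) : symbolicPower P j ≤ symbolicPower P i := by
  intro f hf
  rw [mem_symbolicPower] at hf ⊢
  obtain ⟨s, hs, hf⟩ := hf
  exact ⟨s, hs, Ideal.pow_le_pow_right h hf⟩

theorem mul_mem_symbolicPower {i j : ℕ} {a b : R} (ha : a ∈ symbolicPower P i)
    (hb : b ∈ symbolicPower P j) : a * b ∈ symbolicPower P (i + j) := by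
  rw [mem_symbolicPower] at ha hb ⊢
  obtain ⟨s, hs, ha⟩ := ha
  obtain ⟨u, hu, hb⟩ := hb
  refine ⟨s * u, fun h => ?_, ?_⟩
  · rcases (inferInstance : P.IsPrime).mem_or_mem h with h | h
    · exact hs h
    · exact hu h
  · have : s * u * (a * b) = (s * a) * (u * b) := by ring
    rw [this, pow_add]
    exact Ideal.mul_mem_mul ha hb

theorem pow_le_symbolicPower (k : ℕ) : P ^ k ≤ symbolicPower P k := by
  intro f hf
  rw [mem_symbolicPower]
  exact ⟨1, fun h => (inferInstance : P.IsPrime).ne_top ((Ideal.eq_top_iff_one _).2 h), by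
    simpa using hf⟩

theorem symbolicPower_zero : symbolicPower P 0 = ⊤ := by
  rw [eq_top_iff]
  exact le_trans (by simp) (pow_le_symbolicPower P 0)

theorem symbolicPower_one : symbolicPower P 1 = P := by
  apply le_antisymm
  · intro f hf
    rw [mem_symbolicPower] at hf
    obtain ⟨s, hs, hf⟩ := hf
    rw [pow_one] at hf
    rcases (inferInstance : P.IsPrime).mem_or_mem hf with h | h
    · exact absurd h hs
    · exact h
  · simpa using pow_le_symbolicPower P 1

theorem symbolicPower_le {k : ℕ} (hk : 1 ≤ k) : symbolicPower P k ≤ P := by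
  have := symbolicPower_anti P hk
  rwa [symbolicPower_one] at this

theorem symbolicPower_cancel {k : ℕ} {s f : R} (hs : s ∉ P) (h : s * f ∈ symbolicPower P k) :
    f ∈ symbolicPower P k := by
  rw [mem_symbolicPower] at h ⊢
  obtain ⟨u, hu, h⟩ := h
  refine ⟨u * s, fun h => ?_, ?_⟩
  · rcases (inferInstance : P.IsPrime).mem_or_mem h with h | h
    · exact hu h
    · exact hs h
  · rwa [mul_assoc]

end symb

/-- The symbolic Rees algebra `⊕_k P^(k) T^k`, as a subalgebra of the polynomial ring `R[T]`. -/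
noncomputable def symbolicRees {R : Type*} [CommRing R] (P : Ideal R) [P.IsPrime] :
    Subalgebra R (Polynomial R) where
  carrier := {f | ∀ k, f.coeff k ∈ symbolicPower P k}
  mul_mem' := by
    intro f g hf hg k
    rw [Polynomial.coeff_mul]
    refine Ideal.sum_mem _ fun p hp => ?_
    rw [← Finset.HasAntidiagonal.mem_antidiagonal.1 hp]
    exact mul_mem_symbolicPower P (hf _) (hg _)
  add_mem' := by
    intro f g hf hg k
    rw [Polynomial.coeff_add]
    exact Ideal.add_mem _ (hf k) (hg k)
  algebraMap_mem' := by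
    intro a k
    rw [Polynomial.algebraMap_apply, Algebra.algebraMap_self_apply, Polynomial.coeff_C]
    split_ifs with h
    · subst h
      rw [symbolicPower_zero]
      trivial
    · exact Ideal.zero_mem _

theorem mem_symbolicRees {R : Type*} [CommRing R] (P : Ideal R) [P.IsPrime] (f : Polynomial R) :
    f ∈ symbolicRees P ↔ ∀ k, f.coeff k ∈ symbolicPower P k := Iff.rfl

/-- The ideal `⊕_k P^(k+1) T^k` of the symbolic Rees algebra `⊕_k P^(k) T^k`. -/
noncomputable def symbolicReesShift {R : Type*} [CommRing R] (P : Ideal R) [P.IsPrime] :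
    Ideal (symbolicRees P) where
  carrier := {f | ∀ k, (f : Polynomial R).coeff k ∈ symbolicPower P (k + 1)}
  add_mem' := by
    intro f g hf hg k
    rw [Subalgebra.coe_add, Polynomial.coeff_add]
    exact Ideal.add_mem _ (hf k) (hg k)
  zero_mem' := by
    intro k
    simp
  smul_mem' := by
    intro c f hf k
    rw [smul_eq_mul, Subalgebra.coe_mul, Polynomial.coeff_mul]
    refine Ideal.sum_mem _ fun p hp => ?_
    have h : k + 1 = p.1 + (p.2 + 1) := by
      rw [← Finset.HasAntidiagonal.mem_antidiagonal.1 hp]; ring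
    rw [h]
    exact mul_mem_symbolicPower P (c.2 _) (hf _)

/-- The symbolic associated graded algebra `⊕_k P^(k) / P^(k+1)`, as the quotient of the symbolic
Rees algebra `⊕_k P^(k) T^k` by its ideal `⊕_k P^(k+1) T^k`. -/
abbrev SymbolicGr {R : Type*} [CommRing R] (P : Ideal R) [P.IsPrime] : Type _ :=
  symbolicRees P ⧸ symbolicReesShift P

end Pool.Agent.Helper50.VC
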