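import Mathlib

set_option autoImplicit false

/-! # Determinants with a block of entries in an ideal -/

namespace Pool.Agent.Helper50.VC

open Finset

theorem prod_mem_pow_card {ι R : Type*} [CommRing R] (I : Ideal R) (s : Finset ι) (f : ι → R)
    (h : ∀ i ∈ s, f i ∈ I) : ∏ i ∈ s, f i ∈ I ^ s.card := by
  classical
  induction s using Finset.induction_on with
  | empty => simp
  | insert a s ha ih =>
    rw [Finset.prod_insert ha, Finset.card_insert_of_notMem ha, pow_succ']
    exact Ideal.mul_mem_mul (h a (Finset.mem_insert_self a s))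
      (ih fun i hi => h i (Finset.mem_insert_of_mem hi))

/-- If the entries of the matrix with row in `P` and column in `Q` are in `I`, then the determinant
is in `I ^ (|P| + |Q| - n)`. -/
theorem det_mem_pow {ι R : Type*} [Fintype ι] [DecidableEq ι] [CommRing R] (I : Ideal R)
    (M : Matrix ι ι R) (P Q : Finset ι) (h : ∀ i ∈ P, ∀ j ∈ Q, M i j ∈ I) :
    M.det ∈ I ^ (P.card + Q.card - Fintype.card ι) := by
  rw [Matrix.det_apply]
  refine Ideal.sum_mem _ fun σ _ => ?_
  have hsmul : ∀ (u : ℤˣ) (x : R) (k : ℕ), x ∈ I ^ k → u • x ∈ I ^ k := by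
    intro u x k hx
    rcases Int.units_eq_one_or u with rfl | rfl
    · simpa using hx
    · simpa using hx
  refine hsmul _ _ _ ?_
  let T : Finset ι := Q.filter fun i => σ i ∈ P
  have hT : P.card + Q.card - Fintype.card ι ≤ T.card := by
    have h1 : T = Q ∩ P.map σ.symm.toEmbedding := by
      ext i
      simp [T, Finset.mem_map_equiv]
    have h2 : (Q ∪ P.map σ.symm.toEmbedding).card + (Q ∩ P.map σ.symm.toEmbedding).card
        = Q.card + (P.map σ.symm.toEmbedding).card := Finset.card_union_add_card_inter _ _
    rw [Finset.card_map] at h2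
    have h3 : (Q ∪ P.map σ.symm.toEmbedding).card ≤ Fintype.card ι := Finset.card_le_univ _
    rw [h1]
    omega
  refine Ideal.pow_le_pow_right hT ?_
  rw [← Finset.prod_mul_prod_compl T]
  refine Ideal.mul_mem_right _ _ ?_
  refine prod_mem_pow_card I T _ fun i hi => ?_
  simp only [T, Finset.mem_filter] at hi
  exact h _ hi.2 _ hi.1

/-- Expansion of the determinant of a product along the rows of the first factor. -/
theorem det_mul_expand {ι κ R : Type*} [Fintype ι] [DecidableEq ι] [Fintype κ] [DecidableEq κ]
    [CommRing R] (A : Matrix ι κ R) (B : Matrix κ ι R) :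
    (A * B).det = ∑ f : ι → κ, (∏ j, A j (f j)) * (B.submatrix f id).det := by
  have h1 : (A * B) = fun j => ∑ l, A j l • B l := by
    funext j k
    rw [Matrix.mul_apply, Finset.sum_apply]
    rfl
  have h2 : (A * B).det = Matrix.detRowAlternating (fun j => ∑ l, A j l • B l) := by
    rw [← h1]; rfl
  rw [h2, ← AlternatingMap.coe_multilinearMap, MultilinearMap.map_sum]
  refine Finset.sum_congr rfl fun f _ => ?_
  rw [MultilinearMap.map_smul_univ, smul_eq_mul]
  rfl

/-- The determinant of a product of matrices with too small middle size vanishes. -/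
theorem det_mul_eq_zero {ι κ R : Type*} [Fintype ι] [DecidableEq ι] [Fintype κ] [DecidableEq κ]
    [CommRing R] (A : Matrix ι κ R) (B : Matrix κ ι R) (L : Finset κ)
    (hA : ∀ j l, l ∉ L → A j l = 0) (hL : L.card < Fintype.card ι) : (A * B).det = 0 := by
  rw [det_mul_expand]
  refine Finset.sum_eq_zero fun f _ => ?_
  by_cases hf : ∀ j, f j ∈ L
  · -- `f` is not injective
    obtain ⟨x, -, y, -, hxy, hfxy⟩ := Finset.exists_ne_map_eq_of_card_lt_of_maps_to
      (s := (Finset.univ : Finset ι)) (t := L) (f := f) (by simpa using hL) (fun a _ => hf a)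
    rw [Matrix.det_zero_of_row_eq hxy, mul_zero]
    funext k
    simp [Matrix.submatrix_apply, hfxy]
  · push Not at hf
    obtain ⟨j, hj⟩ := hf
    rw [Finset.prod_eq_zero (Finset.mem_univ j) (hA j _ hj), zero_mul]

/-- If each of the rows in `P` of a square matrix is, modulo `I`, a combination of `r` vectors,
then the determinant is in `I ^ (|P| - r)`. -/
theorem det_mem_pow_of_rank {x r : ℕ} {R : Type*} [CommRing R] (I : Ideal R)
    (M : Matrix (Fin x) (Fin x) R) (P : Finset (Fin x)) (U : Matrix (Fin x) (Fin r) R)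
    (V : Matrix (Fin r) (Fin x) R) (h : ∀ i ∈ P, ∀ j, M i j - (U * V) i j ∈ I) :
    M.det ∈ I ^ (P.card - r) := by
  classical
  let U' : Matrix (Fin x) (Fin r) R := fun i j => if i ∈ P then U i j else 0
  let N : Matrix (Fin x) (Fin x) R := M - U' * V
  have h1 : M.det = (Matrix.fromBlocks (1 : Matrix (Fin r) (Fin r) R) (-V) U' N).det := by
    rw [Matrix.det_fromBlocks_one₁₁]
    congr 1
    simp [N]
  rw [h1]
  have h2 := det_mem_pow I (Matrix.fromBlocks (1 : Matrix (Fin r) (Fin r) R) (-V) U' N)
    (P.map Function.Embedding.inr) ((Finset.univ : Finset (Fin x)).map Function.Embedding.inr) ?_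
  · rw [Finset.card_map, Finset.card_map, Fintype.card_sum, Fintype.card_fin, Finset.card_univ,
      Fintype.card_fin] at h2
    simpa [Nat.add_sub_add_right] using h2
  · intro i hi j hj
    rw [Finset.mem_map] at hi hj
    obtain ⟨i, hi, rfl⟩ := hi
    obtain ⟨j, -, rfl⟩ := hj
    simp only [Function.Embedding.inr_apply, Matrix.fromBlocks_apply₂₂, N, Matrix.sub_apply]
    have h3 : (U' * V) i j = (U * V) i j := by
      rw [Matrix.mul_apply, Matrix.mul_apply]
      refine Finset.sum_congr rfl fun l _ => ?_
      simp [U', hi]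
    rw [h3]
    exact h i hi j

end Pool.Agent.Helper50.VC
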