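import Pool.Agent.Helper50.VC.Minors

set_option autoImplicit false

/-! # Leading monomials with respect to a lexicographic order -/

namespace Pool.Agent.Helper50.VC

open Finset MvPolynomial

section lead

variable {σ K : Type*} [LinearOrder σ] [WellFoundedGT σ] [CommRing K]

/-- `f` has the leading monomial `d`, with coefficient one. -/
def Lead (f : MvPolynomial σ K) (d : σ →₀ ℕ) : Prop :=
  f.coeff d = 1 ∧ ∀ e, f.coeff e ≠ 0 → toLex e ≤ toLex d

/-- All monomials of `f` are smaller than `d`. -/
def Below (f : MvPolynomial σ K) (d : σ →₀ ℕ) : Prop :=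
  ∀ e, f.coeff e ≠ 0 → toLex e < toLex d

theorem Lead.degree [Nontrivial K] {f : MvPolynomial σ K} {d : σ →₀ ℕ} (h : Lead f d) :
    MonomialOrder.lex.degree f = d := by
  have h1 : MonomialOrder.lex.toSyn d ≤ MonomialOrder.lex.toSyn (MonomialOrder.lex.degree f) := by
    apply MonomialOrder.le_degree
    rw [mem_support_iff, h.1]
    exact one_ne_zero
  have h2 : MonomialOrder.lex.toSyn (MonomialOrder.lex.degree f) ≤ MonomialOrder.lex.toSyn d := by
    rw [MonomialOrder.degree_le_iff]
    intro e he
    exact h.2 e (mem_support_iff.1 he)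
  exact MonomialOrder.lex.toSyn.injective (le_antisymm h2 h1)

omit [WellFoundedGT σ] in
theorem lexAdd_le {a b c d : Lex (σ →₀ ℕ)} (h : a ≤ b) (h' : c ≤ d) : a + c ≤ b + d :=
  add_le_add h h'

omit [WellFoundedGT σ] in
theorem lexAdd_lt {a b c d : Lex (σ →₀ ℕ)} (h : a < b) (h' : c ≤ d) : a + c < b + d :=
  add_lt_add_of_lt_of_le h h'

omit [WellFoundedGT σ] in
theorem Lead.mul {f g : MvPolynomial σ K} {d e : σ →₀ ℕ} (hf : Lead f d) (hg : Lead g e) :
    Lead (f * g) (d + e) := by
  classical
  constructor
  · rw [coeff_mul, Finset.sum_eq_single (d, e)]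
    · rw [hf.1, hg.1, one_mul]
    · rintro ⟨p, q⟩ hpq hne
      rw [Finset.HasAntidiagonal.mem_antidiagonal] at hpq
      by_contra hcon
      have h1 : f.coeff p ≠ 0 := left_ne_zero_of_mul hcon
      have h2 : g.coeff q ≠ 0 := right_ne_zero_of_mul hcon
      have h3 := hf.2 p h1
      have h4 := hg.2 q h2
      have h5 : toLex p + toLex q = toLex d + toLex e := by
        rw [← toLex_add, ← toLex_add, hpq]
      rcases h3.lt_or_eq with h3 | h3
      · have := lexAdd_lt h3 h4
        rw [h5] at this
        exact lt_irrefl _ this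
      · have h3' : p = d := toLex.injective h3
        subst h3'
        have h4' : q = e := by
          simpa using hpq
        exact hne (by rw [h4'])
    · intro h
      exfalso
      apply h
      rw [Finset.HasAntidiagonal.mem_antidiagonal]
  · intro c hc
    rw [coeff_mul] at hc
    obtain ⟨⟨p, q⟩, hpq, hne⟩ := Finset.exists_ne_zero_of_sum_ne_zero hc
    rw [Finset.HasAntidiagonal.mem_antidiagonal] at hpq
    have h1 : f.coeff p ≠ 0 := left_ne_zero_of_mul hne
    have h2 : g.coeff q ≠ 0 := right_ne_zero_of_mul hne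
    rw [← hpq, toLex_add, toLex_add]
    exact lexAdd_le (hf.2 p h1) (hg.2 q h2)

omit [WellFoundedGT σ] in
theorem Lead.add_below {f g : MvPolynomial σ K} {d : σ →₀ ℕ} (hf : Lead f d) (hg : Below g d) :
    Lead (f + g) d := by
  constructor
  · rw [coeff_add, hf.1]
    have : g.coeff d = 0 := by
      by_contra h
      exact lt_irrefl _ (hg d h)
    rw [this, add_zero]
  · intro e he
    rw [coeff_add] at he
    by_cases h : f.coeff e = 0
    · rw [h, zero_add] at he
      exact (hg e he).le
    · exact hf.2 e h

omit [WellFoundedGT σ] in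
theorem below_sum {ι : Type*} (s : Finset ι) (f : ι → MvPolynomial σ K) {d : σ →₀ ℕ}
    (h : ∀ i ∈ s, Below (f i) d) : Below (∑ i ∈ s, f i) d := by
  intro e he
  rw [coeff_sum] at he
  obtain ⟨i, hi, hne⟩ := Finset.exists_ne_zero_of_sum_ne_zero he
  exact h i hi e hne

omit [WellFoundedGT σ] in
theorem lead_monomial (d : σ →₀ ℕ) : Lead (monomial d (1 : K)) d := by
  classical
  constructor
  · rw [coeff_monomial, if_pos rfl]
  · intro e he
    rw [coeff_monomial] at he
    split_ifs at he with h
    · rw [h]
    · exact absurd rfl he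

omit [WellFoundedGT σ] in
theorem lead_one : Lead (1 : MvPolynomial σ K) 0 := lead_monomial 0

omit [WellFoundedGT σ] in
theorem lead_prod {ι : Type*} (s : Finset ι) (f : ι → MvPolynomial σ K) (d : ι → σ →₀ ℕ)
    (h : ∀ i ∈ s, Lead (f i) (d i)) : Lead (∏ i ∈ s, f i) (∑ i ∈ s, d i) := by
  classical
  induction s using Finset.induction_on with
  | empty => simpa using lead_one
  | insert a s ha ih =>
    rw [Finset.prod_insert ha, Finset.sum_insert ha]
    exact (h a (Finset.mem_insert_self a s)).mul
      (ih fun i hi => h i (Finset.mem_insert_of_mem hi))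

end lead

section det

variable {σ K : Type*} [LinearOrder σ] [WellFoundedGT σ] [CommRing K] {m t x : ℕ}

/-- The exponent of the product of the `w (a j) (f j)`. -/
noncomputable def wexp (w : Fin m → Fin t → σ) (a : Fin t → Option (Fin m)) (hx : x ≤ t)
    (f : Fin x → Fin t) : σ →₀ ℕ :=
  ∑ j : Fin x, (a (Fin.castLE hx j)).elim 0 fun i => Finsupp.single (w i (f j)) 1

omit [WellFoundedGT σ] in
theorem wexp_lt (w : Fin m → Fin t → σ)
    (hw : ∀ i j i' j', w i j < w i' j' ↔ (i < i' ∨ i = i' ∧ j < j')) (hx : x ≤ t)
    (a : Fin t → Option (Fin m)) (ha : IsInc a) (f : Fin x → Fin t) (hf : Function.Injective f)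
    (hfix : ∀ j : Fin x, a (Fin.castLE hx j) = none → f j = Fin.castLE hx j)
    (hne : f ≠ Fin.castLE hx) :
    ∃ i₀ j₀, (∀ c, c < w i₀ j₀ → wexp w a hx f c = wexp w a hx (Fin.castLE hx) c) ∧
      wexp w a hx f (w i₀ j₀) < wexp w a hx (Fin.castLE hx) (w i₀ j₀) := by
  classical
  -- the smallest index moved by `f`
  have hex : (Finset.univ.filter fun j : Fin x => f j ≠ Fin.castLE hx j).Nonempty := by
    by_contra h
    rw [Finset.not_nonempty_iff_eq_empty, Finset.filter_eq_empty_iff] at h
    apply hne
    funext j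
    by_contra hj
    exact h (Finset.mem_univ j) hj
  obtain ⟨j₀, hj₀, hmin⟩ := Finset.exists_min_image _ (fun j => j) hex
  rw [Finset.mem_filter] at hj₀
  have hmin' : ∀ j : Fin x, j < j₀ → f j = Fin.castLE hx j := by
    intro j hj
    by_contra hcon
    exact absurd (hmin j (by simp [hcon])) (not_le.2 hj)
  have hsome : ∃ i₀, a (Fin.castLE hx j₀) = some i₀ := by
    rcases h : a (Fin.castLE hx j₀) with _ | i₀
    · exact absurd (hfix j₀ h) hj₀.2
    · exact ⟨i₀, rfl⟩
  obtain ⟨i₀, hi₀⟩ := hsome
  have hgt : Fin.castLE hx j₀ < f j₀ := by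
    rcases lt_trichotomy (f j₀) (Fin.castLE hx j₀) with h | h | h
    · exfalso
      have hlt : (f j₀ : ℕ) < x := by
        have := Fin.lt_def.1 h
        simp only [Fin.val_castLE] at this
        omega
      have h1 : (⟨f j₀, hlt⟩ : Fin x) < j₀ := by
        rw [Fin.lt_def]; simpa using Fin.lt_def.1 h
      have h2 := hmin' _ h1
      have h3 : f ⟨f j₀, hlt⟩ = f j₀ := by
        rw [h2]; ext; simp
      exact absurd (hf h3) h1.ne
    · exact absurd h hj₀.2
    · exact h
  have heval : ∀ (g : Fin x → Fin t) (c : σ), wexp w a hx g c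
      = ∑ j : Fin x, (a (Fin.castLE hx j)).elim 0 fun i => if w i (g j) = c then 1 else 0 := by
    intro g c
    unfold wexp
    rw [Finsupp.finsetSum_apply]
    refine Finset.sum_congr rfl fun j _ => ?_
    cases a (Fin.castLE hx j) with
    | none => simp
    | some i => simp [Finsupp.single_apply]
  refine ⟨i₀, Fin.castLE hx j₀, ?_, ?_⟩
  · intro c hc
    rw [heval, heval]
    refine Finset.sum_congr rfl fun j _ => ?_
    rcases hj : a (Fin.castLE hx j) with _ | i
    · rfl
    · simp only [Option.elim_some]
      rcases lt_trichotomy j j₀ with h | h | h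
      · rw [hmin' j h]
      · subst h
        have hii : i = i₀ := by
          rw [hj] at hi₀; exact Option.some.inj hi₀
        subst hii
        rw [if_neg, if_neg]
        · intro h
          rw [h] at hc
          exact lt_irrefl _ hc
        · intro h
          rw [← h, hw] at hc
          rcases hc with hc | hc
          · exact lt_irrefl _ hc
          · exact absurd hc.2 (not_lt.2 hgt.le)
      · have hii : i₀ < i := ha _ _ _ _ hi₀ hj (by rw [Fin.lt_def] at h ⊢; simpa using h)
        rw [if_neg, if_neg]
        · intro h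
          rw [← h, hw] at hc
          rcases hc with hc | hc
          · exact absurd hc (not_lt.2 hii.le)
          · exact absurd hc.1 hii.ne'
        · intro h
          rw [← h, hw] at hc
          rcases hc with hc | hc
          · exact absurd hc (not_lt.2 hii.le)
          · exact absurd hc.1 hii.ne'
  · rw [heval, heval]
    have hwinj : ∀ i j i' j', w i j = w i' j' → i = i' ∧ j = j' := by
      intro i j i' j' h
      have h1 : ¬ (w i j < w i' j') := by rw [h]; exact lt_irrefl _
      have h2 : ¬ (w i' j' < w i j) := by rw [h]; exact lt_irrefl _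
      rw [hw] at h1 h2
      push Not at h1 h2
      have h3 : i = i' := le_antisymm h2.1 h1.1
      exact ⟨h3, le_antisymm (h2.2 h3.symm) (h1.2 h3)⟩
    have h1 : (∑ j : Fin x, (a (Fin.castLE hx j)).elim 0 fun i =>
        if w i (f j) = w i₀ (Fin.castLE hx j₀) then 1 else 0) = 0 := by
      refine Finset.sum_eq_zero fun j _ => ?_
      rcases hj : a (Fin.castLE hx j) with _ | i
      · rfl
      · simp only [Option.elim_some]
        rw [if_neg]
        intro h
        obtain ⟨hii, hjj⟩ := hwinj _ _ _ _ h
        subst hii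
        rcases lt_trichotomy j j₀ with h | h | h
        · exact lt_irrefl _ (ha _ _ _ _ hj hi₀ (by rw [Fin.lt_def] at h ⊢; simpa using h))
        · subst h
          rw [hjj] at hgt
          exact lt_irrefl _ hgt
        · exact lt_irrefl _ (ha _ _ _ _ hi₀ hj (by rw [Fin.lt_def] at h ⊢; simpa using h))
    rw [h1]
    refine Finset.sum_pos' (fun _ _ => Nat.zero_le _) ⟨j₀, Finset.mem_univ _, ?_⟩
    rw [hi₀]
    simp

omit [WellFoundedGT σ] in
/-- Leading monomials of determinants of products. -/
theorem lead_det [Nontrivial K] (w : Fin m → Fin t → σ)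
    (hw : ∀ i j i' j', w i j < w i' j' ↔ (i < i' ∨ i = i' ∧ j < j')) (hx : x ≤ t)
    (a : Fin t → Option (Fin m)) (ha : IsInc a) (B : Matrix (Fin t) (Fin x) (MvPolynomial σ K))
    (T : Set σ) (hT : ∀ c ∈ T, ∀ i j, w i j < c) (hB : ∀ l k, B l k ∈ supported K T)
    (d₀ : σ →₀ ℕ) (hd₀ : Lead (B.submatrix (Fin.castLE hx) id).det d₀) :
    Lead ((rowMat (Matrix.of fun i j => (X (w i j) : MvPolynomial σ K)) a).submatrix
      (Fin.castLE hx) id * B).det (wexp w a hx (Fin.castLE hx) + d₀) := by
  classical
  -- polynomials in the variables of `T`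
  have hdet : ∀ f : Fin x → Fin t, (B.submatrix f id).det ∈ supported K T := by
    intro f
    rw [Matrix.det_apply]
    refine Subalgebra.sum_mem _ fun σ' _ => ?_
    have : (∏ i, (B.submatrix f id) (σ' i) i) ∈ supported K T :=
      Subalgebra.prod_mem _ fun i _ => hB _ _
    rcases Int.units_eq_one_or (Equiv.Perm.sign σ') with h | h
    · rw [h, one_smul]; exact this
    · rw [h, Units.neg_smul, one_smul]; exact Subalgebra.neg_mem _ this
  have hsupp : ∀ (q : MvPolynomial σ K), q ∈ supported K T → ∀ e, q.coeff e ≠ 0 →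
      ∀ c, c ∉ T → e c = 0 := by
    intro q hq e he c hc
    rw [mem_supported] at hq
    by_contra hne
    apply hc
    apply hq
    rw [Finset.mem_coe, mem_vars_iff_mem_support]
    exact ⟨e, mem_support_iff.2 he, Finsupp.mem_support_iff.2 hne⟩
  have hd₀T : ∀ c, c ∉ T → d₀ c = 0 := hsupp _ (hdet _) _ (by rw [hd₀.1]; exact one_ne_zero)
  set L := rowMat (Matrix.of fun i j => (X (w i j) : MvPolynomial σ K)) a with hL
  rw [det_mul_expand, ← Finset.add_sum_erase _ _ (Finset.mem_univ (Fin.castLE hx))]
  refine Lead.add_below ?_ ?_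
  · refine Lead.mul ?_ hd₀
    have h1 : (∏ j : Fin x, (L.submatrix (Fin.castLE hx) id) j (Fin.castLE hx j))
        = monomial (wexp w a hx (Fin.castLE hx)) 1 := by
      unfold wexp
      rw [monomial_sum_one]
      refine Finset.prod_congr rfl fun j _ => ?_
      rw [Matrix.submatrix_apply, id]
      rcases hj : a (Fin.castLE hx j) with _ | i
      · rw [hL, rowMat_none hj, if_pos rfl]
        rfl
      · rw [hL, rowMat_some hj]
        rfl
    rw [h1]
    exact lead_monomial _
  · refine below_sum _ _ fun f hf => ?_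
    rw [Finset.mem_erase] at hf
    intro e he
    -- the factor from the rows of `L`
    have hfix : ∀ j : Fin x, a (Fin.castLE hx j) = none → f j = Fin.castLE hx j := by
      intro j hj
      by_contra hne
      apply he
      rw [Finset.prod_eq_zero (Finset.mem_univ j), zero_mul, coeff_zero]
      rw [Matrix.submatrix_apply, id, hL, rowMat_none hj, if_neg]
      exact fun h => hne h.symm
    have hinj : Function.Injective f := by
      intro j j' hjj
      by_contra hne
      apply he
      rw [Matrix.det_zero_of_row_eq hne, mul_zero, coeff_zero]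
      funext k
      simp [Matrix.submatrix_apply, hjj]
    have h1 : (∏ j : Fin x, (L.submatrix (Fin.castLE hx) id) j (f j))
        = monomial (wexp w a hx f) 1 := by
      unfold wexp
      rw [monomial_sum_one]
      refine Finset.prod_congr rfl fun j _ => ?_
      rw [Matrix.submatrix_apply, id]
      rcases hj : a (Fin.castLE hx j) with _ | i
      · rw [hL, rowMat_none hj, if_pos (hfix j hj).symm]
        rfl
      · rw [hL, rowMat_some hj]
        rfl
    rw [h1, coeff_monomial_mul', one_mul] at he
    split_ifs at he with hle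
    · obtain ⟨i₀, j₀, hlt, hlt₀⟩ := wexp_lt w hw hx a ha f hinj hfix hf.1
      have hq := hsupp _ (hdet f) _ he
      have hval : ∀ c, e c = wexp w a hx f c + (e - wexp w a hx f) c := by
        intro c
        have := hle c
        simp only [Finsupp.coe_tsub, Pi.sub_apply]
        omega
      have hnT : ∀ c, c ≤ w i₀ j₀ → c ∉ T := fun c hc hcT =>
        absurd (hT c hcT i₀ j₀) (not_lt.2 hc)
      rw [Finsupp.Lex.lt_iff]
      refine ⟨w i₀ j₀, ?_, ?_⟩
      · intro c hc
        simp only [ofLex_toLex]
        rw [hval, Finsupp.add_apply, hlt c hc, hq c (hnT c hc.le), hd₀T c (hnT c hc.le)]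
      · simp only [ofLex_toLex]
        rw [hval, Finsupp.add_apply, hq _ (hnT _ le_rfl), hd₀T _ (hnT _ le_rfl)]
        simpa using hlt₀
    · exact absurd rfl he

end det

end Pool.Agent.Helper50.VC
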