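import Pool.Agent.Helper50.VC.Order
import Pool.Agent.Helper50.VC.Lead

set_option autoImplicit false

/-! # Explicit elements of the symbolic powers with given leading monomials -/

namespace Pool.Agent.Helper50.VC

open Finset MvPolynomial Var

variable {m t n : ℕ}

section wexp

variable {σ : Type*} [LinearOrder σ] {x : ℕ}

theorem wexp_apply (w : Fin m → Fin t → σ) (hw : ∀ i j i' j', w i j = w i' j' → i = i' ∧ j = j')
    (a : Fin t → Option (Fin m)) (hx : x ≤ t) (i : Fin m) (j : Fin t) :
    wexp w a hx (Fin.castLE hx) (w i j) = if (j : ℕ) < x ∧ a j = some i then 1 else 0 := by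
  classical
  unfold wexp
  rw [Finsupp.finsetSum_apply]
  split_ifs with h
  · rw [Finset.sum_eq_single (⟨j, h.1⟩ : Fin x)]
    · have h1 : Fin.castLE hx ⟨j, h.1⟩ = j := by ext; simp
      rw [h1, h.2]
      simp
    · intro j' _ hne
      rcases hj : a (Fin.castLE hx j') with _ | i'
      · simp
      · simp only [Option.elim_some]
        rw [Finsupp.single_apply, if_neg]
        intro h2
        apply hne
        have := (hw _ _ _ _ h2).2
        ext
        simpa using congrArg Fin.val this
    · intro h1
      exact absurd (Finset.mem_univ _) h1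
  · refine Finset.sum_eq_zero fun j' _ => ?_
    rcases hj : a (Fin.castLE hx j') with _ | i'
    · simp
    · simp only [Option.elim_some]
      rw [Finsupp.single_apply, if_neg]
      intro h2
      obtain ⟨rfl, h3⟩ := hw _ _ _ _ h2
      apply h
      rw [← h3]
      exact ⟨by simp, hj⟩

theorem wexp_apply_of_notMem (w : Fin m → Fin t → σ) (a : Fin t → Option (Fin m)) (hx : x ≤ t)
    (c : σ) (hc : ∀ i j, w i j ≠ c) : wexp w a hx (Fin.castLE hx) c = 0 := by
  classical
  unfold wexp
  rw [Finsupp.finsetSum_apply]
  refine Finset.sum_eq_zero fun j' _ => ?_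
  rcases hj : a (Fin.castLE hx j') with _ | i'
  · simp
  · simp only [Option.elim_some]
    rw [Finsupp.single_apply, if_neg (hc _ _)]

end wexp

section chainFun

variable (D : Finset (Var m t n))

open Classical in
/-- The row function of the entries of `Y` in a chain. -/
noncomputable def rowOf (j : Fin t) : Option (Fin m) :=
  if h : ∃ i, y i j ∈ D then some h.choose else none

open Classical in
/-- The column function of the entries of `Z` in a chain. -/
noncomputable def colOf (j : Fin t) : Option (Fin n) :=
  if h : ∃ k, z j k ∈ D then some h.choose else none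

variable {D}

theorem rowOf_eq_some (hD : VChain D) {i : Fin m} {j : Fin t} :
    rowOf D j = some i ↔ y i j ∈ D := by
  unfold rowOf
  split_ifs with h
  · constructor
    · intro h1
      rw [Option.some.injEq] at h1
      rw [← h1]
      exact h.choose_spec
    · intro h1
      rw [Option.some.injEq]
      have h2 := hD.yy h.choose_spec h1
      rcases h2 with h2 | h2 | h2
      · exact h2.1
      · exact absurd h2.2 (lt_irrefl _)
      · exact absurd h2.2 (lt_irrefl _)
  · constructor
    · intro h1
      cases h1
    · intro h1
      exact absurd ⟨i, h1⟩ h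

theorem colOf_eq_some (hD : VChain D) {k : Fin n} {j : Fin t} :
    colOf D j = some k ↔ z j k ∈ D := by
  unfold colOf
  split_ifs with h
  · constructor
    · intro h1
      rw [Option.some.injEq] at h1
      rw [← h1]
      exact h.choose_spec
    · intro h1
      rw [Option.some.injEq]
      have h2 := hD.zz h.choose_spec h1
      rcases h2 with h2 | h2 | h2
      · exact h2.1
      · exact absurd h2.2 (lt_irrefl _)
      · exact absurd h2.2 (lt_irrefl _)
  · constructor
    · intro h1
      cases h1
    · intro h1
      exact absurd ⟨k, h1⟩ h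

theorem isInc_rowOf (hD : VChain D) : IsInc (rowOf D) := by
  intro j j' i i' h h' hjj
  rw [rowOf_eq_some hD] at h h'
  rcases hD.yy h h' with h2 | h2 | h2
  · exact absurd h2.2 hjj.ne
  · exact h2.1
  · exact absurd h2.2 hjj.not_gt

theorem isInc_colOf (hD : VChain D) : IsInc (colOf D) := by
  intro j j' i i' h h' hjj
  rw [colOf_eq_some hD] at h h'
  rcases hD.zz h h' with h2 | h2 | h2
  · exact absurd h2.2 hjj.ne
  · exact h2.1
  · exact absurd h2.2 hjj.not_gt

theorem card_dom_rowOf (hD : VChain D) :
    (dom (rowOf D)).card = (D.filter fun c => isY c = true).card := by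
  classical
  have hcol : ∀ c : Var m t n, col c < t := by
    intro c
    cases c with
    | y i j => exact j.2
    | z j k => exact j.2
  symm
  refine Finset.card_bij (fun c _ => (⟨col c, hcol c⟩ : Fin t)) ?_ ?_ ?_
  · intro c hc
    rw [Finset.mem_filter] at hc
    cases c with
    | y i j =>
      rw [mem_dom]
      have : rowOf D j = some i := (rowOf_eq_some hD).2 hc.1
      simp [col, this]
    | z j k => exact absurd hc.2 (by simp [isY])
  · intro c hc c' hc' h
    rw [Finset.mem_filter] at hc hc'
    cases c with
    | y i j =>
      cases c' with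
      | y i' j' =>
        simp only [col, Fin.mk.injEq, Fin.val_inj] at h
        subst h
        rcases hD.yy hc.1 hc'.1 with h2 | h2 | h2
        · rw [h2.1]
        · exact absurd h2.2 (lt_irrefl _)
        · exact absurd h2.2 (lt_irrefl _)
      | z j k => exact absurd hc'.2 (by simp [isY])
    | z j k => exact absurd hc.2 (by simp [isY])
  · intro j hj
    rw [mem_dom, Option.isSome_iff_exists] at hj
    obtain ⟨i, hi⟩ := hj
    refine ⟨y i j, ?_, ?_⟩
    · rw [Finset.mem_filter]
      exact ⟨(rowOf_eq_some hD).1 hi, rfl⟩
    · simp [col]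

theorem card_dom_colOf (hD : VChain D) :
    (dom (colOf D)).card = (D.filter fun c => isY c = false).card := by
  classical
  have hcol : ∀ c : Var m t n, col c < t := by
    intro c
    cases c with
    | y i j => exact j.2
    | z j k => exact j.2
  symm
  refine Finset.card_bij (fun c _ => (⟨col c, hcol c⟩ : Fin t)) ?_ ?_ ?_
  · intro c hc
    rw [Finset.mem_filter] at hc
    cases c with
    | y i j => exact absurd hc.2 (by simp [isY])
    | z j k =>
      rw [mem_dom]
      have : colOf D j = some k := (colOf_eq_some hD).2 hc.1
      simp [col, this]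
  · intro c hc c' hc' h
    rw [Finset.mem_filter] at hc hc'
    cases c with
    | y i j => exact absurd hc.2 (by simp [isY])
    | z j k =>
      cases c' with
      | y i' j' => exact absurd hc'.2 (by simp [isY])
      | z j' k' =>
        simp only [col, Fin.mk.injEq, Fin.val_inj] at h
        subst h
        rcases hD.zz hc.1 hc'.1 with h2 | h2 | h2
        · rw [h2.1]
        · exact absurd h2.2 (lt_irrefl _)
        · exact absurd h2.2 (lt_irrefl _)
  · intro j hj
    rw [mem_dom, Option.isSome_iff_exists] at hj
    obtain ⟨k, hk⟩ := hj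
    refine ⟨z j k, ?_, ?_⟩
    · rw [Finset.mem_filter]
      exact ⟨(colOf_eq_some hD).1 hk, rfl⟩
    · simp [col]

theorem wexp_add_eq (hD : VChain D) {x : ℕ} (hx : x ≤ t) (hDx : ∀ c ∈ D, col c < x) :
    wexp (fun i j => (y i j : Var m t n)) (rowOf D) hx (Fin.castLE hx) +
      wexp (fun k j => (z j k : Var m t n)) (colOf D) hx (Fin.castLE hx) =
      ∑ c ∈ D, Finsupp.single c 1 := by
  classical
  ext c
  have hsum : (∑ c ∈ D, Finsupp.single c 1 : Var m t n →₀ ℕ) c = if c ∈ D then 1 else 0 := by
    rw [Finsupp.finsetSum_apply]
    simp [Finsupp.single_apply]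
  rw [hsum, Finsupp.add_apply]
  cases c with
  | y i j =>
    rw [wexp_apply (fun i j => (y i j : Var m t n)) (by
        intro i j i' j' h
        simpa using h),
      wexp_apply_of_notMem (fun k j => (z j k : Var m t n)) _ _ _ (by simp), add_zero]
    congr 1
    rw [rowOf_eq_some hD, eq_iff_iff]
    constructor
    · exact fun h => h.2
    · exact fun h => ⟨hDx _ h, h⟩
  | z j k =>
    rw [wexp_apply (fun k j => (z j k : Var m t n)) (by
        intro i j i' j' h
        simpa [and_comm] using h),
      wexp_apply_of_notMem (fun i j => (y i j : Var m t n)) _ _ _ (by simp), zero_add]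
    congr 1
    rw [colOf_eq_some hD, eq_iff_iff]
    constructor
    · exact fun h => h.2
    · exact fun h => ⟨hDx _ h, h⟩

end chainFun

section lead

variable (K : Type*) [Field K]

theorem lead_block {p x : ℕ} (w : Fin p → Fin t → Var m t n)
    (hw : ∀ i j i' j', w i j < w i' j' ↔ (i < i' ∨ i = i' ∧ j < j')) (hx : x ≤ t)
    (a : Fin t → Option (Fin p)) (ha : IsInc a) :
    Lead ((rowMat (Matrix.of fun i j => (X (w i j) : MvPolynomial (Var m t n) K)) a).submatrix
      (Fin.castLE hx) (Fin.castLE hx)).det (wexp w a hx (Fin.castLE hx)) := by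
  classical
  have h := lead_det (K := K) w hw hx a ha
    ((1 : Matrix (Fin t) (Fin t) (MvPolynomial (Var m t n) K)).submatrix id (Fin.castLE hx))
    ∅ (by simp) ?_ 0 ?_
  · rw [add_zero] at h
    have e : (rowMat (Matrix.of fun i j => (X (w i j) : MvPolynomial (Var m t n) K)) a).submatrix
      (Fin.castLE hx) id * (1 : Matrix (Fin t) (Fin t) (MvPolynomial (Var m t n) K)).submatrix
        id (Fin.castLE hx) =
        (rowMat (Matrix.of fun i j => (X (w i j) : MvPolynomial (Var m t n) K)) a).submatrix
      (Fin.castLE hx) (Fin.castLE hx) := by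
      rw [← Matrix.submatrix_mul _ _ _ _ _ Function.bijective_id, Matrix.mul_one]
    rwa [e] at h
  · intro l k
    rw [Matrix.submatrix_apply, Matrix.one_apply]
    split_ifs
    · exact Subalgebra.one_mem _
    · exact Subalgebra.zero_mem _
  · have e : (((1 : Matrix (Fin t) (Fin t) (MvPolynomial (Var m t n) K)).submatrix id
        (Fin.castLE hx)).submatrix (Fin.castLE hx) id) = 1 := by
      rw [Matrix.submatrix_submatrix]
      exact Matrix.submatrix_one _ (Fin.castLE_injective hx)
    rw [e, Matrix.det_one]
    exact lead_one

/-- The transpose of `Z`, as a matrix of variables. -/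
theorem matZ_transpose : (matZ K m t n).transpose =
    Matrix.of fun k j => (X (z j k) : MvPolynomial (Var m t n) K) := rfl

/-- The contraction element. -/
noncomputable def contr (a : Fin t → Option (Fin m)) (b : Fin t → Option (Fin n)) {x : ℕ}
    (hx : x ≤ t) : MvPolynomial (Var m t n) K :=
  (((rowMat (matY K m t n) a).submatrix (Fin.castLE hx) id) *
    ((rowMat (matZ K m t n).transpose b).transpose.submatrix id (Fin.castLE hx))).det

theorem lead_contr (a : Fin t → Option (Fin m)) (ha : IsInc a) (b : Fin t → Option (Fin n))
    (hb : IsInc b) {x : ℕ} (hx : x ≤ t) :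
    Lead (contr K a b hx) (wexp (fun i j => (y i j : Var m t n)) a hx (Fin.castLE hx) +
      wexp (fun k j => (z j k : Var m t n)) b hx (Fin.castLE hx)) := by
  classical
  unfold contr
  refine lead_det (K := K) (fun i j => (y i j : Var m t n)) (fun i j i' j' => y_lt_y) hx a ha _
    {c | isY c = false} ?_ ?_ _ ?_
  · intro c hc i j
    cases c with
    | y i j => exact absurd hc (by simp [isY])
    | z j k => exact y_lt_z
  · intro l k
    rw [Matrix.submatrix_apply, Matrix.transpose_apply]
    rcases hk : b (Fin.castLE hx k) with _ | i
    · rw [rowMat_none hk]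
      split_ifs
      · exact Subalgebra.one_mem _
      · exact Subalgebra.zero_mem _
    · rw [rowMat_some hk]
      exact X_mem_supported.2 (by simp [isY])
  · have h := lead_block K (fun k j => (z j k : Var m t n)) (fun i j i' j' => z_lt_z) hx b hb
    rw [← Matrix.det_transpose]
    exact h

theorem lead_minorY (a : Fin t → Option (Fin m)) (ha : IsInc a) :
    Lead (rowMat (matY K m t n) a).det
      (wexp (fun i j => (y i j : Var m t n)) a le_rfl (Fin.castLE le_rfl)) := by
  have h := lead_block K (fun i j => (y i j : Var m t n)) (fun i j i' j' => y_lt_y) le_rfl a ha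
  exact h

theorem lead_minorZ (b : Fin t → Option (Fin n)) (hb : IsInc b) :
    Lead (rowMat (matZ K m t n).transpose b).det
      (wexp (fun k j => (z j k : Var m t n)) b le_rfl (Fin.castLE le_rfl)) := by
  have h := lead_block K (fun k j => (z j k : Var m t n)) (fun i j i' j' => z_lt_z) le_rfl b hb
  exact h

theorem contr_mem (a : Fin t → Option (Fin m)) (b : Fin t → Option (Fin n)) {x : ℕ}
    (hx : x ≤ t) (hax : ∀ j ∈ dom a, (j : ℕ) < x) (hbx : ∀ j ∈ dom b, (j : ℕ) < x) :
    contr K a b hx ∈
      (minorsIdeal 1 (matY K m t n * matZ K m t n)) ^ ((dom a).card + (dom b).card - x) := by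
  classical
  unfold contr
  have hcard : ∀ {p : ℕ} (a : Fin t → Option (Fin p)), (∀ j ∈ dom a, (j : ℕ) < x) →
      ((Finset.univ : Finset (Fin x)).filter fun j => (a (Fin.castLE hx j)).isSome).card
        = (dom a).card := by
    intro p a hax
    refine Finset.card_bij (fun j _ => Fin.castLE hx j) ?_ ?_ ?_
    · intro j hj
      rw [Finset.mem_filter] at hj
      rw [mem_dom]
      exact hj.2
    · intro j _ j' _ h
      exact Fin.castLE_injective hx h
    · intro j hj
      refine ⟨⟨j, hax j hj⟩, ?_, by ext; simp⟩
      rw [Finset.mem_filter]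
      refine ⟨Finset.mem_univ _, ?_⟩
      have : Fin.castLE hx ⟨j, hax j hj⟩ = j := by ext; simp
      rw [this]
      exact mem_dom.1 hj
  have h := det_mem_pow (minorsIdeal 1 (matY K m t n * matZ K m t n))
    (((rowMat (matY K m t n) a).submatrix (Fin.castLE hx) id) *
      ((rowMat (matZ K m t n).transpose b).transpose.submatrix id (Fin.castLE hx)))
    ((Finset.univ : Finset (Fin x)).filter fun j => (a (Fin.castLE hx j)).isSome)
    ((Finset.univ : Finset (Fin x)).filter fun j => (b (Fin.castLE hx j)).isSome) ?_
  · rw [hcard a hax, hcard b hbx, Fintype.card_fin] at h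
    exact h
  · intro j hj j' hj'
    rw [Finset.mem_filter] at hj hj'
    obtain ⟨i, hi⟩ := Option.isSome_iff_exists.1 hj.2
    obtain ⟨k, hk⟩ := Option.isSome_iff_exists.1 hj'.2
    have e : (((rowMat (matY K m t n) a).submatrix (Fin.castLE hx) id) *
      ((rowMat (matZ K m t n).transpose b).transpose.submatrix id (Fin.castLE hx))) j j' =
        (matY K m t n * matZ K m t n) i k := by
      rw [Matrix.mul_apply, Matrix.mul_apply]
      refine Finset.sum_congr rfl fun l _ => ?_
      rw [Matrix.submatrix_apply, Matrix.submatrix_apply, Matrix.transpose_apply,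
        rowMat_some hi, rowMat_some hk]
      rfl
    rw [e]
    have h1 := det_submatrix_mem (matY K m t n * matZ K m t n) (k := 1) (fun _ => i) (fun _ => k)
    rwa [Matrix.det_fin_one, Matrix.submatrix_apply] at h1

end lead

section element

variable (K : Type*) [Field K]

/-- For each chain `D` there is an element with leading monomial the product of `D`, which is in the
symbolic power of exponent `val r s D` of each prime ideal which is good for `r` and `s`, and in
the ideal `complexIdeal K m t n r s` if `val r s D ≥ 1`. -/
theorem exists_element (r s : ℕ) (D : Finset (Var m t n)) (hD : VChain D) :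
    ∃ g : MvPolynomial (Var m t n) K, Lead g (∑ c ∈ D, Finsupp.single c 1) ∧
      (1 ≤ val r s D → g ∈ complexIdeal K m t n r s) ∧
      ∀ (P : Ideal (MvPolynomial (Var m t n) K)) [P.IsPrime], complexIdeal K m t n r s ≤ P →
        (r ≤ m → ∃ (f : Fin r → Fin m) (g : Fin r → Fin t),
          ((matY K m t n).submatrix f g).det ∉ P) →
        (s ≤ n → ∃ (f : Fin s → Fin n) (g : Fin s → Fin t),
          ((matZ K m t n).transpose.submatrix f g).det ∉ P) →
        g ∈ symbolicPower P (val r s D) := by
  classical
  have hcol : ∀ c : Var m t n, col c < t := by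
    intro c
    cases c with
    | y i j => exact j.2
    | z j k => exact j.2
  have hle1 : minorsIdeal (r + 1) (matY K m t n) ≤ complexIdeal K m t n r s :=
    le_sup_left.trans le_sup_left
  have hle2 : minorsIdeal (s + 1) (matZ K m t n) ≤ complexIdeal K m t n r s :=
    le_sup_right.trans le_sup_left
  have hle3 : minorsIdeal 1 (matY K m t n * matZ K m t n) ≤ complexIdeal K m t n r s :=
    le_sup_right
  have hcA := card_dom_rowOf hD
  have hcB := card_dom_colOf hD
  have hsplit : D.card = (D.filter fun c => isY c = true).card +
      (D.filter fun c => isY c = false).card := by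
    rw [← Finset.card_filter_add_card_filter_not (s := D) (p := fun c => isY c = true)]
    congr 2
    ext c
    simp
  rcases le_total (D.card - D.sup fun c => col c + 1)
    (((D.filter fun c => isY c = true).card - r) + ((D.filter fun c => isY c = false).card - s))
    with hval | hval
  · -- the product of minors
    have hv : val r s D = ((D.filter fun c => isY c = true).card - r) +
        ((D.filter fun c => isY c = false).card - s) := max_eq_left hval
    refine ⟨(rowMat (matY K m t n) (rowOf D)).det * (rowMat (matZ K m t n).transpose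
      (colOf D)).det, ?_, ?_, ?_⟩
    · rw [← wexp_add_eq hD le_rfl (fun c _ => hcol c)]
      exact (lead_minorY K _ (isInc_rowOf hD)).mul (lead_minorZ K _ (isInc_colOf hD))
    · intro h1
      rw [hv] at h1
      by_cases h2 : r + 1 ≤ (D.filter fun c => isY c = true).card
      · refine Ideal.mul_mem_right _ _ (hle1 (minorsIdeal_anti _ h2 ?_))
        rw [← hcA]
        exact det_rowMat_mem _ _
      · have h3 : s + 1 ≤ (D.filter fun c => isY c = false).card := by omega
        refine Ideal.mul_mem_left _ _ (hle2 (minorsIdeal_anti _ h3 ?_))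
        rw [← hcB, ← minorsIdeal_transpose]
        exact det_rowMat_mem _ _
    · intro P _ hP hY hZ
      rw [hv]
      refine mul_mem_symbolicPower P ?_ ?_
      · rw [← hcA]
        by_cases hrm : r ≤ m
        · obtain ⟨f, g, hfg⟩ := hY hrm
          exact det_rowMat_mem_symbolicPower P _ (hle1.trans hP) f g hfg _
        · have := (isInc_rowOf hD).card_le
          have h0 : (dom (rowOf D)).card - r = 0 := by omega
          rw [h0, symbolicPower_zero]
          trivial
      · rw [← hcB]
        by_cases hsn : s ≤ n
        · obtain ⟨f, g, hfg⟩ := hZ hsn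
          refine det_rowMat_mem_symbolicPower P _ ?_ f g hfg _
          rw [minorsIdeal_transpose]
          exact hle2.trans hP
        · have := (isInc_colOf hD).card_le
          have h0 : (dom (colOf D)).card - s = 0 := by omega
          rw [h0, symbolicPower_zero]
          trivial
  · -- the contraction
    have hv : val r s D = D.card - D.sup fun c => col c + 1 := max_eq_right hval
    have hx : (D.sup fun c => col c + 1) ≤ t := by
      refine Finset.sup_le fun c _ => hcol c
    have hDx : ∀ c ∈ D, col c < D.sup fun c => col c + 1 := by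
      intro c hc
      exact Nat.lt_of_succ_le (Finset.le_sup (f := fun c => col c + 1) hc)
    have hmem := contr_mem K (rowOf D) (colOf D) hx (by
        intro j hj
        obtain ⟨i, hi⟩ := Option.isSome_iff_exists.1 (mem_dom.1 hj)
        exact hDx _ ((rowOf_eq_some hD).1 hi)) (by
        intro j hj
        obtain ⟨i, hi⟩ := Option.isSome_iff_exists.1 (mem_dom.1 hj)
        exact hDx _ ((colOf_eq_some hD).1 hi))
    rw [hcA, hcB, ← hsplit, ← hv] at hmem
    refine ⟨contr K (rowOf D) (colOf D) hx, ?_, ?_, ?_⟩
    · rw [← wexp_add_eq hD hx hDx]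
      exact lead_contr K _ (isInc_rowOf hD) _ (isInc_colOf hD) hx
    · intro h1
      exact hle3 (Ideal.pow_le_self (by omega) hmem)
    · intro P _ hP _ _
      exact pow_le_symbolicPower P _ (Ideal.pow_right_mono (hle3.trans hP) _ hmem)

end element

end Pool.Agent.Helper50.VC
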