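import Pool.Agent.Helper50.VC.Minors

set_option autoImplicit false

/-! # The parametrization of the variety of complexes -/

namespace Pool.Agent.Helper50.VC

open Finset MvPolynomial

variable (K : Type*) [Field K] (m t n r s : ℕ)

/-- The parameters. -/
abbrev GVar (m t n : ℕ) : Type := (Fin m × Fin t) ⊕ ((Fin t × Fin t) ⊕ (Fin n × Fin t))

/-- The first factor. -/
noncomputable def gA : Matrix (Fin m) (Fin t) (MvPolynomial (GVar m t n) K) :=
  Matrix.of fun i l => if (l : ℕ) < r then X (Sum.inl (i, l)) else 0

/-- The middle factor. -/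
noncomputable def gG : Matrix (Fin t) (Fin t) (MvPolynomial (GVar m t n) K) :=
  Matrix.of fun l j => X (Sum.inr (Sum.inl (l, j)))

/-- The last factor. -/
noncomputable def gB : Matrix (Fin n) (Fin t) (MvPolynomial (GVar m t n) K) :=
  Matrix.of fun k l => if r ≤ (l : ℕ) ∧ (l : ℕ) < r + s then X (Sum.inr (Sum.inr (k, l))) else 0

/-- The parametrization. -/
noncomputable def param : MvPolynomial (Var m t n) K →ₐ[K] MvPolynomial (GVar m t n) K :=
  aeval fun
    | Var.y i j => (gA K m t n r * gG K m t n) i j
    | Var.z j k => (gB K m t n r s * (gG K m t n).adjugate.transpose) k j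

/-- The ideal of the image of the parametrization. -/
noncomputable def paramIdeal : Ideal (MvPolynomial (Var m t n) K) :=
  RingHom.ker (param K m t n r s).toRingHom

instance : (paramIdeal K m t n r s).IsPrime := RingHom.ker_isPrime _

theorem mem_paramIdeal {f : MvPolynomial (Var m t n) K} :
    f ∈ paramIdeal K m t n r s ↔ param K m t n r s f = 0 := Iff.rfl

theorem param_matY : (matY K m t n).map (param K m t n r s) = gA K m t n r * gG K m t n := by
  ext i j
  rw [Matrix.map_apply, matY, Matrix.of_apply, param, aeval_X]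

theorem param_matZ : (matZ K m t n).transpose.map (param K m t n r s) =
    gB K m t n r s * (gG K m t n).adjugate.transpose := by
  ext i j
  rw [Matrix.map_apply, Matrix.transpose_apply, matZ, Matrix.of_apply, param, aeval_X]

theorem card_fin_lt (t r : ℕ) : ((Finset.univ : Finset (Fin t)).filter fun l : Fin t => (l : ℕ) < r).card
    ≤ r := by
  have := Finset.card_le_card_of_injOn
    (s := (Finset.univ : Finset (Fin t)).filter fun l : Fin t => (l : ℕ) < r) (t := Finset.range r)
    (fun e => (e : ℕ)) (fun e he => by simpa using he) (fun e _ e' _ h => Fin.ext h)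
  simpa using this

theorem card_fin_Ico (t r s : ℕ) :
    ((Finset.univ : Finset (Fin t)).filter fun l : Fin t => r ≤ (l : ℕ) ∧ (l : ℕ) < r + s).card ≤ s := by
  have := Finset.card_le_card_of_injOn
    (s := (Finset.univ : Finset (Fin t)).filter fun l : Fin t => r ≤ (l : ℕ) ∧ (l : ℕ) < r + s)
    (t := Finset.Ico r (r + s))
    (fun e => (e : ℕ)) (fun e he => by simpa using he) (fun e _ e' _ h => Fin.ext h)
  simpa using this

theorem complexIdeal_le_paramIdeal : complexIdeal K m t n r s ≤ paramIdeal K m t n r s := by
  classical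
  unfold complexIdeal
  refine sup_le (sup_le ?_ ?_) ?_
  · unfold minorsIdeal
    rw [Ideal.span_le]
    rintro x ⟨f, g, rfl⟩
    rw [SetLike.mem_coe, mem_paramIdeal]
    have h1 : param K m t n r s ((matY K m t n).submatrix f g).det =
        ((gA K m t n r).submatrix f id * (gG K m t n).submatrix id g).det := by
      rw [AlgHom.map_det, AlgHom.mapMatrix_apply, ← Matrix.submatrix_map, param_matY,
        Matrix.submatrix_mul _ _ _ id _ Function.bijective_id]
    rw [h1]
    refine det_mul_eq_zero _ _ ((Finset.univ : Finset (Fin t)).filter fun l : Fin t => (l : ℕ) < r) ?_ ?_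
    · intro j l hl
      simp only [Finset.mem_filter, Finset.mem_univ, true_and] at hl
      simp [gA, hl]
    · rw [Fintype.card_fin]
      exact Nat.lt_succ_of_le (card_fin_lt t r)
  · rw [← minorsIdeal_transpose]
    unfold minorsIdeal
    rw [Ideal.span_le]
    rintro x ⟨f, g, rfl⟩
    rw [SetLike.mem_coe, mem_paramIdeal]
    have h1 : param K m t n r s ((matZ K m t n).transpose.submatrix f g).det =
        ((gB K m t n r s).submatrix f id *
          (gG K m t n).adjugate.transpose.submatrix id g).det := by
      rw [AlgHom.map_det, AlgHom.mapMatrix_apply, ← Matrix.submatrix_map, param_matZ,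
        Matrix.submatrix_mul _ _ _ id _ Function.bijective_id]
    rw [h1]
    refine det_mul_eq_zero _ _
      ((Finset.univ : Finset (Fin t)).filter fun l : Fin t => r ≤ (l : ℕ) ∧ (l : ℕ) < r + s) ?_ ?_
    · intro j l hl
      simp only [Finset.mem_filter, Finset.mem_univ, true_and] at hl
      simp only [gB, Matrix.submatrix_apply, Matrix.of_apply, id]
      rw [if_neg hl]
    · rw [Fintype.card_fin]
      exact Nat.lt_succ_of_le (card_fin_Ico t r s)
  · unfold minorsIdeal
    rw [Ideal.span_le]
    rintro x ⟨f, g, rfl⟩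
    rw [SetLike.mem_coe, mem_paramIdeal]
    rw [Matrix.det_fin_one, Matrix.submatrix_apply]
    have h1 : ((matY K m t n * matZ K m t n).map (param K m t n r s)) = 0 := by
      have h2 : (matZ K m t n).map (param K m t n r s) =
          (gB K m t n r s * (gG K m t n).adjugate.transpose).transpose := by
        rw [← param_matZ]
        rfl
      have h3 : (matY K m t n * matZ K m t n).map (param K m t n r s) =
          (matY K m t n).map (param K m t n r s) * (matZ K m t n).map (param K m t n r s) :=
        Matrix.map_mul (f := (param K m t n r s).toRingHom)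
      rw [h3, param_matY, h2, Matrix.transpose_mul, Matrix.transpose_transpose, Matrix.mul_assoc,
        ← Matrix.mul_assoc (gG K m t n), Matrix.mul_adjugate, Matrix.smul_mul, Matrix.one_mul,
        Matrix.mul_smul]
      have h4 : gA K m t n r * (gB K m t n r s).transpose = 0 := by
        refine Matrix.ext fun i k => ?_
        rw [Matrix.mul_apply, Matrix.zero_apply]
        refine Finset.sum_eq_zero fun l _ => ?_
        rw [Matrix.transpose_apply]
        simp only [gA, gB, Matrix.of_apply]
        by_cases hl : (l : ℕ) < r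
        · have hl' : ¬ (r ≤ (l : ℕ) ∧ (l : ℕ) < r + s) := by omega
          rw [if_neg hl', mul_zero]
        · rw [if_neg hl, zero_mul]
      rw [h4, smul_zero]
    exact congrFun (congrFun h1 _) _

variable {K m t n r s}

theorem exists_perm {t r s : ℕ} (P Q : Finset (Fin t)) (hPQ : Disjoint P Q) (hP : P.card ≤ r)
    (hQ : Q.card ≤ s) (hrs : r + s ≤ t) :
    ∃ π : Equiv.Perm (Fin t), (∀ l ∈ P, (π l : ℕ) < r) ∧
      ∀ l ∈ Q, r ≤ (π l : ℕ) ∧ (π l : ℕ) < r + s := by
  classical
  let f : P ⊕ Q → Fin t := Sum.elim (fun x => x) (fun x => x)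
  let g : P ⊕ Q → Fin t := Sum.elim (fun x => ⟨P.equivFin x, by
    have := (P.equivFin x).2; omega⟩) (fun x => ⟨r + Q.equivFin x, by
    have := (Q.equivFin x).2; omega⟩)
  have hf : Function.Injective f := by
    rintro (x | x) (y | y) h
    · simp only [f, Sum.elim_inl] at h
      rw [Subtype.ext h]
    · exfalso
      simp only [f, Sum.elim_inl, Sum.elim_inr] at h
      exact Finset.disjoint_left.1 hPQ x.2 (by rw [h]; exact y.2)
    · exfalso
      simp only [f, Sum.elim_inl, Sum.elim_inr] at h
      exact Finset.disjoint_left.1 hPQ y.2 (by rw [← h]; exact x.2)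
    · simp only [f, Sum.elim_inr] at h
      rw [Subtype.ext h]
  have hg : Function.Injective g := by
    rintro (x | x) (y | y) h
    · simp only [g, Sum.elim_inl, Fin.mk.injEq] at h
      rw [P.equivFin.injective (Fin.ext h)]
    · exfalso
      simp only [g, Sum.elim_inl, Sum.elim_inr, Fin.mk.injEq] at h
      have := (P.equivFin x).2
      omega
    · exfalso
      simp only [g, Sum.elim_inl, Sum.elim_inr, Fin.mk.injEq] at h
      have := (P.equivFin y).2
      omega
    · simp only [g, Sum.elim_inr, Fin.mk.injEq, add_right_inj] at h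
      rw [Q.equivFin.injective (Fin.ext h)]
  obtain ⟨π, hπ⟩ := Equiv.Perm.exists_extending_pair f g hf hg
  refine ⟨π, fun l hl => ?_, fun l hl => ?_⟩
  · have h1 := hπ (Sum.inl ⟨l, hl⟩)
    simp only [f, g, Sum.elim_inl] at h1
    rw [h1]
    have := (P.equivFin ⟨l, hl⟩).2
    simp only
    omega
  · have h1 := hπ (Sum.inr ⟨l, hl⟩)
    simp only [f, g, Sum.elim_inr] at h1
    rw [h1]
    have := (Q.equivFin ⟨l, hl⟩).2
    simp only
    omega

/-- The elements of the ideal of the parametrization vanish in all points of the given shape. -/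
theorem aeval_eq_zero_of_mem {L : Type*} [Field L] [Algebra K L] (hrs : r + s ≤ t)
    (A : Matrix (Fin m) (Fin t) L) (B : Matrix (Fin n) (Fin t) L) (g h : Matrix (Fin t) (Fin t) L)
    (P Q : Finset (Fin t)) (hgh : g * h.transpose = 1) (hPQ : Disjoint P Q) (hP : P.card ≤ r)
    (hQ : Q.card ≤ s) (hA : ∀ i j, j ∉ P → A i j = 0) (hB : ∀ i j, j ∉ Q → B i j = 0)
    (f : MvPolynomial (Var m t n) K) (hf : f ∈ paramIdeal K m t n r s) :
    aeval (fun c : Var m t n => match c with
      | Var.y i j => (A * g) i j
      | Var.z j k => (B * h) k j) f = 0 := by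
  classical
  obtain ⟨π, hπP, hπQ⟩ := exists_perm P Q hPQ hP hQ hrs
  let A0 : Matrix (Fin m) (Fin t) L := A.submatrix id π.symm
  let g0 : Matrix (Fin t) (Fin t) L := g.submatrix π.symm id
  let B0 : Matrix (Fin n) (Fin t) L := B.submatrix id π.symm
  let h0 : Matrix (Fin t) (Fin t) L := h.submatrix π.symm id
  have hAg : A0 * g0 = A * g := by
    have := Matrix.submatrix_mul_equiv A g id π.symm id
    rw [this]
    rfl
  have hBh : B0 * h0 = B * h := by
    have := Matrix.submatrix_mul_equiv B h id π.symm id
    rw [this]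
    rfl
  have hgh0 : g0 * h0.transpose = 1 := by
    have h1 : g0 * h0.transpose = (g * h.transpose).submatrix π.symm π.symm := by
      ext i j
      rw [Matrix.mul_apply, Matrix.submatrix_apply, Matrix.mul_apply]
      rfl
    rw [h1, hgh]
    exact Matrix.submatrix_one_equiv _
  have hd : g0.det ≠ 0 := by
    intro h1
    have := congrArg Matrix.det hgh0
    rw [Matrix.det_mul, h1, zero_mul, Matrix.det_one] at this
    exact zero_ne_one this
  have hadj : g0.adjugate = g0.det • h0.transpose := by
    calc g0.adjugate = g0.adjugate * (g0 * h0.transpose) := by rw [hgh0, Matrix.mul_one]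
      _ = (g0.adjugate * g0) * h0.transpose := by rw [Matrix.mul_assoc]
      _ = g0.det • h0.transpose := by rw [Matrix.adjugate_mul, Matrix.smul_mul, Matrix.one_mul]
  let ev : MvPolynomial (GVar m t n) K →ₐ[K] L := aeval fun
    | Sum.inl p => A0 p.1 p.2
    | Sum.inr (Sum.inl p) => g0 p.1 p.2
    | Sum.inr (Sum.inr p) => (g0.det)⁻¹ * B0 p.1 p.2
  have evA : (gA K m t n r).map ev = A0 := by
    ext i l
    simp only [gA, Matrix.map_apply, Matrix.of_apply]
    split_ifs with hl
    · simp [ev]
    · rw [map_zero]
      symm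
      apply hA
      intro h1
      have h2 := hπP _ h1
      rw [Equiv.apply_symm_apply] at h2
      exact hl h2
  have evG : (gG K m t n).map ev = g0 := by
    ext l j
    simp [gG, ev]
  have evB : (gB K m t n r s).map ev = (g0.det)⁻¹ • B0 := by
    ext k l
    simp only [gB, Matrix.map_apply, Matrix.of_apply, Matrix.smul_apply, smul_eq_mul]
    split_ifs with hl
    · simp [ev]
    · rw [map_zero]
      have : B0 k l = 0 := by
        apply hB
        intro h1
        have h2 := hπQ _ h1
        rw [Equiv.apply_symm_apply] at h2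
        exact hl h2
      rw [this, mul_zero]
  have evAdj : (gG K m t n).adjugate.map ev = g0.adjugate := by
    have := AlgHom.map_adjugate ev (gG K m t n)
    rw [AlgHom.mapMatrix_apply, AlgHom.mapMatrix_apply, evG] at this
    exact this
  have hcomp : (aeval (fun c : Var m t n => match c with
      | Var.y i j => (A * g) i j
      | Var.z j k => (B * h) k j) : MvPolynomial (Var m t n) K →ₐ[K] L) =
      ev.comp (param K m t n r s) := by
    apply MvPolynomial.algHom_ext
    intro c
    rw [aeval_X, AlgHom.comp_apply, param, aeval_X]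
    cases c with
    | y i j =>
      simp only
      have h1 : ev ((gA K m t n r * gG K m t n) i j) =
          ((gA K m t n r).map ev * (gG K m t n).map ev) i j := by
        have := Matrix.map_mul (f := ev.toRingHom) (L := gA K m t n r) (M := gG K m t n)
        exact congrFun (congrFun this i) j
      rw [h1, evA, evG, hAg]
    | z j k =>
      simp only
      have h1 : ev ((gB K m t n r s * (gG K m t n).adjugate.transpose) k j) =
          ((gB K m t n r s).map ev * ((gG K m t n).adjugate.map ev).transpose) k j := by
        have := Matrix.map_mul (f := ev.toRingHom) (L := gB K m t n r s)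
          (M := (gG K m t n).adjugate.transpose)
        exact congrFun (congrFun this k) j
      rw [h1, evB, evAdj, hadj, Matrix.transpose_smul, Matrix.transpose_transpose,
        Matrix.smul_mul, Matrix.mul_smul, smul_smul, inv_mul_cancel₀ hd, one_smul, hBh]
  rw [hcomp, AlgHom.comp_apply, (mem_paramIdeal K m t n r s).1 hf, map_zero]

/-- Some `r`-minor of `Y` is not in the ideal. -/
theorem minorY_notMem (hrs : r + s ≤ t) (hrm : r ≤ m) :
    ∃ (f : Fin r → Fin m) (g : Fin r → Fin t),
      ((matY K m t n).submatrix f g).det ∉ paramIdeal K m t n r s := by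
  classical
  have hrt : r ≤ t := by omega
  refine ⟨Fin.castLE hrm, Fin.castLE hrt, fun hmem => ?_⟩
  let A1 : Matrix (Fin m) (Fin t) K :=
    Matrix.of fun i j => if (i : ℕ) = j ∧ (j : ℕ) < r then 1 else 0
  have h1 := aeval_eq_zero_of_mem (L := K) hrs A1 (0 : Matrix (Fin n) (Fin t) K) 1 1
    ((Finset.univ : Finset (Fin t)).filter fun l : Fin t => (l : ℕ) < r) ∅ (by simp) (by simp)
    (card_fin_lt t r) (by simp) (by
      intro i j hj
      simp only [Finset.mem_filter, Finset.mem_univ, true_and] at hj
      simp only [A1, Matrix.of_apply]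
      rw [if_neg]
      exact fun h => hj h.2) (by simp) _ hmem
  rw [AlgHom.map_det, AlgHom.mapMatrix_apply] at h1
  have h2 : ∀ φ : MvPolynomial (Var m t n) K →ₐ[K] K,
      (∀ i j, φ (X (Var.y i j)) = (A1 * (1 : Matrix (Fin t) (Fin t) K)) i j) →
      ((matY K m t n).submatrix (Fin.castLE hrm) (Fin.castLE hrt)).map φ =
        (1 : Matrix _ _ K) := by
    intro φ hφ
    refine Matrix.ext fun i j => ?_
    rw [Matrix.map_apply, Matrix.submatrix_apply, matY, Matrix.of_apply, hφ, Matrix.mul_one,
      Matrix.one_apply]
    simp only [A1, Matrix.of_apply, Fin.val_castLE]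
    congr 1
    rw [eq_iff_iff]
    constructor
    · exact fun h => Fin.ext h.1
    · rintro rfl
      exact ⟨rfl, i.2⟩
  rw [h2 _ (fun i j => by rw [aeval_X]), Matrix.det_one] at h1
  exact one_ne_zero h1

/-- Some `s`-minor of `Z` is not in the ideal. -/
theorem minorZ_notMem (hrs : r + s ≤ t) (hsn : s ≤ n) :
    ∃ (f : Fin s → Fin n) (g : Fin s → Fin t),
      ((matZ K m t n).transpose.submatrix f g).det ∉ paramIdeal K m t n r s := by
  classical
  have hlt : ∀ l : Fin s, r + (l : ℕ) < t := fun l => by have := l.2; omega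
  refine ⟨Fin.castLE hsn, fun l => ⟨r + l, hlt l⟩, fun hmem => ?_⟩
  let B1 : Matrix (Fin n) (Fin t) K :=
    Matrix.of fun k l => if r + (k : ℕ) = l ∧ (l : ℕ) < r + s then 1 else 0
  have h1 := aeval_eq_zero_of_mem (L := K) hrs (0 : Matrix (Fin m) (Fin t) K) B1 1 1 ∅
    ((Finset.univ : Finset (Fin t)).filter fun l : Fin t => r ≤ (l : ℕ) ∧ (l : ℕ) < r + s)
    (by simp) (by simp) (by simp)
    (card_fin_Ico t r s) (by simp) (by
      intro i j hj
      simp only [Finset.mem_filter, Finset.mem_univ, true_and] at hj
      simp only [B1, Matrix.of_apply]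
      rw [if_neg]
      intro h
      exact hj ⟨by omega, h.2⟩) _ hmem
  rw [AlgHom.map_det, AlgHom.mapMatrix_apply] at h1
  have h2 : ∀ φ : MvPolynomial (Var m t n) K →ₐ[K] K,
      (∀ k j, φ (X (Var.z j k)) = (B1 * (1 : Matrix (Fin t) (Fin t) K)) k j) →
      ((matZ K m t n).transpose.submatrix (Fin.castLE hsn)
        (fun l : Fin s => (⟨r + l, hlt l⟩ : Fin t))).map φ = (1 : Matrix _ _ K) := by
    intro φ hφ
    refine Matrix.ext fun i j => ?_
    rw [Matrix.map_apply, Matrix.submatrix_apply, Matrix.transpose_apply, matZ, Matrix.of_apply,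
      hφ, Matrix.mul_one, Matrix.one_apply]
    simp only [B1, Matrix.of_apply, Fin.val_castLE, add_right_inj, add_lt_add_iff_left]
    congr 1
    rw [eq_iff_iff]
    constructor
    · exact fun h => Fin.ext h.1
    · rintro rfl
      exact ⟨rfl, i.2⟩
  rw [h2 _ (fun i j => by rw [aeval_X]), Matrix.det_one] at h1
  exact one_ne_zero h1

end Pool.Agent.Helper50.VC
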