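import Pool.Agent.Helper50.VC.Potentials

set_option autoImplicit false

/-! # Degenerate points of the variety of complexes over a valued field -/

namespace Pool.Agent.Helper50.VC

open Finset

variable {m n t : ℕ}

/-- The conditions on the weights of the entries. -/
structure Wt (U : Fin m → Fin t → ℤ) : Prop where
  mono : ∀ i j j', j < j' → U i j + 3 ≤ U i j'
  monge : ∀ i i' j j', i < i' → j < j' → U i j + U i' j' + 3 ≤ U i j' + U i' j

/-- Chains of positions. -/
def Ch {p : ℕ} (D : Finset (Fin p × Fin t)) : Prop :=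
  ∀ c ∈ D, ∀ c' ∈ D, c ≠ c' → (c.1 < c'.1 ∧ c.2 < c'.2) ∨ (c'.1 < c.1 ∧ c'.2 < c.2)

/-- The conditions on the two sets of positions. -/
structure Cond (e r s : ℕ) (FY : Finset (Fin m × Fin t)) (FX : Finset (Fin n × Fin t)) :
    Prop where
  colY : ∀ c ∈ FY, e ≤ (c.2 : ℕ)
  colX : ∀ c ∈ FX, e ≤ (c.2 : ℕ)
  chain : ∀ D ⊆ FY, ∀ D' ⊆ FX, Ch D → Ch D' → ∀ x, e ≤ x → (∀ c ∈ D, (c.2 : ℕ) < x) →
    (∀ c ∈ D', (c.2 : ℕ) < x) → D.card + D'.card + e ≤ x
  cardY : ∀ D ⊆ FY, Ch D → D.card ≤ r
  cardX : ∀ D ⊆ FX, Ch D → D.card ≤ s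

theorem Cond.symm {e r s : ℕ} {FY : Finset (Fin m × Fin t)} {FX : Finset (Fin n × Fin t)}
    (h : Cond e r s FY FX) : Cond e s r FX FY where
  colY := h.colX
  colX := h.colY
  chain := fun D hD D' hD' hc hc' x hx h1 h2 => by
    have := h.chain D' hD' D hD hc' hc x hx h2 h1
    omega
  cardY := h.cardX
  cardX := h.cardY

variable {L : Type*} [Field L] (ν : AddValuation L (WithTop ℤ)) (tp : ℤ → L)

/-- Data of a point over the valued field. -/
structure PtData (e r s : ℕ) (U : Fin m → Fin t → ℤ) (V : Fin n → Fin t → ℤ)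
    (FY : Finset (Fin m × Fin t)) (FX : Finset (Fin n × Fin t))
    (A : Matrix (Fin m) (Fin t) L) (B : Matrix (Fin n) (Fin t) L) (g h : Matrix (Fin t) (Fin t) L)
    (P Q : Finset (Fin t)) : Prop where
  inv : g * h.transpose = 1
  disj : Disjoint P Q
  cardP : P.card ≤ r
  cardQ : Q.card ≤ s
  suppA : ∀ i j, j ∉ P → A i j = 0
  suppB : ∀ i j, j ∉ Q → B i j = 0
  leP : ∀ l ∈ P, e ≤ (l : ℕ)
  leQ : ∀ l ∈ Q, e ≤ (l : ℕ)
  idg : ∀ i j : Fin t, ((i : ℕ) < e ∨ (j : ℕ) < e) → g i j = if i = j then 1 else 0
  idh : ∀ i j : Fin t, ((i : ℕ) < e ∨ (j : ℕ) < e) → h i j = if i = j then 1 else 0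
  valY : ∀ i j, ((i, j) ∈ FY → ν ((A * g) i j) = (U i j : WithTop ℤ)) ∧
    ((i, j) ∉ FY → (U i j : WithTop ℤ) < ν ((A * g) i j))
  valX : ∀ i j, ((i, j) ∈ FX → ν ((B * h) i j) = (V i j : WithTop ℤ)) ∧
    ((i, j) ∉ FX → (V i j : WithTop ℤ) < ν ((B * h) i j))

/-- Existence of a point. -/
def Pt (e r s : ℕ) (U : Fin m → Fin t → ℤ) (V : Fin n → Fin t → ℤ)
    (FY : Finset (Fin m × Fin t)) (FX : Finset (Fin n × Fin t)) : Prop :=
  ∃ A B g h P Q, PtData (m := m) (n := n) ν e r s U V FY FX A B g h P Q

variable {ν tp}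

theorem Pt.swap {e r s : ℕ} {U : Fin m → Fin t → ℤ} {V : Fin n → Fin t → ℤ}
    {FY : Finset (Fin m × Fin t)} {FX : Finset (Fin n × Fin t)} (H : Pt ν e r s U V FY FX) :
    Pt ν e s r V U FX FY := by
  obtain ⟨A, B, g, h, P, Q, H⟩ := H
  refine ⟨B, A, h, g, Q, P, ?_, H.disj.symm, H.cardQ, H.cardP, H.suppB, H.suppA, H.leQ, H.leP,
    H.idh, H.idg, H.valX, H.valY⟩
  have := congrArg Matrix.transpose H.inv
  rwa [Matrix.transpose_mul, Matrix.transpose_transpose, Matrix.transpose_one] at this

/-- One step: adding a path in `Y`. -/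
theorem Pt.step (htp : ∀ k : ℤ, ν (tp k) = (k : WithTop ℤ)) {e r s : ℕ}
    {U : Fin m → Fin t → ℤ} {V : Fin n → Fin t → ℤ} (hU : Wt U) (hV : Wt V)
    {FY F₁ : Finset (Fin m × Fin t)} {FX : Finset (Fin n × Fin t)} (het : e < t)
    (H : Pt ν (e + 1) r s U V (FY \ F₁) FX) (hF₁ : F₁ ⊆ FY) (hne : F₁.Nonempty)
    (hcomp : ∀ c ∈ F₁, ∀ c' ∈ F₁, (c.1 ≤ c'.1 ∧ c'.2 ≤ c.2) ∨ (c'.1 ≤ c.1 ∧ c.2 ≤ c'.2))
    (hcol : ∀ c ∈ F₁, e ≤ (c.2 : ℕ)) (hFX : ∀ c ∈ FX, e + 1 ≤ (c.2 : ℕ)) :
    Pt ν e (r + 1) s U V FY FX := by
  classical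
  obtain ⟨A, B, g, h, P, Q, H⟩ := H
  obtain ⟨⟨i₀, j₀⟩, hc₀⟩ := hne
  have hm : 0 < m := lt_of_le_of_lt (Nat.zero_le _) i₀.2
  let ê : Fin t := ⟨e, het⟩
  let il : Fin m := ⟨m - 1, by omega⟩
  let U' : Fin m → Fin t → ℤ := fun i j => if (i, j) ∈ F₁ then U i j else U i j + 1
  have hU'le : ∀ i j, U i j ≤ U' i j ∧ U' i j ≤ U i j + 1 := by
    intro i j
    simp only [U']
    split_ifs
    · exact ⟨le_rfl, by linarith⟩
    · exact ⟨by linarith, le_rfl⟩
  obtain ⟨a, b, hab, habF⟩ := exists_potentials U' (by
      intro i i' j j' hi hj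
      rcases hi.lt_or_eq with hi | hi
      · rcases hj.lt_or_eq with hj | hj
        · have h1 := hU.monge i i' j j' hi hj
          have h2 := hU'le i j
          have h3 := hU'le i' j'
          have h4 := hU'le i j'
          have h5 := hU'le i' j
          linarith [h2.2, h3.2, h4.1, h5.1]
        · subst hj
          linarith
      · subst hi
        linarith) (insert (il, ê) F₁) (by
      have hil : ∀ i : Fin m, i ≤ il := by
        intro i
        rw [Fin.le_def]
        have := i.2
        simp only [il]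
        omega
      intro c hc c' hc'
      rw [Finset.mem_insert] at hc hc'
      rcases hc with rfl | hc
      · rcases hc' with rfl | hc'
        · exact Or.inl ⟨le_rfl, le_rfl⟩
        · exact Or.inr ⟨hil _, hcol c' hc'⟩
      · rcases hc' with rfl | hc'
        · exact Or.inl ⟨hil _, hcol c hc⟩
        · exact hcomp c hc c' hc') ⟨(il, ê), Finset.mem_insert_self _ _⟩
  -- the new vectors
  let α : Fin m → L := fun i => tp (a i)
  let β : Fin t → L := fun j => if e ≤ (j : ℕ) then tp (b j) else 0
  have hβe : β ê = tp (b ê) := by simp [β, ê]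
  have hνβe : ν (β ê) = (b ê : WithTop ℤ) := by rw [hβe, htp]
  have hβe0 : β ê ≠ 0 := by
    intro h0
    rw [h0, AddValuation.map_zero] at hνβe
    exact absurd hνβe.symm (WithTop.coe_ne_top)
  let T : Matrix (Fin t) (Fin t) L := fun l j => if l = ê then β j else if l = j then 1 else 0
  let T' : Matrix (Fin t) (Fin t) L := fun l j =>
    if l = ê then (if j = ê then (β ê)⁻¹ else -((β ê)⁻¹ * β j)) else if l = j then 1 else 0
  have hTT' : T * T' = 1 := by
    ext i j
    rw [Matrix.mul_apply, Matrix.one_apply]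
    by_cases hi : i = ê
    · subst hi
      simp only [T, T', if_true]
      rw [← Finset.add_sum_erase _ _ (Finset.mem_univ ê), if_pos rfl]
      have h1 : ∑ x ∈ Finset.univ.erase ê, β x * (if x = ê then
          (if j = ê then (β ê)⁻¹ else -((β ê)⁻¹ * β j)) else if x = j then 1 else 0) =
          if j = ê then 0 else β j := by
        have h2 : ∀ x ∈ Finset.univ.erase ê, β x * (if x = ê then
          (if j = ê then (β ê)⁻¹ else -((β ê)⁻¹ * β j)) else if x = j then 1 else 0) =
          if x = j then β j else 0 := by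
          intro x hx
          rw [if_neg (Finset.ne_of_mem_erase hx)]
          split_ifs with h3
          · rw [h3, mul_one]
          · rw [mul_zero]
        rw [Finset.sum_congr rfl h2, Finset.sum_ite_eq']
        by_cases hj : j = ê
        · rw [if_pos hj, if_neg (by rw [hj]; simp)]
        · rw [if_neg hj, if_pos (by simp [hj])]
      rw [h1]
      by_cases hj : j = ê
      · subst hj
        simp [hβe0]
      · rw [if_neg hj, if_neg hj, if_neg (Ne.symm hj)]
        field_simp
        ring
    · simp only [T, T', if_neg hi]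
      simp only [ite_mul, one_mul, zero_mul, Finset.sum_ite_eq, Finset.mem_univ, if_true, if_neg hi]
  let A' : Matrix (Fin m) (Fin t) L := fun i j => if j = ê then α i else A i j
  have hêP : ê ∉ P := by
    intro h1
    have := H.leP _ h1
    simp [ê] at this
  have hêQ : ê ∉ Q := by
    intro h1
    have := H.leQ _ h1
    simp [ê] at this
  -- `A * g` and `B * h` vanish in the columns up to `e`
  have hzeroY : ∀ i (j : Fin t), (j : ℕ) ≤ e → (A * g) i j = 0 := by
    intro i j hj
    rw [Matrix.mul_apply]
    refine Finset.sum_eq_zero fun l _ => ?_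
    rw [H.idg l j (Or.inr (by omega))]
    split_ifs with hl
    · subst hl
      rw [H.suppA, zero_mul]
      intro h1
      have := H.leP _ h1
      omega
    · rw [mul_zero]
  have hzeroX : ∀ i (j : Fin t), (j : ℕ) ≤ e → (B * h) i j = 0 := by
    intro i j hj
    rw [Matrix.mul_apply]
    refine Finset.sum_eq_zero fun l _ => ?_
    rw [H.idh l j (Or.inr (by omega))]
    split_ifs with hl
    · subst hl
      rw [H.suppB, zero_mul]
      intro h1
      have := H.leQ _ h1
      omega
    · rw [mul_zero]
  -- the new `Y`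
  have hA'g : ∀ i l, (A' * g) i l = (A * g) i l + if l = ê then α i else 0 := by
    intro i l
    rw [Matrix.mul_apply, Matrix.mul_apply]
    have h1 : ∀ x, A' i x * g x l = A i x * g x l + if x = ê then α i * g ê l else 0 := by
      intro x
      simp only [A']
      split_ifs with hx
      · rw [hx, H.suppA i ê hêP, zero_mul, zero_add]
      · rw [add_zero]
    rw [Finset.sum_congr rfl fun x _ => h1 x, Finset.sum_add_distrib, Finset.sum_ite_eq',
      if_pos (Finset.mem_univ _), H.idg ê l (Or.inl (by simp [ê]))]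
    congr 1
    by_cases hl : l = ê
    · rw [if_pos hl, if_pos hl.symm, mul_one]
    · rw [if_neg hl, if_neg (Ne.symm hl), mul_zero]
  have hY : ∀ i j, (A' * (g * T)) i j = (A * g) i j + α i * β j := by
    intro i j
    rw [← Matrix.mul_assoc, Matrix.mul_apply, ← Finset.add_sum_erase _ _ (Finset.mem_univ ê)]
    have h1 : (A' * g) i ê = α i := by
      rw [hA'g, hzeroY i ê (by simp [ê]), zero_add, if_pos rfl]
    have h2 : ∀ l ∈ Finset.univ.erase ê, (A' * g) i l * T l j = if l = j then (A * g) i j else 0 := by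
      intro l hl
      rw [hA'g, if_neg (Finset.ne_of_mem_erase hl), add_zero]
      simp only [T, if_neg (Finset.ne_of_mem_erase hl)]
      split_ifs with h3
      · rw [h3, mul_one]
      · rw [mul_zero]
    rw [Finset.sum_congr rfl h2, Finset.sum_ite_eq', h1]
    have h3 : T ê j = β j := by simp [T]
    rw [h3, add_comm]
    congr 1
    by_cases hj : j = ê
    · rw [if_neg (by rw [hj]; simp), hj, hzeroY i ê (by simp [ê])]
    · rw [if_pos (by simp [hj])]
  -- the new `X`
  have hX : ∀ i j, (B * (h * T'.transpose)) i j = if j = ê then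
      -∑ l ∈ Finset.univ.erase ê, (β ê)⁻¹ * β l * (B * h) i l else (B * h) i j := by
    intro i j
    rw [← Matrix.mul_assoc, Matrix.mul_apply]
    split_ifs with hj
    · subst hj
      rw [← Finset.add_sum_erase _ _ (Finset.mem_univ ê), hzeroX i ê (by simp [ê]), zero_mul,
        zero_add, ← Finset.sum_neg_distrib]
      refine Finset.sum_congr rfl fun l hl => ?_
      rw [Matrix.transpose_apply]
      simp only [T', if_true, if_neg (Finset.ne_of_mem_erase hl)]
      ring
    · have h2 : ∀ l, (B * h) i l * T'.transpose l j = if l = j then (B * h) i j else 0 := by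
        intro l
        rw [Matrix.transpose_apply]
        simp only [T', if_neg hj]
        by_cases hl : l = j
        · rw [if_pos hl, if_pos hl.symm, hl, mul_one]
        · rw [if_neg hl, if_neg (Ne.symm hl), mul_zero]
      rw [Finset.sum_congr rfl fun l _ => h2 l, Finset.sum_ite_eq', if_pos (Finset.mem_univ _)]
  refine ⟨A', B, g * T, h * T'.transpose, insert ê P, Q, ?_, ?_, ?_, H.cardQ, ?_, H.suppB, ?_, ?_,
    ?_, ?_, ?_, ?_⟩
  · rw [Matrix.transpose_mul, Matrix.transpose_transpose, Matrix.mul_assoc,
      ← Matrix.mul_assoc T, hTT', Matrix.one_mul, H.inv]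
  · rw [Finset.disjoint_insert_left]
    exact ⟨hêQ, H.disj⟩
  · rw [Finset.card_insert_of_notMem hêP]
    exact Nat.succ_le_succ H.cardP
  · intro i j hj
    rw [Finset.mem_insert, not_or] at hj
    simp only [A', if_neg hj.1]
    exact H.suppA i j hj.2
  · intro l hl
    rw [Finset.mem_insert] at hl
    rcases hl with rfl | hl
    · simp [ê]
    · have := H.leP l hl
      omega
  · intro l hl
    have := H.leQ l hl
    omega
  · intro i j hij
    rw [Matrix.mul_apply]
    rcases hij with hi | hj
    · have h1 : ∀ l, g i l * T l j = if l = i then T i j else 0 := by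
        intro l
        rw [H.idg i l (Or.inl (by omega))]
        by_cases hl : l = i
        · rw [if_pos hl.symm, if_pos hl, one_mul, hl]
        · rw [if_neg (Ne.symm hl), if_neg hl, zero_mul]
      rw [Finset.sum_congr rfl fun l _ => h1 l, Finset.sum_ite_eq', if_pos (Finset.mem_univ _)]
      have hne : i ≠ ê := by
        rintro rfl
        simp [ê] at hi
      simp only [T, if_neg hne]
    · have h1 : ∀ l, T l j = if l = j then 1 else 0 := by
        intro l
        simp only [T]
        split_ifs with h2 h3 h3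
        · exfalso
          rw [← h3, h2] at hj
          simp [ê] at hj
        · simp only [β]
          rw [if_neg (by omega)]
        · rfl
        · rfl
      have h2 : ∀ l, g i l * T l j = if l = j then g i j else 0 := by
        intro l
        rw [h1]
        split_ifs with h3
        · rw [h3, mul_one]
        · rw [mul_zero]
      rw [Finset.sum_congr rfl fun l _ => h2 l, Finset.sum_ite_eq', if_pos (Finset.mem_univ _),
        H.idg i j (Or.inr (by omega))]
  · intro i j hij
    rw [Matrix.mul_apply]
    rcases hij with hi | hj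
    · have h1 : ∀ l, h i l * T'.transpose l j = if l = i then T' j i else 0 := by
        intro l
        rw [H.idh i l (Or.inl (by omega)), Matrix.transpose_apply]
        by_cases hl : l = i
        · rw [if_pos hl.symm, if_pos hl, one_mul, hl]
        · rw [if_neg (Ne.symm hl), if_neg hl, zero_mul]
      rw [Finset.sum_congr rfl fun l _ => h1 l, Finset.sum_ite_eq', if_pos (Finset.mem_univ _)]
      have hne : i ≠ ê := by
        rintro rfl
        simp [ê] at hi
      simp only [T', if_neg hne]
      by_cases hje : j = ê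
      · have hβi : β i = 0 := by
          simp only [β]
          rw [if_neg (by omega)]
        rw [if_pos hje, if_neg (by rw [hje]; exact hne), hβi]
        simp
      · rw [if_neg hje]
        by_cases hjj : j = i
        · rw [if_pos hjj, if_pos hjj.symm]
        · rw [if_neg hjj, if_neg (Ne.symm hjj)]
    · have hne : j ≠ ê := by
        rintro rfl
        simp [ê] at hj
      have h2 : ∀ l, h i l * T'.transpose l j = if l = j then h i j else 0 := by
        intro l
        rw [Matrix.transpose_apply]
        simp only [T', if_neg hne]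
        by_cases hl : l = j
        · rw [if_pos hl, if_pos hl.symm, hl, mul_one]
        · rw [if_neg hl, if_neg (Ne.symm hl), mul_zero]
      rw [Finset.sum_congr rfl fun l _ => h2 l, Finset.sum_ite_eq', if_pos (Finset.mem_univ _),
        H.idh i j (Or.inr (by omega))]
  · -- valuations of `Y`
    have hαβ : ∀ (i : Fin m) (j : Fin t), e ≤ (j : ℕ) → ν (α i * β j) = ((a i + b j : ℤ) : WithTop ℤ) := by
      intro i j hj
      rw [AddValuation.map_mul]
      simp only [α, β, if_pos hj, htp]
      rfl
    have hαβ' : ∀ i j, (i, j) ∉ F₁ → (U i j : WithTop ℤ) < ν (α i * β j) := by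
      intro i j hij
      by_cases hj : e ≤ (j : ℕ)
      · rw [hαβ i j hj, WithTop.coe_lt_coe]
        have h1 := hab i j
        have h2 : U' i j = U i j + 1 := by simp [U', hij]
        linarith
      · have : α i * β j = 0 := by simp only [β, if_neg hj, mul_zero]
        rw [this, AddValuation.map_zero]
        exact WithTop.coe_lt_top _
    intro i j
    rw [hY]
    have HY := H.valY i j
    constructor
    · intro hij
      by_cases h1 : (i, j) ∈ F₁
      · have h2 : ν (α i * β j) = (U i j : WithTop ℤ) := by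
          rw [hαβ i j (hcol _ h1)]
          have h3 := habF (i, j) (Finset.mem_insert_of_mem h1)
          simp only [U', if_pos h1] at h3
          rw [h3]
        have h3 := HY.2 (by simp [h1])
        rw [add_comm, AddValuation.map_add_eq_of_lt_left _ (by rw [h2]; exact h3), h2]
      · have h2 := HY.1 (by rw [Finset.mem_sdiff]; exact ⟨hij, h1⟩)
        rw [AddValuation.map_add_eq_of_lt_left _ (by rw [h2]; exact hαβ' i j h1), h2]
    · intro hij
      have h1 : (i, j) ∉ F₁ := fun h => hij (hF₁ h)
      exact AddValuation.map_lt_add _ (HY.2 (by simp [hij])) (hαβ' i j h1)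
  · -- valuations of `X`
    intro i j
    rw [hX]
    split_ifs with hj
    · subst hj
      have hnot : (i, ê) ∉ FX := by
        intro h1
        have := hFX _ h1
        simp [ê] at this
      refine ⟨fun h1 => absurd h1 hnot, fun _ => ?_⟩
      rw [AddValuation.map_neg]
      refine AddValuation.map_lt_sum' _ (WithTop.coe_lt_top _) fun l hl => ?_
      by_cases hle : e ≤ (l : ℕ)
      · have hlt : ê < l := by
          rw [Fin.lt_def]
          have : l ≠ ê := Finset.ne_of_mem_erase hl
          have : (l : ℕ) ≠ e := fun h => this (Fin.ext h)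
          simp only [ê]
          omega
        have hgap : 0 < b l - b ê := by
          have h1 := habF (il, ê) (Finset.mem_insert_self _ _)
          simp only at h1
          have h2 := hab il l
          have h3 := (hU'le il ê).2
          have h4 := (hU'le il l).1
          have h5 := hU.mono il ê l hlt
          linarith
        rw [AddValuation.map_mul, AddValuation.map_mul]
        have h1 : ν (β ê)⁻¹ + ν (β l) = ((b l - b ê : ℤ) : WithTop ℤ) := by
          have h2 : ν (β ê)⁻¹ + ν (β ê) = 0 := by
            rw [← AddValuation.map_mul, inv_mul_cancel₀ hβe0, AddValuation.map_one]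
          have h3 : ν (β ê)⁻¹ = ((-b ê : ℤ) : WithTop ℤ) := by
            rw [hνβe] at h2
            cases hx : ν (β ê)⁻¹ with
            | top =>
              rw [hx, WithTop.top_add] at h2
              exact absurd h2.symm WithTop.zero_ne_top
            | coe x =>
              rw [hx] at h2
              have : x + b ê = 0 := by exact_mod_cast h2
              have : x = -b ê := by linarith
              rw [this]
          rw [h3]
          simp only [β, if_pos hle, htp]
          rw [← WithTop.coe_add]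
          congr 1
          ring
        rw [h1]
        -- the entry of `X`
        have h6 : (V i l : WithTop ℤ) ≤ ν ((B * h) i l) := by
          by_cases h7 : (i, l) ∈ FX
          · rw [(H.valX i l).1 h7]
          · exact ((H.valX i l).2 h7).le
        have h7 := hV.mono i ê l hlt
        calc (V i ê : WithTop ℤ) < ((b l - b ê : ℤ) : WithTop ℤ) + (V i l : WithTop ℤ) := by
              rw [← WithTop.coe_add, WithTop.coe_lt_coe]
              linarith
          _ ≤ _ := by gcongr
      · have : β l = 0 := by simp only [β, if_neg hle]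
        rw [this, mul_zero, zero_mul, AddValuation.map_zero]
        exact WithTop.coe_lt_top _
    · exact H.valX i j

theorem Ch.insert {p : ℕ} {D : Finset (Fin p × Fin t)} (hD : Ch D) {d : Fin p × Fin t}
    (hd : ∀ c ∈ D, d.1 < c.1 ∧ d.2 < c.2) : Ch (insert d D) := by
  intro c hc c' hc' hne
  rw [Finset.mem_insert] at hc hc'
  rcases hc with rfl | hc
  · rcases hc' with rfl | hc'
    · exact absurd rfl hne
    · exact Or.inl (hd c' hc')
  · rcases hc' with rfl | hc'
    · exact Or.inr (hd c hc)
    · exact hD c hc c' hc' hne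

/-- The minimal elements. -/
def minEls {p : ℕ} (F : Finset (Fin p × Fin t)) : Finset (Fin p × Fin t) :=
  F.filter fun c => ∀ c' ∈ F, ¬ (c'.1 < c.1 ∧ c'.2 < c.2)

theorem exists_minEl {p : ℕ} (F : Finset (Fin p × Fin t)) (c : Fin p × Fin t)
    (hc : ∃ c' ∈ F, c'.1 < c.1 ∧ c'.2 < c.2) :
    ∃ d ∈ minEls F, d.1 < c.1 ∧ d.2 < c.2 := by
  classical
  have hne : (F.filter fun c' => c'.1 < c.1 ∧ c'.2 < c.2).Nonempty := by
    obtain ⟨c', h1, h2⟩ := hc
    exact ⟨c', Finset.mem_filter.2 ⟨h1, h2⟩⟩
  obtain ⟨d, hd, hmin⟩ := Finset.exists_min_image _ (fun c : Fin p × Fin t => c.2) hne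
  rw [Finset.mem_filter] at hd
  refine ⟨d, ?_, hd.2⟩
  unfold minEls
  rw [Finset.mem_filter]
  refine ⟨hd.1, fun c' hc' hlt => ?_⟩
  have h1 := hmin c' (Finset.mem_filter.2 ⟨hc', hlt.1.trans hd.2.1, hlt.2.trans hd.2.2⟩)
  exact absurd hlt.2 (not_lt.2 h1)

/-- Peeling of the minimal elements of `FY`. -/
theorem Cond.peel {e r s : ℕ} {FY : Finset (Fin m × Fin t)} {FX : Finset (Fin n × Fin t)}
    (h : Cond e r s FY FX) (hne : FY.Nonempty)
    (hmin : ∃ d ∈ FY, ∀ c ∈ FX, d.2 ≤ c.2) :
    1 ≤ r ∧ Cond (e + 1) (r - 1) s (FY \ minEls FY) FX := by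
  classical
  obtain ⟨d₀, hd₀, hd₀X⟩ := hmin
  have hch1 : ∀ d : Fin m × Fin t, Ch ({d} : Finset (Fin m × Fin t)) := by
    intro d c hc c' hc' hcc
    rw [Finset.mem_singleton] at hc hc'
    exact absurd (hc.trans hc'.symm) hcc
  have hr : 1 ≤ r := by
    have := h.cardY {d₀} (by simpa using hd₀) (hch1 d₀)
    simpa using this
  have hex : ∀ c ∈ FY \ minEls FY, ∃ d ∈ minEls FY, d.1 < c.1 ∧ d.2 < c.2 := by
    intro c hc
    rw [Finset.mem_sdiff] at hc
    apply exists_minEl
    by_contra hcon
    push Not at hcon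
    apply hc.2
    unfold minEls
    rw [Finset.mem_filter]
    exact ⟨hc.1, fun c' hc' hlt => absurd hlt.2 (not_lt.2 (hcon c' hc' hlt.1))⟩
  have hsub : minEls FY ⊆ FY := Finset.filter_subset _ _
  -- extension of chains
  have hext : ∀ D ⊆ FY \ minEls FY, Ch D → D.Nonempty →
      ∃ d ∈ FY, d ∉ D ∧ Ch (insert d D) ∧ ∀ x : ℕ, (∀ c ∈ D, (c.2 : ℕ) < x) → (d.2 : ℕ) < x := by
    intro D hD hDch hDne
    obtain ⟨c₀, hc₀, hc₀min⟩ := Finset.exists_min_image D (fun c => c.2) hDne
    obtain ⟨d, hd, hdlt⟩ := hex c₀ (hD hc₀)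
    have hlt : ∀ c ∈ D, d.1 < c.1 ∧ d.2 < c.2 := by
      intro c hc
      by_cases hcc : c = c₀
      · rw [hcc]; exact hdlt
      · rcases hDch c hc c₀ hc₀ hcc with h1 | h1
        · exact absurd h1.2 (not_lt.2 (hc₀min c hc))
        · exact ⟨hdlt.1.trans h1.1, hdlt.2.trans h1.2⟩
    refine ⟨d, hsub hd, fun hdD => absurd (hlt d hdD).1 (lt_irrefl _), hDch.insert hlt, ?_⟩
    intro x hx
    have h1 := hx c₀ hc₀
    have h2 : (d.2 : ℕ) < c₀.2 := hdlt.2
    omega
  refine ⟨hr, ⟨?_, ?_, ?_, ?_, h.cardX⟩⟩
  · intro c hc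
    obtain ⟨d, hd, hdlt⟩ := hex c hc
    have h1 := h.colY d (hsub hd)
    have h2 : (d.2 : ℕ) < c.2 := hdlt.2
    omega
  · intro c hc
    have h1 := h.colX c hc
    by_contra hlt
    have h2 : (c.2 : ℕ) = e := by omega
    have h3 : (d₀.2 : ℕ) ≤ c.2 := hd₀X c hc
    have h4 := h.chain {d₀} (by simpa using hd₀) {c} (by simpa using hc) (hch1 d₀)
      (by
        intro a ha b hb hab
        rw [Finset.mem_singleton] at ha hb
        exact absurd (ha.trans hb.symm) hab) (e + 1) (by omega)
      (by
        intro a ha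
        rw [Finset.mem_singleton] at ha
        rw [ha]
        omega)
      (by
        intro a ha
        rw [Finset.mem_singleton] at ha
        rw [ha]
        omega)
    simp only [Finset.card_singleton] at h4
    omega
  · intro D hD D' hD' hDch hDch' x hx hDx hDx'
    rcases D.eq_empty_or_nonempty with rfl | hDne
    · rcases D'.eq_empty_or_nonempty with rfl | hDne'
      · simpa using hx
      · obtain ⟨c', hc'⟩ := hDne'
        have h1 := h.chain {d₀} (by simpa using hd₀) D' hD' (hch1 d₀) hDch' x (by omega)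
          (by
            intro a ha
            rw [Finset.mem_singleton] at ha
            rw [ha]
            have h2 : (d₀.2 : ℕ) ≤ c'.2 := hd₀X c' (hD' hc')
            have h3 := hDx' c' hc'
            omega) hDx'
        simp only [Finset.card_singleton] at h1
        simp only [Finset.card_empty]
        omega
    · obtain ⟨d, hdF, hdD, hch, hdx⟩ := hext D hD hDch hDne
      have h1 := h.chain (insert d D) (by
        intro a ha
        rw [Finset.mem_insert] at ha
        rcases ha with rfl | ha
        · exact hdF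
        · exact (Finset.mem_sdiff.1 (hD ha)).1) D' hD' hch hDch' x (by omega)
        (by
          intro a ha
          rw [Finset.mem_insert] at ha
          rcases ha with rfl | ha
          · exact hdx x hDx
          · exact hDx a ha) hDx'
      rw [Finset.card_insert_of_notMem hdD] at h1
      omega
  · intro D hD hDch
    rcases D.eq_empty_or_nonempty with rfl | hDne
    · simp
    · obtain ⟨d, hdF, hdD, hch, hdx⟩ := hext D hD hDch hDne
      have h1 := h.cardY (insert d D) (by
        intro a ha
        rw [Finset.mem_insert] at ha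
        rcases ha with rfl | ha
        · exact hdF
        · exact (Finset.mem_sdiff.1 (hD ha)).1) hch
      rw [Finset.card_insert_of_notMem hdD] at h1
      omega

theorem exists_pt (htp : ∀ k : ℤ, ν (tp k) = (k : WithTop ℤ)) (N : ℕ) :
    ∀ {m n : ℕ} (e r s : ℕ) (U : Fin m → Fin t → ℤ) (V : Fin n → Fin t → ℤ)
      (FY : Finset (Fin m × Fin t)) (FX : Finset (Fin n × Fin t)), Wt U → Wt V →
      FY.card + FX.card ≤ N → Cond e r s FY FX → Pt ν e r s U V FY FX := by
  classical
  induction N with
  | zero =>
    intro m n e r s U V FY FX hU hV hN hc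
    have h1 : FY = ∅ := by
      rw [← Finset.card_eq_zero]; omega
    have h2 : FX = ∅ := by
      rw [← Finset.card_eq_zero]; omega
    subst h1 h2
    refine ⟨0, 0, 1, 1, ∅, ∅, ?_, ?_, ?_, ?_, ?_, ?_, ?_, ?_, ?_, ?_, ?_, ?_⟩
    · simp
    · simp
    · simp
    · simp
    · simp
    · simp
    · simp
    · simp
    · intro i j _
      exact Matrix.one_apply
    · intro i j _
      exact Matrix.one_apply
    · intro i j
      refine ⟨fun h => absurd h (Finset.notMem_empty _), fun _ => ?_⟩
      rw [Matrix.zero_mul, Matrix.zero_apply, AddValuation.map_zero]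
      exact WithTop.coe_lt_top _
    · intro i j
      refine ⟨fun h => absurd h (Finset.notMem_empty _), fun _ => ?_⟩
      rw [Matrix.zero_mul, Matrix.zero_apply, AddValuation.map_zero]
      exact WithTop.coe_lt_top _
  | succ N ih =>
    -- the case where `FY` has a minimal column index
    have key : ∀ {m n : ℕ} (e r s : ℕ) (U : Fin m → Fin t → ℤ) (V : Fin n → Fin t → ℤ)
      (FY : Finset (Fin m × Fin t)) (FX : Finset (Fin n × Fin t)), Wt U → Wt V →
      FY.card + FX.card ≤ N + 1 → Cond e r s FY FX → (∃ d ∈ FY, ∀ c ∈ FX, d.2 ≤ c.2) →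
      Pt ν e r s U V FY FX := by
      intro m n e r s U V FY FX hU hV hN hc hd
      have hne : FY.Nonempty := by
        obtain ⟨d, hd, _⟩ := hd
        exact ⟨d, hd⟩
      obtain ⟨hr, hc'⟩ := hc.peel hne hd
      have hF₁ne : (minEls FY).Nonempty := by
        obtain ⟨d, hd, hmin⟩ := Finset.exists_min_image FY (fun c => c.2) hne
        refine ⟨d, ?_⟩
        unfold minEls
        rw [Finset.mem_filter]
        exact ⟨hd, fun c' hc' hlt => absurd hlt.2 (not_lt.2 (hmin c' hc'))⟩
      have hsub : minEls FY ⊆ FY := Finset.filter_subset _ _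
      have hcard : (FY \ minEls FY).card + FX.card ≤ N := by
        have h1 := Finset.card_sdiff_add_card_eq_card hsub
        have h2 := Finset.card_pos.2 hF₁ne
        omega
      have hpt := ih (e + 1) (r - 1) s U V (FY \ minEls FY) FX hU hV hcard hc'
      have het : e < t := by
        obtain ⟨d, hd, _⟩ := hd
        have h1 := hc.colY d hd
        have h2 := d.2.2
        omega
      have hstep := Pt.step htp hU hV het hpt hsub hF₁ne ?_ (fun c hc1 => hc.colY c (hsub hc1))
        hc'.colX
      · rwa [Nat.sub_add_cancel hr] at hstep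
      · intro c hc1 c' hc1'
        unfold minEls at hc1 hc1'
        rw [Finset.mem_filter] at hc1 hc1'
        have h1 := hc1.2 c' hc1'.1
        have h2 := hc1'.2 c hc1.1
        simp only [Fin.lt_def, Fin.le_def] at h1 h2 ⊢
        omega
    intro m n e r s U V FY FX hU hV hN hc
    rcases FY.eq_empty_or_nonempty with hY | hY
    · rcases FX.eq_empty_or_nonempty with hX | hX
      · refine ih e r s U V FY FX hU hV ?_ hc
        rw [hY, hX]
        simp
      · -- `FX` has the minimal column index
        refine Pt.swap (key e s r V U FX FY hV hU (by omega) hc.symm ?_)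
        obtain ⟨d, hd⟩ := hX
        exact ⟨d, hd, fun c hc => absurd hc (by rw [hY]; exact Finset.notMem_empty _)⟩
    · obtain ⟨d, hd, hdmin⟩ := Finset.exists_min_image FY (fun c => c.2) hY
      by_cases hX : ∀ c ∈ FX, d.2 ≤ c.2
      · exact key e r s U V FY FX hU hV hN hc ⟨d, hd, hX⟩
      · push Not at hX
        obtain ⟨c, hcX, hcd⟩ := hX
        obtain ⟨d', hd', hdmin'⟩ := Finset.exists_min_image FX (fun c => c.2) ⟨c, hcX⟩
        refine Pt.swap (key e s r V U FX FY hV hU (by omega) hc.symm ⟨d', hd', ?_⟩)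
        intro c' hc'
        exact (hdmin' c hcX).trans (hcd.le.trans (hdmin c' hc'))

end Pool.Agent.Helper50.VC
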