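import Pool.Agent.Helper50.VC.Order
import Pool.Agent.Helper50.VC.Points
import Pool.Agent.Helper50.VC.Param

set_option autoImplicit false

/-! # No element of the ideal has a leading monomial supported on a good set -/

namespace Pool.Agent.Helper50.VC

open Finset MvPolynomial Var

variable {m t n : ℕ}

section weights

/-- The exponent of the weight of a variable. -/
def wtE : Var m t n → ℕ
  | y i j => (m + n - i) * t - j
  | z j k => (n - k) * t - j

theorem row_aux {R a b t x y' : ℕ} (h : a < b) (hb : b < R) (hx : x < t) (_ : y' < t) :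
    (R - b) * t - y' < (R - a) * t - x := by
  have h1 : (R - b) * t + t ≤ (R - a) * t := by
    have : (R - b) + 1 ≤ R - a := by omega
    calc (R - b) * t + t = (R - b + 1) * t := by ring
      _ ≤ _ := Nat.mul_le_mul_right _ this
  omega

theorem row_aux2 {R a t x y' : ℕ} (ha : a < R) (hx : x < y') (hy : y' < t) :
    (R - a) * t - y' < (R - a) * t - x := by
  have h1 : t ≤ (R - a) * t := by
    have : 1 ≤ R - a := by omega
    calc t = 1 * t := by ring
      _ ≤ _ := Nat.mul_le_mul_right _ this
  omega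

theorem wtE_lt {c c' : Var m t n} (h : c < c') : wtE c' < wtE c := by
  cases c with
  | y i j =>
    cases c' with
    | y i' j' =>
      rw [y_lt_y] at h
      have := i.2
      have := i'.2
      rcases h with h | ⟨rfl, h⟩
      · exact row_aux (R := m + n) (Fin.lt_def.1 h) (by omega) j.2 j'.2
      · exact row_aux2 (R := m + n) (by omega) (Fin.lt_def.1 h) j'.2
    | z j' k' =>
      have h1 := i.2
      have h2 := k'.2
      have h3 := row_aux (R := m + n) (a := i) (b := m + k') (by omega) (by omega) j.2 j'.2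
      have h4 : m + n - (m + (k' : ℕ)) = n - k' := by omega
      rw [h4] at h3
      exact h3
  | z j k =>
    cases c' with
    | y i' j' => exact absurd y_lt_z (not_lt.2 h.le)
    | z j' k' =>
      rw [z_lt_z] at h
      have := k.2
      have := k'.2
      rcases h with h | ⟨rfl, h⟩
      · exact row_aux (R := n) (Fin.lt_def.1 h) (by omega) j.2 j'.2
      · exact row_aux2 (R := n) (by omega) (Fin.lt_def.1 h) j'.2

theorem wtE_injective : Function.Injective (wtE : Var m t n → ℕ) := by
  intro c c' h
  rcases lt_trichotomy c c' with h1 | h1 | h1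
  · exact absurd h (wtE_lt h1).ne'
  · exact h1
  · exact absurd h (wtE_lt h1).ne

theorem geom_aux (D : ℕ) (hD : 1 ≤ D) (N : ℕ) : ∑ e ∈ Finset.range N, (D - 1) * D ^ e < D ^ N := by
  induction N with
  | zero => simp
  | succ N ih =>
    rw [Finset.sum_range_succ, pow_succ]
    have : D ^ N * D = D ^ N + (D - 1) * D ^ N := by
      obtain ⟨d, rfl⟩ : ∃ d, D = d + 1 := ⟨D - 1, by omega⟩
      simp only [Nat.add_sub_cancel]
      ring
    omega

/-- Comparison of the weights of lexicographically ordered monomials. -/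
theorem weight_lt (D : ℕ) (a b : Var m t n →₀ ℕ) (hb : ∀ c, b c < D) (h : toLex b < toLex a) :
    ∑ c, b c * D ^ wtE c < ∑ c, a c * D ^ wtE c := by
  classical
  rw [Finsupp.Lex.lt_iff] at h
  obtain ⟨c₀, heq, hlt⟩ := h
  simp only [ofLex_toLex] at heq hlt
  have hD : 1 ≤ D := by
    have := hb c₀
    omega
  -- split the sums
  have hsplit : ∀ f : Var m t n → ℕ, ∑ c, f c = (∑ c ∈ Finset.univ.filter (fun c => c < c₀), f c)
      + f c₀ + ∑ c ∈ Finset.univ.filter (fun c => c₀ < c), f c := by
    intro f
    have h1 : (Finset.univ : Finset (Var m t n)) = (Finset.univ.filter (fun c => c < c₀)) ∪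
        ({c₀} ∪ Finset.univ.filter (fun c => c₀ < c)) := by
      ext c
      simp only [Finset.mem_univ, Finset.mem_union, Finset.mem_filter, true_and,
        Finset.mem_singleton, true_iff]
      rcases lt_trichotomy c c₀ with h | h | h
      · exact Or.inl h
      · exact Or.inr (Or.inl h)
      · exact Or.inr (Or.inr h)
    conv_lhs => rw [h1]
    rw [Finset.sum_union, Finset.sum_union, Finset.sum_singleton, add_assoc]
    · rw [Finset.disjoint_singleton_left]
      simp
    · rw [Finset.disjoint_left]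
      intro c hc hc'
      simp only [Finset.mem_univ, Finset.mem_union, Finset.mem_filter, true_and,
        Finset.mem_singleton] at hc hc'
      rcases hc' with h | h
      · rw [h] at hc
        exact lt_irrefl _ hc
      · exact lt_asymm hc h
  rw [hsplit (fun c => b c * D ^ wtE c), hsplit (fun c => a c * D ^ wtE c)]
  have h1 : ∑ c ∈ Finset.univ.filter (fun c => c < c₀), b c * D ^ wtE c =
      ∑ c ∈ Finset.univ.filter (fun c => c < c₀), a c * D ^ wtE c := by
    refine Finset.sum_congr rfl fun c hc => ?_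
    rw [Finset.mem_filter] at hc
    rw [heq c hc.2]
  have h2 : ∑ c ∈ Finset.univ.filter (fun c => c₀ < c), b c * D ^ wtE c < D ^ wtE c₀ := by
    calc ∑ c ∈ Finset.univ.filter (fun c => c₀ < c), b c * D ^ wtE c
        ≤ ∑ c ∈ Finset.univ.filter (fun c => c₀ < c), (D - 1) * D ^ wtE c := by
          refine Finset.sum_le_sum fun c _ => Nat.mul_le_mul_right _ ?_
          have := hb c
          omega
      _ = ∑ e ∈ (Finset.univ.filter (fun c => c₀ < c)).image wtE, (D - 1) * D ^ e := by
          rw [Finset.sum_image]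
          intro c _ c' _ h
          exact wtE_injective h
      _ ≤ ∑ e ∈ Finset.range (wtE c₀), (D - 1) * D ^ e := by
          refine Finset.sum_le_sum_of_subset ?_
          intro e he
          rw [Finset.mem_image] at he
          obtain ⟨c, hc, rfl⟩ := he
          rw [Finset.mem_filter] at hc
          exact Finset.mem_range.2 (wtE_lt hc.2)
      _ < D ^ wtE c₀ := geom_aux D hD _
  have h3 : b c₀ * D ^ wtE c₀ + D ^ wtE c₀ ≤ a c₀ * D ^ wtE c₀ := by
    calc b c₀ * D ^ wtE c₀ + D ^ wtE c₀ = (b c₀ + 1) * D ^ wtE c₀ := by ring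
      _ ≤ _ := Nat.mul_le_mul_right _ hlt
  rw [h1]
  omega

/-- The integer weights. -/
def wtU (D : ℕ) (c : Var m t n) : ℤ := -(3 * (D : ℤ) ^ wtE c)

theorem pow_aux {D e e' : ℕ} (hD : 2 ≤ D) (h : e' < e) :
    2 * (D : ℤ) ^ e' ≤ (D : ℤ) ^ e ∧ 1 ≤ (D : ℤ) ^ e' := by
  have h1 : 1 ≤ D ^ e' := Nat.one_le_pow _ _ (by omega)
  have h2 : 2 * D ^ e' ≤ D ^ e := by
    calc 2 * D ^ e' ≤ D * D ^ e' := Nat.mul_le_mul_right _ hD
      _ = D ^ (e' + 1) := by ring
      _ ≤ D ^ e := Nat.pow_le_pow_right (by omega) h
  constructor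
  · exact_mod_cast h2
  · exact_mod_cast h1

theorem wt_of_lex {p : ℕ} (D : ℕ) (hD : 2 ≤ D) (w : Fin p → Fin t → Var m t n)
    (hw : ∀ i j i' j', w i j < w i' j' ↔ (i < i' ∨ i = i' ∧ j < j')) :
    Wt fun i j => wtU D (w i j) := by
  constructor
  · intro i j j' hj
    have h1 := pow_aux hD (wtE_lt ((hw i j i j').2 (Or.inr ⟨rfl, hj⟩)))
    simp only [wtU]
    linarith [h1.1, h1.2]
  · intro i i' j j' hi hj
    have h1 := pow_aux hD (wtE_lt ((hw i j i j').2 (Or.inr ⟨rfl, hj⟩)))
    have h2 := pow_aux hD (wtE_lt ((hw i j' i' j).2 (Or.inl hi)))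
    have h3 : (0 : ℤ) ≤ (D : ℤ) ^ wtE (w i' j') := by positivity
    simp only [wtU]
    linarith [h1.1, h1.2, h2.1, h2.2]

end weights

section cond

theorem cond_of_good {r s : ℕ} (F : Finset (Var m t n)) (hF : Good r s F) :
    Cond 0 r s ((Finset.univ : Finset (Fin m × Fin t)).filter fun p => y p.1 p.2 ∈ F)
      ((Finset.univ : Finset (Fin n × Fin t)).filter fun p => z p.2 p.1 ∈ F) := by
  classical
  let ey : Fin m × Fin t ↪ Var m t n := ⟨fun p => y p.1 p.2, by
    intro p q h
    simp only [y.injEq] at h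
    exact Prod.ext h.1 h.2⟩
  let ez : Fin n × Fin t ↪ Var m t n := ⟨fun p => z p.2 p.1, by
    intro p q h
    simp only [z.injEq] at h
    exact Prod.ext h.2 h.1⟩
  have hey : ∀ {D : Finset (Fin m × Fin t)}, Ch D → VChain (D.map ey) := by
    intro D hD c hc c' hc' harc
    rw [Finset.mem_map] at hc hc'
    obtain ⟨p, hp, rfl⟩ := hc
    obtain ⟨q, hq, rfl⟩ := hc'
    have hne : p ≠ q := by
      rintro rfl
      exact Arc.irrefl harc
    simp only [ey, Arc] at harc
    rcases hD p hp q hq hne with h | h
    · exact absurd h.1 (not_lt.2 harc.1)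
    · exact absurd h.2 (not_lt.2 harc.2.1)
  have hez : ∀ {D : Finset (Fin n × Fin t)}, Ch D → VChain (D.map ez) := by
    intro D hD c hc c' hc' harc
    rw [Finset.mem_map] at hc hc'
    obtain ⟨p, hp, rfl⟩ := hc
    obtain ⟨q, hq, rfl⟩ := hc'
    have hne : p ≠ q := by
      rintro rfl
      exact Arc.irrefl harc
    simp only [ez, Arc] at harc
    rcases hD p hp q hq hne with h | h
    · exact absurd h.1 (not_lt.2 harc.1)
    · exact absurd h.2 (not_lt.2 harc.2.1)
  have hsy : ∀ {D : Finset (Fin m × Fin t)},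
      D ⊆ ((Finset.univ : Finset (Fin m × Fin t)).filter fun p => y p.1 p.2 ∈ F) →
      D.map ey ⊆ F := by
    intro D hD c hc
    rw [Finset.mem_map] at hc
    obtain ⟨p, hp, rfl⟩ := hc
    exact (Finset.mem_filter.1 (hD hp)).2
  have hsz : ∀ {D : Finset (Fin n × Fin t)},
      D ⊆ ((Finset.univ : Finset (Fin n × Fin t)).filter fun p => z p.2 p.1 ∈ F) →
      D.map ez ⊆ F := by
    intro D hD c hc
    rw [Finset.mem_map] at hc
    obtain ⟨p, hp, rfl⟩ := hc
    exact (Finset.mem_filter.1 (hD hp)).2
  refine ⟨fun _ _ => Nat.zero_le _, fun _ _ => Nat.zero_le _, ?_, ?_, ?_⟩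
  · intro D hD D' hD' hc hc' x _ hx hx'
    have hdisj : Disjoint (D.map ey) (D'.map ez) := by
      rw [Finset.disjoint_left]
      intro c hc hc'
      rw [Finset.mem_map] at hc hc'
      obtain ⟨p, hp, rfl⟩ := hc
      obtain ⟨q, hq, h⟩ := hc'
      exact absurd h (by simp [ey, ez])
    have h1 := hF.1 (D.map ey ∪ D'.map ez) (Finset.union_subset (hsy hD) (hsz hD')) ?_ x ?_
    · rw [Finset.card_union_of_disjoint hdisj, Finset.card_map, Finset.card_map] at h1
      omega
    · intro c hcc c' hcc' harc
      rw [Finset.mem_union] at hcc hcc'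
      rcases hcc with hcc | hcc
      · rcases hcc' with hcc' | hcc'
        · exact hey hc c hcc c' hcc' harc
        · rw [Finset.mem_map] at hcc hcc'
          obtain ⟨p, hp, rfl⟩ := hcc
          obtain ⟨q, hq, rfl⟩ := hcc'
          exact harc
      · rcases hcc' with hcc' | hcc'
        · rw [Finset.mem_map] at hcc hcc'
          obtain ⟨p, hp, rfl⟩ := hcc
          obtain ⟨q, hq, rfl⟩ := hcc'
          exact harc
        · exact hez hc' c hcc c' hcc' harc
    · intro c hcc
      rw [Finset.mem_union, Finset.mem_map, Finset.mem_map] at hcc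
      rcases hcc with ⟨p, hp, rfl⟩ | ⟨p, hp, rfl⟩
      · exact hx p hp
      · exact hx' p hp
  · intro D hD hc
    have h1 := hF.2.1 (D.map ey) (hsy hD) (hey hc) (by
      intro c hcc
      rw [Finset.mem_map] at hcc
      obtain ⟨p, hp, rfl⟩ := hcc
      rfl)
    rwa [Finset.card_map] at h1
  · intro D hD hc
    have h1 := hF.2.2 (D.map ez) (hsz hD) (hez hc) (by
      intro c hcc
      rw [Finset.mem_map] at hcc
      obtain ⟨p, hp, rfl⟩ := hcc
      rfl)
    rwa [Finset.card_map] at h1

end cond

section face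

variable {K : Type*} [Field K]

theorem val_prod {L ι : Type*} [Field L] (ν : AddValuation L (WithTop ℤ)) (s : Finset ι)
    (f : ι → L) : ν (∏ i ∈ s, f i) = ∑ i ∈ s, ν (f i) := by
  classical
  induction s using Finset.induction_on with
  | empty => simp
  | insert a s ha ih => rw [Finset.prod_insert ha, Finset.sum_insert ha, AddValuation.map_mul, ih]

theorem coe_sum_nsmul {ι : Type*} (s : Finset ι) (f : ι → ℤ) (b : ι → ℕ) :
    ∑ c ∈ s, b c • (f c : WithTop ℤ) = ((∑ c ∈ s, (b c : ℤ) * f c : ℤ) : WithTop ℤ) := by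
  classical
  induction s using Finset.induction_on with
  | empty => simp
  | insert a s ha ih =>
    rw [Finset.sum_insert ha, Finset.sum_insert ha, ih, WithTop.coe_add]
    congr 1

/-- No nonzero element of the ideal of the parametrization has a leading monomial supported on a
good set of variables. -/
theorem not_support_subset {r s : ℕ} (hrs : r + s ≤ t) (F : Finset (Var m t n))
    (hF : Good r s F) (g : MvPolynomial (Var m t n) K) (hg : g ∈ paramIdeal K m t n r s)
    (hg0 : g ≠ 0) : ¬ ((MonomialOrder.lex.degree g).support ⊆ F) := by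
  classical
  letI : Algebra K (HahnSeries ℤ K) := RingHom.toAlgebra (HahnSeries.C : K →+* HahnSeries ℤ K)
  intro hsupp
  set a := MonomialOrder.lex.degree g with ha
  -- a bound for the exponents
  obtain ⟨D, hD2, hD⟩ : ∃ D : ℕ, 2 ≤ D ∧ ∀ b ∈ g.support, ∀ c, b c < D := by
    refine ⟨g.support.sup (fun b => Finset.univ.sup fun c => b c) + 2, by omega, ?_⟩
    intro b hb c
    have h1 : b c ≤ Finset.univ.sup fun c => b c :=
      Finset.le_sup (f := fun c => b c) (Finset.mem_univ c)
    have h2 : (Finset.univ.sup fun c => b c) ≤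
        g.support.sup (fun b => Finset.univ.sup fun c => b c) :=
      Finset.le_sup (f := fun b : Var m t n →₀ ℕ => Finset.univ.sup fun c => b c) hb
    omega
  let U : Var m t n → ℤ := wtU D
  let ν : AddValuation (HahnSeries ℤ K) (WithTop ℤ) := HahnSeries.addVal ℤ K
  have htp : ∀ k : ℤ, ν (HahnSeries.single k (1 : K)) = (k : WithTop ℤ) := by
    intro k
    rw [HahnSeries.addVal_apply, HahnSeries.orderTop_single one_ne_zero]
  obtain ⟨A, B, g', h', P, Q, H⟩ := exists_pt (ν := ν) (tp := fun k => HahnSeries.single k (1 : K))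
    htp _ 0 r s
    (fun i j => U (y i j)) (fun k j => U (z j k))
    ((Finset.univ : Finset (Fin m × Fin t)).filter fun p => y p.1 p.2 ∈ F)
    ((Finset.univ : Finset (Fin n × Fin t)).filter fun p => z p.2 p.1 ∈ F)
    (wt_of_lex D hD2 (fun i j => (y i j : Var m t n)) fun i j i' j' => y_lt_y)
    (wt_of_lex D hD2 (fun k j => (z j k : Var m t n)) fun i j i' j' => z_lt_z) le_rfl
    (cond_of_good F hF)
  let pt : Var m t n → HahnSeries ℤ K := fun c => match c with
      | Var.y i j => (A * g') i j
      | Var.z j k => (B * h') k j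
  have hzero : aeval pt g = 0 :=
    aeval_eq_zero_of_mem hrs A B g' h' P Q H.inv H.disj H.cardP H.cardQ H.suppA H.suppB g hg
  -- valuations of the coordinates
  have hpt : ∀ c, (c ∈ F → ν (pt c) = (U c : WithTop ℤ)) ∧
      (c ∉ F → (U c : WithTop ℤ) < ν (pt c)) := by
    intro c
    cases c with
    | y i j =>
      have h1 := H.valY i j
      simp only [Finset.mem_filter, Finset.mem_univ, true_and] at h1
      exact h1
    | z j k =>
      have h1 := H.valX k j
      simp only [Finset.mem_filter, Finset.mem_univ, true_and] at h1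
      exact h1
  have hptle : ∀ c, (U c : WithTop ℤ) ≤ ν (pt c) := by
    intro c
    by_cases hc : c ∈ F
    · rw [(hpt c).1 hc]
    · exact ((hpt c).2 hc).le
  let W : (Var m t n →₀ ℕ) → ℤ := fun b => ∑ c, (b c : ℤ) * U c
  let term : (Var m t n →₀ ℕ) → HahnSeries ℤ K := fun b =>
    algebraMap K (HahnSeries ℤ K) (g.coeff b) * ∏ c, pt c ^ b c
  have hcoef : ∀ x : K, x ≠ 0 → ν (algebraMap K (HahnSeries ℤ K) x) = 0 := by
    intro x hx
    change ν (HahnSeries.C x) = 0
    rw [HahnSeries.addVal_apply]
    exact HahnSeries.orderTop_single hx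
  have hterm : ∀ b ∈ g.support, (W b : WithTop ℤ) ≤ ν (term b) := by
    intro b hb
    simp only [term, W]
    rw [AddValuation.map_mul, hcoef _ (mem_support_iff.1 hb), zero_add, val_prod,
      ← coe_sum_nsmul]
    refine Finset.sum_le_sum fun c _ => ?_
    rw [AddValuation.map_pow]
    exact nsmul_le_nsmul_right (hptle c) _
  have hterma : ν (term a) = (W a : WithTop ℤ) := by
    simp only [term, W]
    rw [AddValuation.map_mul, hcoef _ (MonomialOrder.lex.coeff_degree_ne_zero_iff.2 hg0), zero_add,
      val_prod, ← coe_sum_nsmul]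
    refine Finset.sum_congr rfl fun c _ => ?_
    rw [AddValuation.map_pow]
    by_cases hc : a c = 0
    · rw [hc, zero_smul, zero_smul]
    · rw [(hpt c).1 (hsupp (Finsupp.mem_support_iff.2 hc))]
  have hasupp : a ∈ g.support := MonomialOrder.degree_mem_support hg0
  have hW : ∀ b ∈ g.support.erase a, W a < W b := by
    intro b hb
    rw [Finset.mem_erase] at hb
    have hlt : toLex b < toLex a := by
      have h1 : toLex b ≤ toLex a := MonomialOrder.lex.le_degree hb.2
      exact lt_of_le_of_ne h1 (fun h => hb.1 (toLex.injective h))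
    have h2 := weight_lt D a b (hD b hb.2) hlt
    have h3 : ∀ b : Var m t n →₀ ℕ, W b = -(3 * ((∑ c, b c * D ^ wtE c : ℕ) : ℤ)) := by
      intro b
      simp only [W, U, wtU]
      push_cast
      rw [Finset.mul_sum, ← Finset.sum_neg_distrib]
      refine Finset.sum_congr rfl fun c _ => ?_
      ring
    rw [h3, h3]
    have h4 : ((∑ c, b c * D ^ wtE c : ℕ) : ℤ) < ((∑ c, a c * D ^ wtE c : ℕ) : ℤ) := by
      exact_mod_cast h2
    linarith
  have hsum : aeval pt g = term a + ∑ b ∈ g.support.erase a, term b := by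
    rw [aeval_def, eval₂_eq', ← Finset.add_sum_erase _ _ hasupp]
  have hrest : ν (term a) < ν (∑ b ∈ g.support.erase a, term b) := by
    rw [hterma]
    refine AddValuation.map_lt_sum' _ (WithTop.coe_lt_top _) fun b hb => ?_
    exact lt_of_lt_of_le (WithTop.coe_lt_coe.2 (hW b hb)) (hterm b (Finset.mem_of_mem_erase hb))
  have hval : ν (aeval pt g) = (W a : WithTop ℤ) := by
    rw [hsum, AddValuation.map_add_eq_of_lt_left _ hrest, hterma]
  rw [hzero, AddValuation.map_zero] at hval
  exact WithTop.top_ne_coe hval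

end face

end Pool.Agent.Helper50.VC
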