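import Pool.Agent.Helper50.VC.Lead

set_option autoImplicit false

/-! # Divided derivatives and symbolic powers -/

namespace Pool.Agent.Helper50.VC

open Finset MvPolynomial

section taylor

variable {σ K : Type*} [Field K] [DecidableEq σ]

/-- The Taylor expansion in the variable `c`. -/
noncomputable def tay (c : σ) : MvPolynomial σ K →ₐ[K] Polynomial (MvPolynomial σ K) :=
  aeval fun d => if d = c then Polynomial.X + Polynomial.C (X c) else Polynomial.C (X d)

theorem tay_coeff_zero (c : σ) (f : MvPolynomial σ K) : (tay c f).coeff 0 = f := by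
  have h : (Polynomial.constantCoeff.comp (tay c).toRingHom : MvPolynomial σ K →+*
      MvPolynomial σ K) = RingHom.id _ := by
    refine MvPolynomial.ringHom_ext ?_ ?_
    · intro r
      simp [tay]
    · intro d
      by_cases hd : d = c
      · subst hd
        simp [tay]
      · simp [tay, hd]
  have := congrArg (fun φ : MvPolynomial σ K →+* MvPolynomial σ K => φ f) h
  simpa using this

/-- The ideal of the polynomials with coefficient `j` in the symbolic power of exponent `k - j`. -/
def coeffIdeal {R : Type*} [CommRing R] (P : Ideal R) [P.IsPrime] (k : ℕ) :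
    Ideal (Polynomial R) where
  carrier := {h | ∀ j, h.coeff j ∈ symbolicPower P (k - j)}
  add_mem' := by
    intro f g hf hg j
    rw [Polynomial.coeff_add]
    exact Ideal.add_mem _ (hf j) (hg j)
  zero_mem' := by
    intro j
    simp
  smul_mem' := by
    intro c f hf j
    rw [smul_eq_mul, Polynomial.coeff_mul]
    refine Ideal.sum_mem _ fun p hp => ?_
    rw [Finset.HasAntidiagonal.mem_antidiagonal] at hp
    refine Ideal.mul_mem_left _ _ (symbolicPower_anti P ?_ (hf _))
    omega

theorem mul_mem_coeffIdeal {R : Type*} [CommRing R] (P : Ideal R) [P.IsPrime] {k l : ℕ}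
    {f g : Polynomial R} (hf : f ∈ coeffIdeal P k) (hg : g ∈ coeffIdeal P l) :
    f * g ∈ coeffIdeal P (k + l) := by
  intro j
  rw [Polynomial.coeff_mul]
  refine Ideal.sum_mem _ fun p hp => ?_
  rw [Finset.HasAntidiagonal.mem_antidiagonal] at hp
  refine symbolicPower_anti P ?_ (mul_mem_symbolicPower P (hf p.1) (hg p.2))
  omega

theorem tay_pow_le (P : Ideal (MvPolynomial σ K)) [P.IsPrime] (c : σ) (k : ℕ) :
    ∀ f ∈ P ^ k, tay c f ∈ coeffIdeal P k := by
  induction k with
  | zero =>
    intro f _ j
    rw [Nat.zero_sub, symbolicPower_zero]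
    trivial
  | succ k ih =>
    intro f hf
    rw [pow_succ] at hf
    refine Submodule.mul_induction_on hf ?_ ?_
    · intro a ha b hb
      rw [map_mul]
      refine mul_mem_coeffIdeal P (ih a ha) ?_
      intro j
      rcases Nat.eq_zero_or_pos j with rfl | hj
      · rw [tay_coeff_zero, Nat.sub_zero, symbolicPower_one]
        exact hb
      · have : 1 - j = 0 := by omega
        rw [this, symbolicPower_zero]
        trivial
    · intro a b ha hb
      rw [map_add]
      exact Ideal.add_mem _ ha hb

theorem tay_mem (P : Ideal (MvPolynomial σ K)) [P.IsPrime] (c : σ) {k : ℕ}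
    {f : MvPolynomial σ K} (hf : f ∈ symbolicPower P k) (j : ℕ) :
    (tay c f).coeff j ∈ symbolicPower P (k - j) := by
  obtain ⟨s, hs, hsf⟩ := (mem_symbolicPower P).1 hf
  induction j using Nat.strong_induction_on with
  | _ j ih =>
    refine symbolicPower_cancel P hs ?_
    have h1 := tay_pow_le P c k _ hsf j
    rw [map_mul, Polynomial.coeff_mul] at h1
    have h0 : (0, j) ∈ Finset.HasAntidiagonal.antidiagonal j := by
      rw [Finset.HasAntidiagonal.mem_antidiagonal, zero_add]
    rw [← Finset.add_sum_erase _ _ h0] at h1
    simp only [tay_coeff_zero] at h1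
    have h2 : ∑ x ∈ (Finset.HasAntidiagonal.antidiagonal j).erase (0, j),
        (tay c s).coeff x.1 * (tay c f).coeff x.2 ∈ symbolicPower P (k - j) := by
      refine Ideal.sum_mem _ fun x hx => ?_
      rw [Finset.mem_erase, Finset.HasAntidiagonal.mem_antidiagonal] at hx
      have hlt : x.2 < j := by
        rcases Nat.eq_zero_or_pos x.1 with h | h
        · exfalso
          apply hx.1
          ext
          · exact h
          · simp only
            omega
        · omega
      exact Ideal.mul_mem_left _ _ (symbolicPower_anti P (by omega) (ih x.2 hlt))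
    have h3 := Ideal.sub_mem _ h1 h2
    simpa using h3

theorem tay_monomial (c : σ) (b : σ →₀ ℕ) (r : K) (j : ℕ) :
    (tay c (monomial b r)).coeff j =
      monomial (b.erase c + Finsupp.single c (b c - j)) (r * ((b c).choose j : K)) := by
  have h1 : (monomial b r : MvPolynomial σ K) = monomial (b.erase c) r * X c ^ b c := by
    rw [X_pow_eq_monomial, monomial_mul, mul_one, Finsupp.erase_add_single]
  have h2 : tay c (monomial (b.erase c) r : MvPolynomial σ K) =
      Polynomial.C (monomial (b.erase c) r) := by
    unfold tay
    rw [aeval_monomial]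
    have h3 : (Finsupp.prod (b.erase c) fun d k =>
        (if d = c then Polynomial.X + Polynomial.C (X c : MvPolynomial σ K)
          else Polynomial.C (X d)) ^ k) =
        Finsupp.prod (b.erase c) fun d k => (Polynomial.C (X d : MvPolynomial σ K)) ^ k := by
      refine Finsupp.prod_congr fun d hd => ?_
      have hdc : d ≠ c := by
        rintro rfl
        simp at hd
      rw [if_neg hdc]
    rw [h3, monomial_eq, Polynomial.C_mul]
    congr 1
    rw [Finsupp.prod, Finsupp.prod, map_prod]
    refine Finset.prod_congr rfl fun d _ => ?_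
    rw [map_pow]
  have h4 : tay c (X c : MvPolynomial σ K) = Polynomial.X + Polynomial.C (X c) := by
    unfold tay
    rw [aeval_X, if_pos rfl]
  rw [h1, map_mul, map_pow, h2, h4, Polynomial.coeff_C_mul, Polynomial.coeff_X_add_C_pow]
  rw [X_pow_eq_monomial, ← map_natCast (C : K →+* MvPolynomial σ K),
    mul_comm (monomial (Finsupp.single c (b c - j)) (1 : K)) (C _), C_mul_monomial,
    monomial_mul, mul_one]

end taylor

section lex

variable {σ K : Type*} [LinearOrder σ] [WellFoundedGT σ] [Field K]

theorem tay_coeff_degree (c : σ) (f : MvPolynomial σ K) (hf : f ≠ 0) :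
    (tay c f).coeff (MonomialOrder.lex.degree f c) ≠ 0 ∧
      MonomialOrder.lex.degree ((tay c f).coeff (MonomialOrder.lex.degree f c)) =
        (MonomialOrder.lex.degree f).erase c := by
  classical
  set a := MonomialOrder.lex.degree f with ha
  have hsum : (tay c f).coeff (a c) = ∑ b ∈ f.support,
      monomial (b.erase c + Finsupp.single c (b c - a c)) (f.coeff b * ((b c).choose (a c) : K)) := by
    conv_lhs => rw [f.as_sum]
    rw [map_sum, Polynomial.finsetSum_coeff]
    refine Finset.sum_congr rfl fun b _ => ?_
    rw [tay_monomial]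
  have hle : ∀ b ∈ f.support, toLex b ≤ toLex a := fun b hb => MonomialOrder.lex.le_degree hb
  have hcoef : ∀ e, coeff e ((tay c f).coeff (a c)) ≠ 0 → toLex e ≤ toLex (a.erase c) := by
    intro e he
    rw [hsum, coeff_sum] at he
    obtain ⟨b, hb, hne⟩ := Finset.exists_ne_zero_of_sum_ne_zero he
    rw [coeff_monomial] at hne
    split_ifs at hne with h
    · have hch : a c ≤ b c := by
        by_contra hlt
        rw [Nat.choose_eq_zero_of_lt (not_le.1 hlt)] at hne
        simp at hne
      have h1 : e + Finsupp.single c (a c) = b := by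
        rw [← h, add_assoc, ← Finsupp.single_add, Nat.sub_add_cancel hch, Finsupp.erase_add_single]
      have h2 : toLex (e + Finsupp.single c (a c)) ≤
          toLex (a.erase c + Finsupp.single c (a c)) := by
        rw [h1, Finsupp.erase_add_single]
        exact hle b hb
      rw [toLex_add, toLex_add] at h2
      by_contra hcon
      exact absurd h2 (not_le.2 (lexAdd_lt (not_le.1 hcon) le_rfl))
    · exact absurd rfl hne
  have htop : coeff (a.erase c) ((tay c f).coeff (a c)) = f.coeff a := by
    rw [hsum, coeff_sum, Finset.sum_eq_single a]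
    · rw [coeff_monomial, if_pos, Nat.choose_self, Nat.cast_one, mul_one]
      simp
    · intro b hb hne
      rw [coeff_monomial]
      split_ifs with h
      · by_cases hch : a c ≤ b c
        · exfalso
          apply hne
          have h1 := DFunLike.congr_fun h c
          simp only [Finsupp.coe_add, Pi.add_apply, Finsupp.erase_same, Finsupp.single_eq_same,
            zero_add] at h1
          ext d
          by_cases hd : d = c
          · subst hd
            omega
          · have h2 := DFunLike.congr_fun h d
            simpa [Finsupp.erase_ne hd, Finsupp.single_apply, Ne.symm hd] using h2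
        · rw [Nat.choose_eq_zero_of_lt (not_le.1 hch)]
          simp
      · rfl
    · intro h
      rw [notMem_support_iff] at h
      rw [h, zero_mul, monomial_zero, coeff_zero]
  have hne : f.coeff a ≠ 0 := by
    rw [ha]
    exact MonomialOrder.lex.coeff_degree_ne_zero_iff.2 hf
  have hne' : (tay c f).coeff (a c) ≠ 0 := by
    intro h
    rw [h, coeff_zero] at htop
    exact hne htop.symm
  refine ⟨hne', ?_⟩
  apply MonomialOrder.lex.toSyn.injective
  apply le_antisymm
  · rw [MonomialOrder.degree_le_iff]
    intro e he
    exact hcoef e (mem_support_iff.1 he)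
  · apply MonomialOrder.le_degree
    rw [mem_support_iff, htop]
    exact hne

/-- Differentiating away the variables in `C`. -/
theorem exists_restrict (P : Ideal (MvPolynomial σ K)) [P.IsPrime] {k : ℕ}
    {f : MvPolynomial σ K} (hf : f ∈ symbolicPower P k) (hf0 : f ≠ 0) (C : Finset σ) :
    ∃ g, g ≠ 0 ∧ g ∈ symbolicPower P (k - ∑ c ∈ C, MonomialOrder.lex.degree f c) ∧
      MonomialOrder.lex.degree g = (MonomialOrder.lex.degree f).filter fun c => c ∉ C := by
  classical
  induction C using Finset.induction_on with
  | empty =>
    refine ⟨f, hf0, by simpa using hf, ?_⟩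
    ext c
    simp
  | insert c C hc ih =>
    obtain ⟨g, hg0, hg, hdeg⟩ := ih
    have hgc : MonomialOrder.lex.degree g c = MonomialOrder.lex.degree f c := by
      rw [hdeg, Finsupp.filter_apply, if_pos hc]
    obtain ⟨h1, h2⟩ := tay_coeff_degree c g hg0
    refine ⟨_, h1, ?_, ?_⟩
    · have := tay_mem P c hg (MonomialOrder.lex.degree g c)
      rw [Finset.sum_insert hc]
      refine symbolicPower_anti P ?_ this
      rw [hgc]
      omega
    · rw [h2, hdeg]
      ext d
      by_cases hd : d = c
      · subst hd
        simp
      · rw [Finsupp.erase_ne hd, Finsupp.filter_apply, Finsupp.filter_apply]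
        simp [hd]

/-- If no element of `P` has a leading monomial supported on `F`, then the leading monomials of the
elements of the `k`-th symbolic power have degree at least `k` outside of `F`. -/
theorem le_sum_compl [Fintype σ] (P : Ideal (MvPolynomial σ K)) [P.IsPrime] (F : Finset σ)
    (hF : ∀ g ∈ P, g ≠ 0 → ¬ ((MonomialOrder.lex.degree g).support ⊆ F)) {k : ℕ}
    {f : MvPolynomial σ K} (hf : f ∈ symbolicPower P k) (hf0 : f ≠ 0) :
    k ≤ ∑ c ∈ Fᶜ, MonomialOrder.lex.degree f c := by
  classical
  obtain ⟨g, hg0, hg, hdeg⟩ := exists_restrict P hf hf0 Fᶜ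
  by_contra hlt
  push Not at hlt
  have hgP : g ∈ P := symbolicPower_le P (k := k - ∑ c ∈ Fᶜ, MonomialOrder.lex.degree f c)
    (by omega) hg
  refine hF g hgP hg0 ?_
  intro c hc
  rw [hdeg, Finsupp.support_filter, Finset.mem_filter] at hc
  simpa using hc.2

end lex

end Pool.Agent.Helper50.VC
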