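import Pool.Agent.Helper50.VC.Decomp
import Pool.Agent.Helper50.VC.Elements
import Pool.Agent.Helper50.VC.Hasse
import Pool.Agent.Helper50.VC.Face

set_option autoImplicit false

/-! # Finite generation of the symbolic Rees algebra -/

namespace Pool.Agent.Helper50.VC

open Finset MvPolynomial Var

variable (K : Type*) [Field K] {m t n : ℕ} (r s : ℕ)

open Classical in
/-- The explicit element with leading monomial the product of the chain `D`. -/
noncomputable def el (D : Finset (Var m t n)) : MvPolynomial (Var m t n) K :=
  if h : VChain D then (exists_element K r s D h).choose else 0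

variable {K r s}

theorem el_lead {D : Finset (Var m t n)} (hD : VChain D) :
    Lead (el K r s D) (∑ c ∈ D, Finsupp.single c 1) := by
  unfold el
  rw [dif_pos hD]
  exact (exists_element K r s D hD).choose_spec.1

theorem el_mem_complexIdeal (D : Finset (Var m t n)) (h1 : 1 ≤ val r s D) :
    el K r s D ∈ complexIdeal K m t n r s := by
  unfold el
  split_ifs with hD
  · exact (exists_element K r s D hD).choose_spec.2.1 h1
  · exact Ideal.zero_mem _

theorem el_mem_symbolicPower (hrs : r + s ≤ t) (D : Finset (Var m t n)) :
    el K r s D ∈ symbolicPower (paramIdeal K m t n r s) (val r s D) := by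
  unfold el
  split_ifs with hD
  · exact (exists_element K r s D hD).choose_spec.2.2 _ (complexIdeal_le_paramIdeal K m t n r s)
      (fun h => minorY_notMem hrs h) (fun h => minorZ_notMem hrs h)
  · exact Ideal.zero_mem _

theorem exists_le_sum_eq {ι : Type*} (s : Finset ι) (v : ι → ℕ) (k : ℕ) (h : k ≤ ∑ i ∈ s, v i) :
    ∃ j : ι → ℕ, (∀ i, j i ≤ v i) ∧ ∑ i ∈ s, j i = k := by
  classical
  induction s using Finset.induction_on generalizing k with
  | empty =>
    refine ⟨fun _ => 0, fun _ => Nat.zero_le _, ?_⟩
    rw [Finset.sum_empty] at h ⊢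
    omega
  | insert a s ha ih =>
    rw [Finset.sum_insert ha] at h
    obtain ⟨j, hj, hsum⟩ := ih (k - v a) (by omega)
    refine ⟨fun i => if i = a then min k (v a) else j i, fun i => ?_, ?_⟩
    · simp only
      split_ifs with hi
      · rw [hi]
        exact min_le_right _ _
      · exact hj i
    · rw [Finset.sum_insert ha, if_pos rfl]
      have h1 : ∑ i ∈ s, (if i = a then min k (v a) else j i) = ∑ i ∈ s, j i := by
        refine Finset.sum_congr rfl fun i hi => ?_
        rw [if_neg]
        rintro rfl
        exact ha hi
      rw [h1, hsum]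
      omega

variable (K m t n r s)

/-- The generators of the symbolic Rees algebra. -/
noncomputable def gens : Set (Polynomial (MvPolynomial (Var m t n) K)) :=
  {h | ∃ (D : Finset (Var m t n)) (j : ℕ), j ≤ val r s D ∧ h = Polynomial.monomial j (el K r s D)}

theorem gens_finite : (gens K m t n r s).Finite := by
  classical
  have h : gens K m t n r s ⊆ ((Finset.univ : Finset (Finset (Var m t n))).biUnion fun D =>
      (Finset.range (val r s D + 1)).image fun j => Polynomial.monomial j (el K r s D) :
      Finset (Polynomial (MvPolynomial (Var m t n) K))) := by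
    rintro h ⟨D, j, hj, rfl⟩
    rw [Finset.mem_coe, Finset.mem_biUnion]
    refine ⟨D, Finset.mem_univ _, ?_⟩
    rw [Finset.mem_image]
    exact ⟨j, Finset.mem_range.2 (by omega), rfl⟩
  exact (Finset.finite_toSet _).subset h

variable {K m t n r s}

theorem monomial_mem_adjoin (hrs : r + s ≤ t) (k : ℕ) (d : Lex (Var m t n →₀ ℕ)) :
    ∀ f : MvPolynomial (Var m t n) K, f ∈ symbolicPower (paramIdeal K m t n r s) k →
      toLex (MonomialOrder.lex.degree f) = d →
      Polynomial.monomial k f ∈ Algebra.adjoin (MvPolynomial (Var m t n) K)
        (gens K m t n r s) := by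
  classical
  induction d using WellFoundedLT.induction with
  | _ d ih =>
    intro f hf hd
    by_cases hf0 : f = 0
    · rw [hf0, Polynomial.monomial_zero_right]
      exact Subalgebra.zero_mem _
    set a := MonomialOrder.lex.degree f with ha
    obtain ⟨Θ, D, hchain, hcount, hk⟩ := exists_decomposition r s (fun c => a c) k (by
      intro F hF
      have h1 := le_sum_compl (paramIdeal K m t n r s) F
        (fun g hg hg0 => not_support_subset hrs F hF g hg hg0) hf hf0
      refine h1.trans (le_of_eq (Finset.sum_congr ?_ fun _ _ => rfl))
      ext c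
      simp only [Finset.mem_compl])
    obtain ⟨j, hj, hjsum⟩ := exists_le_sum_eq Θ (fun θ => val r s (D θ)) k hk
    -- the exponent of the product of the chains
    let e : Var m t n →₀ ℕ := ∑ θ ∈ Θ, ∑ c ∈ D θ, Finsupp.single c 1
    have he : e ≤ a := by
      intro c
      have h1 : e c = (Θ.filter fun θ => c ∈ D θ).card := by
        simp only [e]
        rw [Finsupp.finsetSum_apply, Finset.card_filter]
        refine Finset.sum_congr rfl fun θ _ => ?_
        rw [Finsupp.finsetSum_apply]
        simp [Finsupp.single_apply]
      rw [h1]
      exact hcount c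
    let G : MvPolynomial (Var m t n) K := monomial (a - e) 1 * ∏ θ ∈ Θ, el K r s (D θ)
    have hG : Lead G a := by
      have h1 : a = (a - e) + e := (tsub_add_cancel_of_le he).symm
      conv_rhs => rw [h1]
      exact (lead_monomial _).mul (lead_prod _ _ _ fun θ hθ => el_lead (hchain θ hθ))
    have hGmem : G ∈ symbolicPower (paramIdeal K m t n r s) k := by
      refine Ideal.mul_mem_left _ _ ?_
      have h1 : ∀ Θ' : Finset ℤ, ∏ θ ∈ Θ', el K r s (D θ) ∈
          symbolicPower (paramIdeal K m t n r s) (∑ θ ∈ Θ', val r s (D θ)) := by
        intro Θ'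
        induction Θ' using Finset.induction_on with
        | empty =>
          rw [Finset.sum_empty, symbolicPower_zero]
          trivial
        | insert θ Θ' hθ ih =>
          rw [Finset.prod_insert hθ, Finset.sum_insert hθ]
          exact mul_mem_symbolicPower _ (el_mem_symbolicPower hrs _) ih
      exact symbolicPower_anti _ hk (h1 Θ)
    have hGadj : Polynomial.monomial k G ∈ Algebra.adjoin (MvPolynomial (Var m t n) K)
        (gens K m t n r s) := by
      have h1 : ∀ Θ' : Finset ℤ, Polynomial.monomial (∑ θ ∈ Θ', j θ) (∏ θ ∈ Θ', el K r s (D θ)) =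
          ∏ θ ∈ Θ', Polynomial.monomial (j θ) (el K r s (D θ)) := by
        intro Θ'
        induction Θ' using Finset.induction_on with
        | empty =>
          simp
        | insert θ Θ' hθ ih =>
          rw [Finset.prod_insert hθ, Finset.sum_insert hθ, Finset.prod_insert hθ, ← ih,
            Polynomial.monomial_mul_monomial]
      have h2 : Polynomial.monomial k G = algebraMap (MvPolynomial (Var m t n) K) _
          (monomial (a - e) 1) * ∏ θ ∈ Θ, Polynomial.monomial (j θ) (el K r s (D θ)) := by
        rw [← h1, hjsum]
        simp only [G]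
        rw [Polynomial.algebraMap_apply, Algebra.algebraMap_self_apply, Polynomial.C_mul_monomial]
      rw [h2]
      refine Subalgebra.mul_mem _ (Subalgebra.algebraMap_mem _ _) (Subalgebra.prod_mem _ ?_)
      intro θ _
      exact Algebra.subset_adjoin ⟨D θ, j θ, hj θ, rfl⟩
    -- subtract
    let f' : MvPolynomial (Var m t n) K := f - C (f.coeff a) * G
    have hf'mem : f' ∈ symbolicPower (paramIdeal K m t n r s) k :=
      Ideal.sub_mem _ hf (Ideal.mul_mem_left _ _ hGmem)
    have hf'adj : Polynomial.monomial k f' ∈ Algebra.adjoin (MvPolynomial (Var m t n) K)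
        (gens K m t n r s) := by
      by_cases hf'0 : f' = 0
      · rw [hf'0, Polynomial.monomial_zero_right]
        exact Subalgebra.zero_mem _
      refine ih _ ?_ f' hf'mem rfl
      rw [← hd]
      have h1 : f'.coeff (MonomialOrder.lex.degree f') ≠ 0 :=
        MonomialOrder.lex.coeff_degree_ne_zero_iff.2 hf'0
      have h2 : ∀ e, f'.coeff e ≠ 0 → toLex e < toLex a := by
        intro e he
        have h3 : e ≠ a := by
          rintro rfl
          apply he
          simp only [f']
          rw [coeff_sub, coeff_C_mul, hG.1, mul_one, sub_self]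
        have h4 : toLex e ≤ toLex a := by
          by_cases h5 : f.coeff e = 0
          · apply hG.2
            intro h6
            apply he
            simp only [f']
            rw [coeff_sub, coeff_C_mul, h5, h6, mul_zero, sub_self]
          · exact MonomialOrder.lex.le_degree (mem_support_iff.2 h5)
        exact lt_of_le_of_ne h4 fun h => h3 (toLex.injective h)
      exact h2 _ h1
    have hsplit : Polynomial.monomial k f = Polynomial.monomial k f' +
        algebraMap (MvPolynomial (Var m t n) K) _ (C (f.coeff a)) * Polynomial.monomial k G := by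
      rw [Polynomial.algebraMap_apply, Algebra.algebraMap_self_apply, Polynomial.C_mul_monomial,
        ← map_add]
      congr 1
      simp only [f']
      ring
    rw [hsplit]
    exact Subalgebra.add_mem _ hf'adj (Subalgebra.mul_mem _ (Subalgebra.algebraMap_mem _ _) hGadj)

theorem symbolicRees_eq_adjoin (hrs : r + s ≤ t) :
    symbolicRees (paramIdeal K m t n r s) =
      Algebra.adjoin (MvPolynomial (Var m t n) K) (gens K m t n r s) := by
  apply le_antisymm
  · intro f hf
    rw [mem_symbolicRees] at hf
    rw [f.as_sum_support]
    exact Subalgebra.sum_mem _ fun k _ => monomial_mem_adjoin hrs k _ _ (hf k) rfl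
  · rw [Algebra.adjoin_le_iff]
    rintro h ⟨D, j, hj, rfl⟩
    rw [SetLike.mem_coe, mem_symbolicRees]
    intro k
    rw [Polynomial.coeff_monomial]
    split_ifs with hjk
    · rw [← hjk]
      exact symbolicPower_anti _ hj (el_mem_symbolicPower hrs D)
    · exact Ideal.zero_mem _

/-- The polynomials with the coefficients of positive degree in an ideal. -/
def posSub {R : Type*} [CommRing R] (I : Ideal R) : Subalgebra R (Polynomial R) where
  carrier := {h | ∀ k, 1 ≤ k → h.coeff k ∈ I}
  mul_mem' := by
    intro f g hf hg k hk
    rw [Polynomial.coeff_mul]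
    refine Ideal.sum_mem _ fun p hp => ?_
    rw [Finset.HasAntidiagonal.mem_antidiagonal] at hp
    rcases Nat.eq_zero_or_pos p.1 with h | h
    · exact Ideal.mul_mem_left _ _ (hg _ (by omega))
    · exact Ideal.mul_mem_right _ _ (hf _ h)
  add_mem' := by
    intro f g hf hg k hk
    rw [Polynomial.coeff_add]
    exact Ideal.add_mem _ (hf k hk) (hg k hk)
  algebraMap_mem' := by
    intro a k hk
    rw [Polynomial.algebraMap_apply, Algebra.algebraMap_self_apply, Polynomial.coeff_C,
      if_neg (by omega)]
    exact Ideal.zero_mem _

theorem paramIdeal_eq (hrs : r + s ≤ t) :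
    paramIdeal K m t n r s = complexIdeal K m t n r s := by
  apply le_antisymm
  · intro f hf
    have h1 : f ∈ symbolicPower (paramIdeal K m t n r s) 1 := by
      rw [symbolicPower_one]
      exact hf
    have h2 := monomial_mem_adjoin hrs 1 _ f h1 rfl
    have h3 : Algebra.adjoin (MvPolynomial (Var m t n) K) (gens K m t n r s) ≤
        posSub (complexIdeal K m t n r s) := by
      rw [Algebra.adjoin_le_iff]
      rintro h ⟨D, j, hj, rfl⟩ k hk
      rw [Polynomial.coeff_monomial]
      split_ifs with hjk
      · exact el_mem_complexIdeal D (by omega)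
      · exact Ideal.zero_mem _
    have h4 := h3 h2 1 le_rfl
    rwa [Polynomial.coeff_monomial, if_pos rfl] at h4
  · exact complexIdeal_le_paramIdeal K m t n r s

theorem noetherian_of_eq {R : Type*} [CommRing R] (I J : Ideal R) [hJ : J.IsPrime] (h : J = I)
    (hN : IsNoetherianRing (symbolicRees J)) :
    ∃ _ : I.IsPrime, IsNoetherianRing (symbolicRees I) ∧ IsNoetherianRing (SymbolicGr I) := by
  subst h
  exact ⟨hJ, hN, inferInstance⟩

/-- The symbolic Rees algebra and the symbolic associated graded algebra of the ideal of a variety
of complexes are Noetherian. -/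
theorem main (K : Type*) [Field K] (m t n r s : ℕ) (hrs : r + s ≤ t) :
    ∃ _ : (complexIdeal K m t n r s).IsPrime,
      IsNoetherianRing (symbolicRees (complexIdeal K m t n r s)) ∧
      IsNoetherianRing (SymbolicGr (complexIdeal K m t n r s)) := by
  refine noetherian_of_eq _ (paramIdeal K m t n r s) (paramIdeal_eq hrs) ?_
  have hfg : (symbolicRees (paramIdeal K m t n r s)).FG := by
    rw [symbolicRees_eq_adjoin hrs]
    exact ⟨(gens_finite K m t n r s).toFinset, by rw [Set.Finite.coe_toFinset]⟩
  exact isNoetherianRing_of_fg hfg

end Pool.Agent.Helper50.VC
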