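import Pool.Agent.Helper50.VC.Defs
import Pool.Agent.Helper50.VC.DetPow

set_option autoImplicit false

/-! # Minors -/

namespace Pool.Agent.Helper50.VC

open Finset

section general

variable {R : Type*} [CommRing R] {a b : ℕ}

theorem exists_perm_of_injective {k : ℕ} (f : Fin k → Fin a) (hf : Function.Injective f) :
    ∃ (σ : Equiv.Perm (Fin k)) (f' : Fin k ↪o Fin a), f = f' ∘ σ := by
  let σ := Tuple.sort f
  have hmono : Monotone (f ∘ σ) := Tuple.monotone_sort f
  have hst : StrictMono (f ∘ σ) := hmono.strictMono_of_injective (hf.comp σ.injective)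
  refine ⟨σ⁻¹, OrderEmbedding.ofStrictMono _ hst, ?_⟩
  funext x
  simp [OrderEmbedding.ofStrictMono]

theorem det_submatrix_mem (A : Matrix (Fin a) (Fin b) R) {k : ℕ} (f : Fin k → Fin a)
    (g : Fin k → Fin b) : (A.submatrix f g).det ∈ minorsIdeal k A := by
  by_cases hf : Function.Injective f
  · by_cases hg : Function.Injective g
    · obtain ⟨σ, f', rfl⟩ := exists_perm_of_injective f hf
      obtain ⟨τ, g', rfl⟩ := exists_perm_of_injective g hg
      have h1 : A.submatrix (f' ∘ σ) (g' ∘ τ) = ((A.submatrix f' g').submatrix σ id).submatrix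
          id τ := by
        ext i j; rfl
      rw [h1, Matrix.det_permute', Matrix.det_permute]
      exact Ideal.mul_mem_left _ _ (Ideal.mul_mem_left _ _ (Ideal.subset_span ⟨f', g', rfl⟩))
    · simp only [Function.Injective] at hg
      push Not at hg
      obtain ⟨i, j, hij, hne⟩ := hg
      rw [Matrix.det_zero_of_column_eq hne]
      · exact Ideal.zero_mem _
      · intro k
        simp [hij]
  · simp only [Function.Injective] at hf
    push Not at hf
    obtain ⟨i, j, hij, hne⟩ := hf
    rw [Matrix.det_zero_of_row_eq hne]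
    · exact Ideal.zero_mem _
    · funext k
      simp [hij]

theorem minorsIdeal_succ_le (A : Matrix (Fin a) (Fin b) R) (k : ℕ) :
    minorsIdeal (k + 1) A ≤ minorsIdeal k A := by
  unfold minorsIdeal
  rw [Ideal.span_le]
  rintro x ⟨f, g, rfl⟩
  rw [Matrix.det_succ_row_zero]
  refine Ideal.sum_mem _ fun j _ => ?_
  refine Ideal.mul_mem_left _ _ ?_
  rw [Matrix.submatrix_submatrix]
  exact det_submatrix_mem A _ _

theorem minorsIdeal_anti (A : Matrix (Fin a) (Fin b) R) {k l : ℕ} (h : k ≤ l) :
    minorsIdeal l A ≤ minorsIdeal k A := by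
  induction l, h using Nat.le_induction with
  | base => exact le_rfl
  | succ l _ ih => exact (minorsIdeal_succ_le A l).trans ih

theorem minorsIdeal_transpose (A : Matrix (Fin a) (Fin b) R) (k : ℕ) :
    minorsIdeal k A.transpose = minorsIdeal k A := by
  unfold minorsIdeal
  congr 1
  ext x
  constructor
  · rintro ⟨f, g, rfl⟩
    refine ⟨g, f, ?_⟩
    rw [← Matrix.det_transpose]
    rfl
  · rintro ⟨f, g, rfl⟩
    refine ⟨g, f, ?_⟩
    rw [← Matrix.det_transpose]
    rfl

end general

section rowMat

variable {R : Type*} [CommRing R] {m t : ℕ}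

/-- The `t × t` matrix whose row `j` is the row `a j` of `Y`, and the unit row `e_j` if `a j` is not
defined. -/
def rowMat (Y : Matrix (Fin m) (Fin t) R) (a : Fin t → Option (Fin m)) :
    Matrix (Fin t) (Fin t) R :=
  Matrix.of fun j l => (a j).elim (if j = l then 1 else 0) fun i => Y i l

theorem rowMat_none {Y : Matrix (Fin m) (Fin t) R} {a : Fin t → Option (Fin m)} {j : Fin t}
    (h : a j = none) (l : Fin t) : rowMat Y a j l = if j = l then 1 else 0 := by
  simp [rowMat, h]

theorem rowMat_some {Y : Matrix (Fin m) (Fin t) R} {a : Fin t → Option (Fin m)} {j : Fin t}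
    {i : Fin m} (h : a j = some i) (l : Fin t) : rowMat Y a j l = Y i l := by
  simp [rowMat, h]

/-- The indices at which `a` is defined. -/
def dom (a : Fin t → Option (Fin m)) : Finset (Fin t) := Finset.univ.filter fun j => (a j).isSome

theorem mem_dom {a : Fin t → Option (Fin m)} {j : Fin t} : j ∈ dom a ↔ (a j).isSome := by
  simp [dom]

theorem notMem_dom {a : Fin t → Option (Fin m)} {j : Fin t} : j ∉ dom a ↔ a j = none := by
  rw [mem_dom]; cases a j <;> simp

/-- `a` is strictly increasing where it is defined. -/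
def IsInc (a : Fin t → Option (Fin m)) : Prop :=
  ∀ j j' i i', a j = some i → a j' = some i' → j < j' → i < i'

theorem IsInc.card_le {a : Fin t → Option (Fin m)} (ha : IsInc a) : (dom a).card ≤ m := by
  classical
  have h : ∀ j ∈ dom a, ∃ i, a j = some i := fun j hj => Option.isSome_iff_exists.1 (mem_dom.1 hj)
  have hinj : Set.InjOn a (dom a) := by
    intro j hj j' hj' hjj
    obtain ⟨i, hi⟩ := h j hj
    have hi' : a j' = some i := by rw [← hjj, hi]
    rcases lt_trichotomy j j' with h | h | h
    · exact absurd (ha j j' _ _ hi hi' h) (lt_irrefl _)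
    · exact h
    · exact absurd (ha j' j _ _ hi' hi h) (lt_irrefl _)
  have := Finset.card_le_card_of_injOn
    (t := (Finset.univ : Finset (Fin m)).map Function.Embedding.some) a
    (fun j hj => by
      obtain ⟨i, hi⟩ := h j hj
      simp [hi]) hinj
  simpa using this

theorem det_rowMat_mem (Y : Matrix (Fin m) (Fin t) R) (a : Fin t → Option (Fin m)) :
    (rowMat Y a).det ∈ minorsIdeal (dom a).card Y := by
  classical
  rw [Matrix.twoBlockTriangular_det _ (fun j => (a j).isSome = true)]
  · refine Ideal.mul_mem_right _ _ ?_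
    have h : ∀ j : {j // (a j).isSome = true}, ∃ i, a j = some i :=
      fun j => Option.isSome_iff_exists.1 j.2
    choose f hf using h
    let e : Fin (dom a).card ≃ {j // (a j).isSome = true} :=
      (Fintype.equivFinOfCardEq (by rw [Fintype.card_subtype]; rfl)).symm
    have h2 : (Matrix.toSquareBlockProp (rowMat Y a) fun j => (a j).isSome = true
        ).submatrix e e = Y.submatrix (fun i => f (e i)) (fun i => (e i : Fin t)) := by
      ext i j
      simp only [Matrix.submatrix_apply, Matrix.toSquareBlockProp_def, Matrix.of_apply]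
      exact rowMat_some (hf _) _
    rw [← Matrix.det_submatrix_equiv_self e, h2]
    exact det_submatrix_mem Y _ _
  · intro i hi j hj
    rw [rowMat_none (by simpa using hi), if_neg]
    rintro rfl
    exact hi hj

end rowMat

section rank

variable {R : Type*} [CommRing R] {m t r : ℕ}

theorem rowMat_map {R' : Type*} [CommRing R'] (φ : R →+* R') (Y : Matrix (Fin m) (Fin t) R)
    (a : Fin t → Option (Fin m)) : (rowMat Y a).map φ = rowMat (Y.map φ) a := by
  ext j l
  rw [Matrix.map_apply]
  cases h : a j with
  | none =>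
    rw [rowMat_none h, rowMat_none h]
    split_ifs <;> simp
  | some i =>
    rw [rowMat_some h, rowMat_some h, Matrix.map_apply]

/-- Rank argument: if the `(r+1)`-minors of `Y` are in the prime ideal `P` and some `r`-minor is
not, then the determinants with `q` rows from `Y` are in `P^(q - r)`. -/
theorem det_rowMat_mem_symbolicPower (P : Ideal R) [P.IsPrime] (Y : Matrix (Fin m) (Fin t) R)
    (hY : minorsIdeal (r + 1) Y ≤ P) (f : Fin r → Fin m) (g : Fin r → Fin t)
    (hfg : (Y.submatrix f g).det ∉ P) (a : Fin t → Option (Fin m)) :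
    (rowMat Y a).det ∈ symbolicPower P ((dom a).card - r) := by
  classical
  unfold symbolicPower
  rw [Ideal.mem_comap, Ideal.map_pow]
  set R' := Localization.AtPrime P
  set φ : R →+* R' := algebraMap R R' with hφ
  set I' : Ideal R' := P.map φ
  let Y' : Matrix (Fin m) (Fin t) R' := Y.map φ
  let D : Matrix (Fin r) (Fin r) R' := Y'.submatrix f g
  have hDdet : D.det = φ (Y.submatrix f g).det := by
    rw [RingHom.map_det]; rfl
  have hunit : IsUnit D.det := by
    rw [hDdet]
    exact IsLocalization.map_units R' (⟨_, hfg⟩ : P.primeCompl)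
  have hDunit : IsUnit D := (Matrix.isUnit_iff_isUnit_det D).2 hunit
  obtain ⟨iD⟩ := hDunit.nonempty_invertible
  let U : Matrix (Fin m) (Fin r) R' := Y'.submatrix id g * ⅟D
  let V : Matrix (Fin r) (Fin t) R' := Y'.submatrix f id
  have hmem : ∀ i j, Y' i j - (U * V) i j ∈ I' := by
    intro i j
    -- the bordered minor
    let f' : Fin r ⊕ Fin 1 → Fin m := Sum.elim f fun _ => i
    let g' : Fin r ⊕ Fin 1 → Fin t := Sum.elim g fun _ => j
    have h1 : φ (Y.submatrix f' g').det ∈ I' := by
      refine Ideal.mem_map_of_mem _ (hY ?_)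
      rw [← Matrix.det_submatrix_equiv_self (finSumFinEquiv (m := r) (n := 1)).symm,
        Matrix.submatrix_submatrix]
      exact det_submatrix_mem Y _ _
    have h2 : (Y'.submatrix f' g') = Matrix.fromBlocks D (Y'.submatrix f fun _ : Fin 1 => j)
        (Y'.submatrix (fun _ : Fin 1 => i) g) (Y'.submatrix (fun _ : Fin 1 => i) fun _ => j) := by
      ext x y
      rcases x with x | x <;> rcases y with y | y <;> rfl
    have h3 : φ (Y.submatrix f' g').det = (Y'.submatrix f' g').det := by
      rw [RingHom.map_det]; rfl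
    rw [h3, h2, Matrix.det_fromBlocks₁₁] at h1
    rw [Ideal.unit_mul_mem_iff_mem _ hunit] at h1
    rw [Matrix.det_fin_one] at h1
    convert h1 using 1
    simp only [Matrix.sub_apply, Matrix.submatrix_apply]
    congr 1
  have h4 : φ (rowMat Y a).det = (rowMat Y' a).det := by
    rw [RingHom.map_det, RingHom.mapMatrix_apply, rowMat_map]
  rw [h4]
  refine det_mem_pow_of_rank I' (rowMat Y' a) (dom a)
    (Matrix.of fun j ρ => (a j).elim 0 fun i => U i ρ) V ?_
  intro j hj l
  obtain ⟨i, hi⟩ := Option.isSome_iff_exists.1 (mem_dom.1 hj)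
  rw [rowMat_some hi]
  convert hmem i l using 2
  rw [Matrix.mul_apply, Matrix.mul_apply]
  refine Finset.sum_congr rfl fun ρ _ => ?_
  simp [hi]

end rank

end Pool.Agent.Helper50.VC
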