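import Pool.Agent.Helper50.VC.Minors

set_option autoImplicit false

/-! # The indeterminates: finiteness, linear order, arcs and chains -/

namespace Pool.Agent.Helper50.VC

open Finset

variable {m t n : ℕ}

namespace Var

/-- The equivalence with a sum type. -/
def equivSum (m t n : ℕ) : Var m t n ≃ (Fin m × Fin t) ⊕ (Fin t × Fin n) where
  toFun
    | y i j => Sum.inl (i, j)
    | z j k => Sum.inr (j, k)
  invFun
    | Sum.inl p => y p.1 p.2
    | Sum.inr p => z p.1 p.2
  left_inv c := by cases c <;> rfl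
  right_inv c := by rcases c with c | c <;> rfl

instance : Fintype (Var m t n) := Fintype.ofEquiv _ (equivSum m t n).symm

/-- The key for the order of the variables. -/
def key : Var m t n → ℕ ×ₗ ℕ
  | y i j => toLex ((i : ℕ), (j : ℕ))
  | z j k => toLex (m + (k : ℕ), (j : ℕ))

theorem key_injective : Function.Injective (key : Var m t n → ℕ ×ₗ ℕ) := by
  intro c c' h
  cases c with
  | y i j =>
    cases c' with
    | y i' j' =>
      simp only [key, EmbeddingLike.apply_eq_iff_eq, Prod.mk.injEq, Fin.val_inj] at h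
      rw [h.1, h.2]
    | z j' k' =>
      simp only [key, EmbeddingLike.apply_eq_iff_eq, Prod.mk.injEq] at h
      have := i.2
      omega
  | z j k =>
    cases c' with
    | y i' j' =>
      simp only [key, EmbeddingLike.apply_eq_iff_eq, Prod.mk.injEq] at h
      have := i'.2
      omega
    | z j' k' =>
      simp only [key, EmbeddingLike.apply_eq_iff_eq, Prod.mk.injEq, add_right_inj,
        Fin.val_inj] at h
      rw [h.1, h.2]

/-- The order of the variables: the entries of `Y` row by row, then the entries of `Z` column by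
column. -/
noncomputable instance : LinearOrder (Var m t n) := LinearOrder.lift' key key_injective

theorem lt_iff_key {c c' : Var m t n} : c < c' ↔ key c < key c' := Iff.rfl

theorem y_lt_y {i i' : Fin m} {j j' : Fin t} :
    (y i j : Var m t n) < y i' j' ↔ (i < i' ∨ i = i' ∧ j < j') := by
  rw [lt_iff_key]
  simp only [key, Prod.Lex.toLex_lt_toLex, Fin.val_fin_lt, Fin.val_inj]

theorem z_lt_z {k k' : Fin n} {j j' : Fin t} :
    (z j k : Var m t n) < z j' k' ↔ (k < k' ∨ k = k' ∧ j < j') := by
  rw [lt_iff_key]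
  simp only [key, Prod.Lex.toLex_lt_toLex, add_lt_add_iff_left, add_right_inj,
    Fin.val_fin_lt, Fin.val_inj]

theorem y_lt_z {i : Fin m} {k : Fin n} {j j' : Fin t} : (y i j : Var m t n) < z j' k := by
  rw [lt_iff_key]
  simp only [key, Prod.Lex.toLex_lt_toLex]
  have := i.2
  left
  omega

/-- The column of an entry of `Y`, the row of an entry of `Z`. -/
def col : Var m t n → ℕ
  | y _ j => j
  | z j _ => j

/-- The entries of `Y`. -/
def isY : Var m t n → Bool
  | y _ _ => true
  | z _ _ => false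

/-- The arcs of the network. -/
def Arc : Var m t n → Var m t n → Prop
  | y i j, y i' j' => i' ≤ i ∧ j ≤ j' ∧ ¬ (i = i' ∧ j = j')
  | z j k, z j' k' => k' ≤ k ∧ j ≤ j' ∧ ¬ (k = k' ∧ j = j')
  | _, _ => False

theorem Arc.irrefl {c : Var m t n} : ¬ Arc c c := by
  cases c <;> simp [Arc]

theorem Arc.trans {c c' c'' : Var m t n} (h : Arc c c') (h' : Arc c' c'') : Arc c c'' := by
  cases c <;> cases c' <;> cases c'' <;> simp only [Arc] at h h' ⊢
  · refine ⟨h'.1.trans h.1, h.2.1.trans h'.2.1, ?_⟩
    rintro ⟨rfl, rfl⟩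
    exact h.2.2 ⟨le_antisymm h'.1 h.1, le_antisymm h.2.1 h'.2.1⟩
  · refine ⟨h'.1.trans h.1, h.2.1.trans h'.2.1, ?_⟩
    rintro ⟨rfl, rfl⟩
    exact h.2.2 ⟨le_antisymm h'.1 h.1, le_antisymm h.2.1 h'.2.1⟩

theorem Arc.col_le {c c' : Var m t n} (h : Arc c c') : col c ≤ col c' := by
  cases c <;> cases c' <;> simp only [Arc] at h
  · exact h.2.1
  · exact h.2.1

theorem Arc.isY_eq {c c' : Var m t n} (h : Arc c c') : isY c = isY c' := by
  cases c <;> cases c' <;> simp only [Arc] at h <;> rfl

end Var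

open Var

/-- Chains: no two elements are joined by an arc. -/
def VChain (D : Finset (Var m t n)) : Prop := ∀ c ∈ D, ∀ c' ∈ D, ¬ Arc c c'

theorem VChain.mono {D D' : Finset (Var m t n)} (h : VChain D) (hD : D' ⊆ D) : VChain D' :=
  fun c hc c' hc' => h c (hD hc) c' (hD hc')

theorem VChain.yy {D : Finset (Var m t n)} (h : VChain D) {i i' : Fin m} {j j' : Fin t}
    (h1 : y i j ∈ D) (h2 : y i' j' ∈ D) :
    (i = i' ∧ j = j') ∨ (i < i' ∧ j < j') ∨ (i' < i ∧ j' < j) := by
  have h3 := h _ h1 _ h2
  have h4 := h _ h2 _ h1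
  simp only [Arc] at h3 h4
  simp only [Fin.lt_def, Fin.le_def, Fin.ext_iff] at *
  omega

theorem VChain.zz {D : Finset (Var m t n)} (h : VChain D) {k k' : Fin n} {j j' : Fin t}
    (h1 : z j k ∈ D) (h2 : z j' k' ∈ D) :
    (k = k' ∧ j = j') ∨ (k < k' ∧ j < j') ∨ (k' < k ∧ j' < j) := by
  have h3 := h _ h1 _ h2
  have h4 := h _ h2 _ h1
  simp only [Arc] at h3 h4
  simp only [Fin.lt_def, Fin.le_def, Fin.ext_iff] at *
  omega

/-- The value of a chain. -/
def val (r s : ℕ) (D : Finset (Var m t n)) : ℕ :=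
  max (((D.filter fun c => isY c = true).card - r) + ((D.filter fun c => isY c = false).card - s))
    (D.card - D.sup fun c => col c + 1)

/-- The conditions on a set of entries to be a face of the initial complex. -/
def Good (r s : ℕ) (F : Finset (Var m t n)) : Prop :=
  (∀ D ⊆ F, VChain D → ∀ x, (∀ c ∈ D, col c < x) → D.card ≤ x) ∧
    (∀ D ⊆ F, VChain D → (∀ c ∈ D, isY c = true) → D.card ≤ r) ∧
    (∀ D ⊆ F, VChain D → (∀ c ∈ D, isY c = false) → D.card ≤ s)

end Pool.Agent.Helper50.VC
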