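import Mathlib

set_option autoImplicit false

/-! # Potentials for Monge arrays -/

namespace Pool.Agent.Helper50.VC

open Finset

/-- Potentials for a Monge array which are exact on a given staircase. -/
theorem exists_potentials {m t : ℕ} (U : Fin m → Fin t → ℤ)
    (hU : ∀ i i' j j', i ≤ i' → j ≤ j' → U i j + U i' j' ≤ U i j' + U i' j)
    (F : Finset (Fin m × Fin t))
    (hF : ∀ c ∈ F, ∀ c' ∈ F, (c.1 ≤ c'.1 ∧ c'.2 ≤ c.2) ∨ (c'.1 ≤ c.1 ∧ c.2 ≤ c'.2))
    (hne : F.Nonempty) :
    ∃ (a : Fin m → ℤ) (b : Fin t → ℤ), (∀ i j, U i j ≤ a i + b j) ∧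
      ∀ c ∈ F, U c.1 c.2 = a c.1 + b c.2 := by
  classical
  obtain ⟨⟨i₀, j₀⟩, hc₀⟩ := hne
  have hm : 0 < m := lt_of_le_of_lt (Nat.zero_le _) i₀.2
  have hne' : (Finset.univ : Finset (Fin t)).Nonempty := ⟨j₀, Finset.mem_univ _⟩
  let ρ : ℕ → ℕ := fun l => (F.filter fun c => l < (c.2 : ℕ)).sup fun c => (c.1 : ℕ)
  have hρ : ∀ l, ρ l < m := by
    intro l
    rw [Finset.sup_lt_iff (by simpa using hm)]
    intro c _
    exact c.1.2
  let Un : ℕ → ℕ → ℤ := fun i l => if h : i < m ∧ l < t then U ⟨i, h.1⟩ ⟨l, h.2⟩ else 0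
  have hUn : ∀ (i : Fin m) (j : Fin t), Un i j = U i j := by
    intro i j
    simp [Un]
  have hδ : ∀ i i' l, i ≤ i' → i' < m → l + 1 < t →
      Un i' (l + 1) - Un i' l ≤ Un i (l + 1) - Un i l := by
    intro i i' l hi hi' hl
    have h := hU ⟨i, hi.trans_lt hi'⟩ ⟨i', hi'⟩ ⟨l, by omega⟩ ⟨l + 1, hl⟩ hi (by simp [Fin.le_def])
    have e1 : Un i' (l + 1) = U ⟨i', hi'⟩ ⟨l + 1, hl⟩ := by simp [Un, hi', hl]
    have e2 : Un i' l = U ⟨i', hi'⟩ ⟨l, by omega⟩ := by
      have : l < t := by omega
      simp [Un, hi', this]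
    have e3 : Un i (l + 1) = U ⟨i, hi.trans_lt hi'⟩ ⟨l + 1, hl⟩ := by
      simp [Un, hi.trans_lt hi', hl]
    have e4 : Un i l = U ⟨i, hi.trans_lt hi'⟩ ⟨l, by omega⟩ := by
      have : l < t := by omega
      simp [Un, hi.trans_lt hi', this]
    rw [e1, e2, e3, e4]
    linarith
  let b : ℕ → ℤ := fun j => Nat.rec 0 (fun l x => x + (Un (ρ l) (l + 1) - Un (ρ l) l)) j
  have hb : ∀ l, b (l + 1) = b l + (Un (ρ l) (l + 1) - Un (ρ l) l) := fun l => rfl
  have up : ∀ (i j j' : ℕ), i < m → j ≤ j' → j' < t → (∀ l, j ≤ l → l < j' → ρ l ≤ i) →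
      Un i j' - Un i j ≤ b j' - b j := by
    intro i j j' hi hjj
    induction j', hjj using Nat.le_induction with
    | base => intro _ _; simp
    | succ j' hj' ih =>
      intro hlt hρi
      have h1 := ih (by omega) (fun l h2 h3 => hρi l h2 (by omega))
      have h2 := hδ (ρ j') i j' (hρi j' hj' (by omega)) hi hlt
      rw [hb]
      linarith
  have down : ∀ (i j' j : ℕ), i < m → j' ≤ j → j < t → (∀ l, j' ≤ l → l < j → i ≤ ρ l) →
      b j - b j' ≤ Un i j - Un i j' := by
    intro i j' j hi hjj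
    induction j, hjj using Nat.le_induction with
    | base => intro _ _; simp
    | succ j hj' ih =>
      intro hlt hρi
      have h1 := ih (by omega) (fun l h2 h3 => hρi l h2 (by omega))
      have h2 := hδ i (ρ j) j (hρi j hj' (by omega)) (hρ j) hlt
      rw [hb]
      linarith
  refine ⟨fun i => Finset.univ.sup' hne' fun j : Fin t => U i j - b j, fun j => b j, ?_, ?_⟩
  · intro i j
    have := Finset.le_sup' (fun j : Fin t => U i j - b j) (Finset.mem_univ j)
    simp only at this ⊢
    linarith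
  · intro c hc
    have h1 : (Finset.univ.sup' hne' fun j : Fin t => U c.1 j - b j) = U c.1 c.2 - b c.2 := by
      apply le_antisymm
      · refine Finset.sup'_le _ _ fun j _ => ?_
        rcases le_total c.2 j with h | h
        · have := up c.1 c.2 j c.1.2 h j.2 ?_
          · rw [hUn, hUn] at this
            linarith
          · intro l hl _
            refine Finset.sup_le fun c' hc' => ?_
            rw [Finset.mem_filter] at hc'
            rcases hF c hc c' hc'.1 with h2 | h2
            · have := hc'.2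
              have h3 : (c'.2 : ℕ) ≤ c.2 := h2.2
              omega
            · exact h2.1
        · have := down c.1 j c.2 c.1.2 h c.2.2 ?_
          · rw [hUn, hUn] at this
            linarith
          · intro l _ hl
            exact Finset.le_sup (f := fun c : Fin m × Fin t => (c.1 : ℕ))
              (Finset.mem_filter.2 ⟨hc, hl⟩)
      · exact Finset.le_sup' (fun j : Fin t => U c.1 j - b j) (Finset.mem_univ c.2)
    simp only [h1]
    ring

end Pool.Agent.Helper50.VC
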